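import Pool.Agent.H985R6.LC.Defs2

/-!
Local form of Cardy's formula: assembly.
-/

set_option autoImplicit false

namespace H985LC

open MeasureTheory Filter Topology H974 H731C H731C.CardyAux

/-! ### Measurability -/

theorem meas_Icc (a b c d : ℤ) : MeasurableSet (Joined (Set.Icc a b) (Set.Icc c d)) := by
  rw [joined_eq]
  exact MeasurableSet.iUnion (fun N => meas_event _ _)

theorem meas_Iic (b c d : ℤ) : MeasurableSet (Joined (Set.Iic b) (Set.Icc c d)) := by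
  rw [joined_Iic]
  exact MeasurableSet.iUnion (fun N => meas_Icc _ _ _ _)

theorem first_real {N k : ℤ} (hk : 0 ≤ k) :
    (bondLaw H731C.half).real
      (Joined (Set.Iic (-N)) {k} \ Joined (Set.Iic (-N)) (Set.Icc 0 (k - 1))) =
    H731C.crossProb (Set.Iic (-N)) (Set.Icc 0 k) -
      H731C.crossProb (Set.Iic (-N)) (Set.Icc 0 (k - 1)) := by
  have h1 : Joined (Set.Iic (-N)) {k} \ Joined (Set.Iic (-N)) (Set.Icc 0 (k - 1)) =
      Joined (Set.Iic (-N)) (Set.Icc 0 k) \ Joined (Set.Iic (-N)) (Set.Icc 0 (k - 1)) := by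
    ext ω
    constructor
    · rintro ⟨⟨x, hx, y, hy, p, hp⟩, h2⟩
      refine ⟨⟨x, hx, y, ?_, p, hp⟩, h2⟩
      rw [Set.mem_singleton_iff] at hy
      rw [hy]
      exact ⟨hk, le_rfl⟩
    · rintro ⟨⟨x, hx, y, hy, p, hp⟩, h2⟩
      refine ⟨⟨x, hx, y, ?_, p, hp⟩, h2⟩
      rw [Set.mem_singleton_iff]
      by_contra hne
      exact h2 ⟨x, hx, y, ⟨hy.1, by have := hy.2; omega⟩, p, hp⟩
  have h2 : Joined (Set.Iic (-N)) (Set.Icc 0 (k - 1)) ⊆ Joined (Set.Iic (-N)) (Set.Icc 0 k) := by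
    rintro ω ⟨x, hx, y, hy, p, hp⟩
    exact ⟨x, hx, y, ⟨hy.1, by have := hy.2; omega⟩, p, hp⟩
  rw [h1, measureReal_sdiff h2 (meas_Iic _ _ _)]
  rfl

/-! ### The pointwise bounds -/

theorem local_bounds (hWB : S_WB) (hFD : S_FD) (hLM : S_LM) : ∃ c C : ℝ, 0 < c ∧ 0 < C ∧
    ∀ N k : ℤ, 1 ≤ N → 0 ≤ k →
      c * W N k ≤ H731C.crossProb (Set.Iic (-N)) (Set.Icc 0 k) -
        H731C.crossProb (Set.Iic (-N)) (Set.Icc 0 (k - 1)) ∧
      H731C.crossProb (Set.Iic (-N)) (Set.Icc 0 k) -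
        H731C.crossProb (Set.Iic (-N)) (Set.Icc 0 (k - 1)) ≤ C * W N k := by
  obtain ⟨c, C, hc, hC, h⟩ := hWB
  refine ⟨c, C, hc, hC, ?_⟩
  intro N k hN hk
  obtain ⟨M0, hM⟩ := h N k hN hk
  have h1 := (hLM (-N) 0 k).sub (hLM (-N) 0 (k - 1))
  have hev : ∀ᶠ M : ℕ in atTop, M0 ≤ (M : ℤ) := by
    filter_upwards [eventually_ge_atTop M0.toNat] with M hM
    omega
  constructor
  · refine ge_of_tendsto h1 ?_
    filter_upwards [hev] with M hM'
    have h2 := hM M hM'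
    rw [hFD _ _ _ hk] at h2
    exact h2.1
  · refine le_of_tendsto h1 ?_
    filter_upwards [hev] with M hM'
    have h2 := hM M hM'
    rw [hFD _ _ _ hk] at h2
    exact h2.2

/-! ### Increments -/

theorem ratio_lt {N : ℝ} {k : ℝ} (hN : 0 < N) (hk : 0 ≤ k) : k / (N + k) < 1 := by
  rw [div_lt_one (by linarith)]
  linarith

theorem ratio_nonneg {N : ℝ} {k : ℝ} (hN : 0 < N) (hk : 0 ≤ k) : 0 ≤ k / (N + k) := by
  positivity

theorem g_int_sub {x y : ℝ} (hx0 : 0 ≤ x) (hx : x < 1) (hy0 : 0 ≤ y) (hy : y < 1) :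
    IntervalIntegrable g volume x y :=
  (g_int hx0 hx).symm.trans (g_int hy0 hy)

theorem cardyF_sub {x y : ℝ} (hx0 : 0 ≤ x) (hx : x < 1) (hy0 : 0 ≤ y) (hy : y < 1) :
    cardyF y - cardyF x = (∫ u in x..y, g u) / ∫ u in (0 : ℝ)..1, g u := by
  rw [cardy_eq, cardy_eq, ← sub_div]
  congr 1
  exact intervalIntegral.integral_interval_sub_left (g_int hy0 hy) (g_int hx0 hx)

theorem incr_one (hCY : S_CY) : ∃ c C : ℝ, 0 < c ∧ 0 < C ∧ ∀ N k : ℤ, 1 ≤ N → 0 ≤ k →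
    c * W N k ≤ cardyF (((k + 1 : ℤ) : ℝ) / ((N : ℝ) + ((k + 1 : ℤ) : ℝ))) -
      cardyF ((k : ℝ) / ((N : ℝ) + k)) ∧
    cardyF (((k + 1 : ℤ) : ℝ) / ((N : ℝ) + ((k + 1 : ℤ) : ℝ))) -
      cardyF ((k : ℝ) / ((N : ℝ) + k)) ≤ C * W N k := by
  obtain ⟨c, C, hc, hC, h⟩ := hCY
  have hT := total_pos
  refine ⟨c / ∫ u in (0 : ℝ)..1, g u, C / ∫ u in (0 : ℝ)..1, g u, by positivity, by positivity, ?_⟩
  intro N k hN hk
  have hN' : (0 : ℝ) < N := by exact_mod_cast (by omega : 0 < N)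
  have hk' : (0 : ℝ) ≤ k := by exact_mod_cast hk
  have h1 := h N k hN hk
  have e1 : (((k + 1 : ℤ) : ℝ) / ((N : ℝ) + ((k + 1 : ℤ) : ℝ))) =
      ((k : ℝ) + 1) / ((N : ℝ) + k + 1) := by
    push_cast
    ring_nf
  have hx1 : ((k : ℝ) + 1) / ((N : ℝ) + k + 1) < 1 := by
    rw [div_lt_one (by linarith)]
    linarith
  have hx0 : 0 ≤ ((k : ℝ) + 1) / ((N : ℝ) + k + 1) := by positivity
  rw [e1, cardyF_sub (ratio_nonneg hN' hk') (ratio_lt hN' hk') hx0 hx1]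
  constructor
  · rw [div_mul_eq_mul_div]
    exact div_le_div_of_nonneg_right h1.1 hT.le
  · rw [div_mul_eq_mul_div]
    exact div_le_div_of_nonneg_right h1.2 hT.le

/-- Increments of the crossing probability and of Cardy's function. -/
theorem incr_bounds (hWB : S_WB) (hFD : S_FD) (hLM : S_LM) (hCY : S_CY) :
    ∃ c C : ℝ, 0 < c ∧ 0 < C ∧ ∀ N k l : ℤ, 1 ≤ N → 0 ≤ k → k ≤ l →
      c * (cardyF (((l + 1 : ℤ) : ℝ) / ((N : ℝ) + ((l + 1 : ℤ) : ℝ))) -
        cardyF ((k : ℝ) / ((N : ℝ) + k))) ≤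
        H731C.crossProb (Set.Iic (-N)) (Set.Icc 0 l) -
          H731C.crossProb (Set.Iic (-N)) (Set.Icc 0 (k - 1)) ∧
      H731C.crossProb (Set.Iic (-N)) (Set.Icc 0 l) -
        H731C.crossProb (Set.Iic (-N)) (Set.Icc 0 (k - 1)) ≤
        C * (cardyF (((l + 1 : ℤ) : ℝ) / ((N : ℝ) + ((l + 1 : ℤ) : ℝ))) -
          cardyF ((k : ℝ) / ((N : ℝ) + k))) := by
  obtain ⟨c1, C1, hc1, hC1, h1⟩ := local_bounds hWB hFD hLM
  obtain ⟨c2, C2, hc2, hC2, h2⟩ := incr_one hCY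
  have one : ∀ N k : ℤ, 1 ≤ N → 0 ≤ k →
      c1 / C2 * (cardyF (((k + 1 : ℤ) : ℝ) / ((N : ℝ) + ((k + 1 : ℤ) : ℝ))) -
        cardyF ((k : ℝ) / ((N : ℝ) + k))) ≤
        H731C.crossProb (Set.Iic (-N)) (Set.Icc 0 k) -
          H731C.crossProb (Set.Iic (-N)) (Set.Icc 0 (k - 1)) ∧
      H731C.crossProb (Set.Iic (-N)) (Set.Icc 0 k) -
        H731C.crossProb (Set.Iic (-N)) (Set.Icc 0 (k - 1)) ≤
        C1 / c2 * (cardyF (((k + 1 : ℤ) : ℝ) / ((N : ℝ) + ((k + 1 : ℤ) : ℝ))) -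
          cardyF ((k : ℝ) / ((N : ℝ) + k))) := by
    intro N k hN hk
    obtain ⟨p1, p2⟩ := h1 N k hN hk
    obtain ⟨q1, q2⟩ := h2 N k hN hk
    constructor
    · refine le_trans ?_ p1
      rw [div_mul_eq_mul_div, div_le_iff₀ hC2]
      calc _ ≤ c1 * (C2 * W N k) := mul_le_mul_of_nonneg_left q2 hc1.le
        _ = _ := by ring
    · refine le_trans p2 ?_
      rw [div_mul_eq_mul_div, le_div_iff₀ hc2]
      calc _ = C1 * (c2 * W N k) := by ring
        _ ≤ _ := mul_le_mul_of_nonneg_left q1 hC1.le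
  refine ⟨c1 / C2, C1 / c2, by positivity, by positivity, ?_⟩
  intro N k l hN hk hkl
  obtain ⟨n, rfl⟩ := Int.le.dest hkl
  clear hkl
  induction n with
  | zero =>
    have := one N k hN hk
    simpa using this
  | succ n ih =>
    have h3 := one N (k + (n : ℤ) + 1) hN (by omega)
    have e1 : k + ((n + 1 : ℕ) : ℤ) = k + (n : ℤ) + 1 := by push_cast; ring
    have e2 : k + (n : ℤ) + 1 - 1 = k + (n : ℤ) := by ring
    rw [e1]
    rw [e2] at h3
    obtain ⟨a1, a2⟩ := ih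
    obtain ⟨b1, b2⟩ := h3
    constructor
    · have := add_le_add a1 b1
      calc _ = _ := ?_
        _ ≤ _ := this
        _ = _ := by ring
      ring
    · have := add_le_add a2 b2
      calc _ = _ := ?_
        _ ≤ _ := this
        _ = _ := by ring
      ring

/-! ### Macroscopic form -/

theorem cardyF_cont {x : ℝ} (hx0 : 0 ≤ x) (hx : x < 1) :
    ContinuousWithinAt cardyF (Set.Ici 0) x := by
  have hy : ∃ y, x < y ∧ y < 1 := exists_between hx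
  obtain ⟨y, hxy, hy1⟩ := hy
  have hy0 : 0 ≤ y := by linarith
  have h1 : ContinuousOn (fun t => ∫ u in (0 : ℝ)..t, g u) (Set.uIcc 0 y) := by
    apply intervalIntegral.continuousOn_primitive_interval
    have := g_int hy0 hy1
    rw [intervalIntegrable_iff_integrableOn_Icc_of_le hy0] at this
    rwa [Set.uIcc_of_le hy0]
  rw [Set.uIcc_of_le hy0] at h1
  have h2 : ContinuousWithinAt (fun t => ∫ u in (0 : ℝ)..t, g u) (Set.Ici 0) x := by
    have h3 := h1 x ⟨hx0, hxy.le⟩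
    refine h3.mono_of_mem_nhdsWithin ?_
    have : Set.Icc (0 : ℝ) y = Set.Ici 0 ∩ Set.Iic y := by
      ext t; simp
    rw [this]
    exact inter_mem self_mem_nhdsWithin (mem_nhdsWithin_of_mem_nhds (Iic_mem_nhds hxy))
  exact h2.div_const _

theorem cardyF_lt {x y : ℝ} (hx0 : 0 ≤ x) (hxy : x < y) (hy : y < 1) : cardyF x < cardyF y := by
  have h := cardyF_sub hx0 (by linarith) (by linarith) hy
  have h2 : 0 < ∫ u in x..y, g u := by
    apply intervalIntegral.intervalIntegral_pos_of_pos_on (g_int_sub hx0 (by linarith)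
      (by linarith) hy) _ hxy
    intro u hu
    unfold g
    have h3 : 0 < u := by linarith [hu.1]
    have h4 : 0 < 1 - u := by linarith [hu.2]
    positivity
  have := div_pos h2 total_pos
  linarith

/-- The event `E_n(a, b)`. -/
def EE (a b : ℝ) (n : ℕ) : Set (sqLattice.edgeSet → Bool) :=
  Joined {x : ℤ | (x : ℝ) ≤ -(a * n)} {y : ℤ | 0 ≤ y ∧ (y : ℝ) ≤ b * n}

theorem EE_eq (a b : ℝ) (n : ℕ) :
    EE a b n = Joined (Set.Iic (-⌈a * n⌉)) (Set.Icc 0 ⌊b * n⌋) := by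
  have h1 : {x : ℤ | (x : ℝ) ≤ -(a * n)} = Set.Iic (-⌈a * n⌉) := by
    ext x
    rw [Set.mem_ofPred_eq, Set.mem_Iic, ← Int.floor_neg, Int.le_floor]
  have h2 : {y : ℤ | 0 ≤ y ∧ (y : ℝ) ≤ b * n} = Set.Icc 0 ⌊b * n⌋ := by
    ext y
    rw [Set.mem_ofPred_eq, Set.mem_Icc, Int.le_floor]
  unfold EE
  rw [h1, h2]

theorem EE_real (a b : ℝ) (n : ℕ) : (bondLaw H731C.half).real (EE a b n) =
    H731C.crossProb (Set.Iic (-⌈a * n⌉)) (Set.Icc 0 ⌊b * n⌋) := by
  rw [EE_eq]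
  rfl

theorem floor_div (b : ℝ) (j : ℤ) :
    Tendsto (fun n : ℕ => ((⌊b * n⌋ + j : ℤ) : ℝ) / n) atTop (𝓝 b) := by
  have h0 : Tendsto (fun n : ℕ => ((|(j : ℝ)| + 1) : ℝ) / (n : ℝ)) atTop (𝓝 0) :=
    tendsto_const_div_atTop_nhds_zero_nat _
  rw [tendsto_iff_dist_tendsto_zero]
  refine squeeze_zero' (Eventually.of_forall fun n => dist_nonneg) ?_ h0
  filter_upwards [eventually_ge_atTop 1] with n hn
  have hn' : (0 : ℝ) < n := by exact_mod_cast hn
  rw [Real.dist_eq]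
  have : ((⌊b * n⌋ + j : ℤ) : ℝ) / n - b = (((⌊b * n⌋ + j : ℤ) : ℝ) - b * n) / n := by
    field_simp
  rw [this, abs_div, abs_of_pos hn']
  refine div_le_div_of_nonneg_right ?_ hn'.le
  push_cast
  have h1 := Int.floor_le (b * n)
  have h2 := Int.lt_floor_add_one (b * n)
  rw [abs_le]
  have h3 := abs_le.mp (le_refl |(j : ℝ)|)
  constructor <;> linarith [h3.1, h3.2]

theorem ceil_div (a : ℝ) : Tendsto (fun n : ℕ => ((⌈a * n⌉ : ℤ) : ℝ) / n) atTop (𝓝 a) := by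
  have h0 : Tendsto (fun n : ℕ => (1 : ℝ) / (n : ℝ)) atTop (𝓝 0) :=
    tendsto_const_div_atTop_nhds_zero_nat _
  rw [tendsto_iff_dist_tendsto_zero]
  refine squeeze_zero' (Eventually.of_forall fun n => dist_nonneg) ?_ h0
  filter_upwards [eventually_ge_atTop 1] with n hn
  have hn' : (0 : ℝ) < n := by exact_mod_cast hn
  rw [Real.dist_eq]
  have : ((⌈a * n⌉ : ℤ) : ℝ) / n - a = (((⌈a * n⌉ : ℤ) : ℝ) - a * n) / n := by
    field_simp
  rw [this, abs_div, abs_of_pos hn']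
  refine div_le_div_of_nonneg_right ?_ hn'.le
  have h1 := Int.le_ceil (a * n)
  have h2 := Int.ceil_lt_add_one (a * n)
  rw [abs_le]
  constructor <;> linarith

theorem ratio_tendsto {a b : ℝ} (ha : 0 < a) (hb : 0 ≤ b) (j : ℤ) :
    Tendsto (fun n : ℕ => ((⌊b * n⌋ + j : ℤ) : ℝ) /
      (((⌈a * n⌉ : ℤ) : ℝ) + ((⌊b * n⌋ + j : ℤ) : ℝ))) atTop (𝓝 (b / (a + b))) := by
  have h1 := (floor_div b j).div ((ceil_div a).add (floor_div b j)) (by linarith)
  refine h1.congr' ?_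
  filter_upwards [eventually_ge_atTop 1] with n hn
  have hn' : (0 : ℝ) < n := by exact_mod_cast hn
  simp only [Pi.div_apply]
  rw [← add_div, div_div_div_cancel_right₀ hn'.ne']

theorem cardyF_ratio {a b : ℝ} (ha : 0 < a) (hb : 0 ≤ b) {j : ℤ} (hj : 0 ≤ j) :
    Tendsto (fun n : ℕ => cardyF (((⌊b * n⌋ + j : ℤ) : ℝ) /
      (((⌈a * n⌉ : ℤ) : ℝ) + ((⌊b * n⌋ + j : ℤ) : ℝ)))) atTop (𝓝 (cardyF (b / (a + b)))) := by
  have h1 : b / (a + b) < 1 := by
    rw [div_lt_one (by linarith)]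
    linarith
  have h2 := cardyF_cont (x := b / (a + b)) (by positivity) h1
  refine h2.tendsto.comp ?_
  refine tendsto_nhdsWithin_of_tendsto_nhds_of_eventually_within _ (ratio_tendsto ha hb j) ?_
  filter_upwards with n
  have h3 : (0 : ℝ) ≤ ((⌊b * n⌋ + j : ℤ) : ℝ) := by
    have : 0 ≤ ⌊b * (n : ℝ)⌋ := Int.floor_nonneg.mpr (by positivity)
    exact_mod_cast (by omega : 0 ≤ ⌊b * (n : ℝ)⌋ + j)
  have h4 : (0 : ℝ) ≤ ((⌈a * n⌉ : ℤ) : ℝ) := by
    have : 0 ≤ ⌈a * (n : ℝ)⌉ := Int.ceil_nonneg (by positivity)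
    exact_mod_cast this
  exact div_nonneg h3 (add_nonneg h4 h3)

theorem macro_bounds (hWB : S_WB) (hFD : S_FD) (hLM : S_LM) (hCY : S_CY) :
    ∃ c C : ℝ, 0 < c ∧ 0 < C ∧ ∀ a b b' : ℝ, 0 < a → 0 ≤ b → b < b' → ∀ᶠ n : ℕ in atTop,
      c * (cardyF (b' / (a + b')) - cardyF (b / (a + b))) ≤
        (bondLaw H731C.half).real (EE a b' n) - (bondLaw H731C.half).real (EE a b n) ∧
      (bondLaw H731C.half).real (EE a b' n) - (bondLaw H731C.half).real (EE a b n) ≤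
        C * (cardyF (b' / (a + b')) - cardyF (b / (a + b))) := by
  obtain ⟨c, C, hc, hC, h⟩ := incr_bounds hWB hFD hLM hCY
  refine ⟨c / 2, 2 * C, by positivity, by positivity, ?_⟩
  intro a b b' ha hb hbb
  have hb' : 0 < b' := by linarith
  have hlt : b / (a + b) < b' / (a + b') := by
    rw [div_lt_div_iff₀ (by linarith) (by linarith)]
    nlinarith
  have hlt1 : b' / (a + b') < 1 := by
    rw [div_lt_one (by linarith)]
    linarith
  have hpos : 0 < cardyF (b' / (a + b')) - cardyF (b / (a + b)) :=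
    sub_pos.mpr (cardyF_lt (by positivity) hlt hlt1)
  set Δ := cardyF (b' / (a + b')) - cardyF (b / (a + b)) with hΔ
  have ht := (cardyF_ratio ha hb'.le (j := 1) zero_le_one).sub
    (cardyF_ratio ha hb (j := 1) zero_le_one)
  rw [← hΔ] at ht
  have e1 := ht.eventually (lt_mem_nhds (show Δ / 2 < Δ by linarith))
  have e2 := ht.eventually (gt_mem_nhds (show Δ < 2 * Δ by linarith))
  have e3 : ∀ᶠ n : ℕ in atTop, (1 : ℝ) ≤ (b' - b) * n := by
    have h0 : Tendsto (fun n : ℕ => (b' - b) * (n : ℝ)) atTop atTop :=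
      tendsto_natCast_atTop_atTop.const_mul_atTop (by linarith)
    exact h0.eventually_ge_atTop 1
  have e4 : ∀ᶠ n : ℕ in atTop, 1 ≤ n := eventually_ge_atTop 1
  filter_upwards [e1, e2, e3, e4] with n h1 h2 h3 h4
  have hn' : (0 : ℝ) < n := by exact_mod_cast h4
  have hN : 1 ≤ ⌈a * (n : ℝ)⌉ := Int.one_le_ceil_iff.mpr (by positivity)
  have hk : 0 ≤ ⌊b * (n : ℝ)⌋ + 1 := by
    have : 0 ≤ ⌊b * (n : ℝ)⌋ := Int.floor_nonneg.mpr (by positivity)
    omega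
  have hkl : ⌊b * (n : ℝ)⌋ + 1 ≤ ⌊b' * (n : ℝ)⌋ := by
    rw [Int.le_floor]
    push_cast
    have := Int.floor_le (b * (n : ℝ))
    nlinarith
  have h5 := h ⌈a * (n : ℝ)⌉ (⌊b * (n : ℝ)⌋ + 1) ⌊b' * (n : ℝ)⌋ hN hk hkl
  rw [add_sub_cancel_right] at h5
  rw [EE_real, EE_real]
  constructor
  · refine le_trans ?_ h5.1
    rw [div_mul_eq_mul_div, div_le_iff₀ (by norm_num), mul_assoc]
    refine mul_le_mul_of_nonneg_left ?_ hc.le
    linarith
  · refine le_trans h5.2 ?_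
    rw [mul_comm 2 C, mul_assoc]
    refine mul_le_mul_of_nonneg_left ?_ hC.le
    linarith

/-- The three statements together. -/
theorem final (hWB : S_WB) (hFD : S_FD) (hLM : S_LM) (hCY : S_CY) :
    ∃ c C : ℝ, 0 < c ∧ 0 < C ∧
      (∀ N k : ℤ, 1 ≤ N → 0 ≤ k →
        c * W N k ≤ (bondLaw H731C.half).real
          (Joined (Set.Iic (-N)) {k} \ Joined (Set.Iic (-N)) (Set.Icc 0 (k - 1))) ∧
        (bondLaw H731C.half).real
          (Joined (Set.Iic (-N)) {k} \ Joined (Set.Iic (-N)) (Set.Icc 0 (k - 1))) ≤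
          C * W N k) ∧
      (∀ N k l : ℤ, 1 ≤ N → 0 ≤ k → k ≤ l →
        c * (cardyF (((l + 1 : ℤ) : ℝ) / ((N : ℝ) + ((l + 1 : ℤ) : ℝ))) -
          cardyF ((k : ℝ) / ((N : ℝ) + k))) ≤
          H731C.crossProb (Set.Iic (-N)) (Set.Icc 0 l) -
            H731C.crossProb (Set.Iic (-N)) (Set.Icc 0 (k - 1)) ∧
        H731C.crossProb (Set.Iic (-N)) (Set.Icc 0 l) -
          H731C.crossProb (Set.Iic (-N)) (Set.Icc 0 (k - 1)) ≤
          C * (cardyF (((l + 1 : ℤ) : ℝ) / ((N : ℝ) + ((l + 1 : ℤ) : ℝ))) -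
            cardyF ((k : ℝ) / ((N : ℝ) + k)))) ∧
      (∀ a b b' : ℝ, 0 < a → 0 ≤ b → b < b' → ∀ᶠ n : ℕ in atTop,
        c * (cardyF (b' / (a + b')) - cardyF (b / (a + b))) ≤
          (bondLaw H731C.half).real (EE a b' n) - (bondLaw H731C.half).real (EE a b n) ∧
        (bondLaw H731C.half).real (EE a b' n) - (bondLaw H731C.half).real (EE a b n) ≤
          C * (cardyF (b' / (a + b')) - cardyF (b / (a + b)))) := by
  obtain ⟨c1, C1, hc1, hC1, h1⟩ := local_bounds hWB hFD hLM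
  obtain ⟨c2, C2, hc2, hC2, h2⟩ := incr_bounds hWB hFD hLM hCY
  obtain ⟨c3, C3, hc3, hC3, h3⟩ := macro_bounds hWB hFD hLM hCY
  refine ⟨min c1 (min c2 c3), max C1 (max C2 C3), lt_min hc1 (lt_min hc2 hc3),
    lt_max_of_lt_left hC1, ?_, ?_, ?_⟩
  · intro N k hN hk
    have hN' : (0 : ℝ) < N := by exact_mod_cast (by omega : 0 < N)
    have hk' : (0 : ℝ) ≤ k := by exact_mod_cast hk
    have hW : 0 ≤ W N k := by
      unfold W
      positivity
    rw [first_real hk]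
    obtain ⟨p1, p2⟩ := h1 N k hN hk
    exact ⟨(mul_le_mul_of_nonneg_right (min_le_left _ _) hW).trans p1,
      p2.trans (mul_le_mul_of_nonneg_right (le_max_left _ _) hW)⟩
  · intro N k l hN hk hkl
    have hN' : (0 : ℝ) < N := by exact_mod_cast (by omega : 0 < N)
    have hk' : (0 : ℝ) ≤ k := by exact_mod_cast hk
    have hl' : (k : ℝ) < ((l + 1 : ℤ) : ℝ) := by exact_mod_cast (by omega : k < l + 1)
    have hlt : (k : ℝ) / ((N : ℝ) + k) < ((l + 1 : ℤ) : ℝ) / ((N : ℝ) + ((l + 1 : ℤ) : ℝ)) := by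
      rw [div_lt_div_iff₀ (by linarith) (by linarith)]
      nlinarith
    have hD : 0 ≤ cardyF (((l + 1 : ℤ) : ℝ) / ((N : ℝ) + ((l + 1 : ℤ) : ℝ))) -
        cardyF ((k : ℝ) / ((N : ℝ) + k)) :=
      (sub_pos.mpr (cardyF_lt (ratio_nonneg hN' hk') hlt
        (ratio_lt hN' (by linarith)))).le
    obtain ⟨p1, p2⟩ := h2 N k l hN hk hkl
    exact ⟨(mul_le_mul_of_nonneg_right ((min_le_right _ _).trans (min_le_left _ _)) hD).trans p1,
      p2.trans (mul_le_mul_of_nonneg_right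
        ((le_max_left _ _).trans (le_max_right _ _)) hD)⟩
  · intro a b b' ha hb hbb
    have hlt : b / (a + b) < b' / (a + b') := by
      rw [div_lt_div_iff₀ (by linarith) (by linarith)]
      nlinarith
    have hD : 0 ≤ cardyF (b' / (a + b')) - cardyF (b / (a + b)) :=
      (sub_pos.mpr (cardyF_lt (by positivity) hlt (by
        rw [div_lt_one (by linarith)]
        linarith))).le
    filter_upwards [h3 a b b' ha hb hbb] with n hn
    exact ⟨(mul_le_mul_of_nonneg_right ((min_le_right _ _).trans (min_le_right _ _)) hD).trans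
      hn.1, hn.2.trans (mul_le_mul_of_nonneg_right
        ((le_max_right _ _).trans (le_max_right _ _)) hD)⟩

end H985LC
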