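import Pool.Agent.H985R6.LC.Defs
import Pool.Agent.H974R2.Split

set_option autoImplicit false

namespace H985LC

open H974 Finset H731C

theorem t_cb (hsh : S_SH) (hen : S_EN) : S_CB := by
  intro M σ w1 w2 w3 x1 y1 y2 w1' w2' x1' y1' y2' j1 j2 k hj hσ hw
  have hterm : ∀ j ∈ Finset.Icc j1 j2,
      P2 (BX (M - σ)) (TJ (-(M - σ)) (M - σ) (M - σ) w1 w2 w3 x1 y1 y2 j) ≤
        P2 (BX M) (TJ (-M) M M w1' w2' w3 x1' y1' y2' k) := by
    intro j hjm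
    rw [Finset.mem_Icc] at hjm
    obtain ⟨h1, h2, h3, h4, h5⟩ := hw j hjm.1 hjm.2
    have h6 := abs_le.1 h1
    have e1 := hsh (-(M - σ)) (M - σ) (M - σ) w1 w2 w3 x1 y1 y2 j (k - j)
    have e2 : j + (k - j) = k := by ring
    rw [e2] at e1
    show P2 (RE (-(M - σ)) (M - σ) 0 (M - σ)) _ ≤ _
    rw [← e1]
    exact hen _ _ _ _ _ _ _ _ _ _ (-M) M M w1' w2' w3 x1' y1' y2' (by linarith [h6.1])
      (by linarith [h6.2]) (by linarith) h2 h3 h4 h5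
  have hun : P2 (BX (M - σ)) (fun F => ∃ j, j1 ≤ j ∧ j ≤ j2 ∧
      TJ (-(M - σ)) (M - σ) (M - σ) w1 w2 w3 x1 y1 y2 j F) ≤
      ∑ j ∈ Finset.Icc j1 j2,
        P2 (BX (M - σ)) (TJ (-(M - σ)) (M - σ) (M - σ) w1 w2 w3 x1 y1 y2 j) := by
    have h0 := Pr_exists_le (p := fun _ => (1 : ℝ) / 2) (okq (by norm_num) (by norm_num))
      (BX (M - σ)) (Finset.Icc j1 j2)
      (fun j => TJ (-(M - σ)) (M - σ) (M - σ) w1 w2 w3 x1 y1 y2 j)
    refine le_trans ?_ h0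
    refine Pr_mono (okq (by norm_num) (by norm_num)) ?_
    rintro F _ ⟨j, ha, hb, hc⟩
    exact ⟨j, Finset.mem_Icc.2 ⟨ha, hb⟩, hc⟩
  refine hun.trans ((Finset.sum_le_sum hterm).trans ?_)
  rw [Finset.sum_const, Int.card_Icc, nsmul_eq_mul]
  have h7 : (((j2 + 1 - j1).toNat : ℕ) : ℝ) = ((j2 - j1 + 1 : ℤ) : ℝ) := by
    have h8 : ((j2 + 1 - j1).toNat : ℤ) = j2 - j1 + 1 := by
      rw [Int.toNat_of_nonneg (by omega)]
      ring
    exact_mod_cast h8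
  rw [h7]

end H985LC

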