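import Pool.Agent.H985R6.LC.Defs
import Pool.Agent.H974R2.Block

set_option autoImplicit false

namespace H985LC

open H974 Finset H731C

/-- Harris for two decreasing events. -/
theorem cf_dd {S : Finset Edg} {A B : Finset Edg → Prop} {p : Edg → ℝ} (hp : Ok p)
    (hA : IncrE S (fun F => ¬ A F)) (hB : IncrE S (fun F => ¬ B F)) :
    Pr p S A * Pr p S B ≤ Pr p S (fun F => A F ∧ B F) := by
  have h := Pr_harris_dd hp hA hB
  rw [Pr_not, Pr_not, sub_sub_cancel, sub_sub_cancel] at h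
  refine h.trans (le_of_eq (Pr_congr ?_))
  intro F _
  simp only [not_not]

theorem t_cf : S_CF := by
  classical
  intro S T O X Y hTS hX hY
  have hp : Ok (fun _ : Edg => (1 / 2 : ℝ)) := fun e => by constructor <;> norm_num
  have hST : (S \ T) ∪ T = S := Finset.sdiff_union_of_subset hTS
  have hd : Disjoint (S \ T) T := Finset.sdiff_disjoint
  have key : ∀ A, A ⊆ S \ T →
      Pr (fun _ : Edg => (1 / 2 : ℝ)) T (fun B => O ((A ∪ B) \ T) ∧ X (A ∪ B)) *
        Pr (fun _ : Edg => (1 / 2 : ℝ)) T Y ≤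
      Pr (fun _ : Edg => (1 / 2 : ℝ)) T
        (fun B => (O ((A ∪ B) \ T) ∧ X (A ∪ B)) ∧ Y ((A ∪ B) ∩ T)) := by
    intro A hA
    have hAT : Disjoint A T := Finset.disjoint_of_subset_left hA hd
    have e1 : ∀ B, B ⊆ T → (A ∪ B) \ T = A := by
      intro B hB
      rw [Finset.union_sdiff_distrib, Finset.sdiff_eq_empty_iff_subset.2 hB,
        Finset.union_empty, Finset.sdiff_eq_self_of_disjoint hAT]
    have e2 : ∀ B, B ⊆ T → (A ∪ B) ∩ T = B := by
      intro B hB
      rw [Finset.union_inter_distrib_right, Finset.disjoint_iff_inter_eq_empty.1 hAT,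
        Finset.empty_union, Finset.inter_eq_left.2 hB]
    have hdd := cf_dd (S := T) (A := fun B => O A ∧ X (A ∪ B)) (B := Y) hp ?_ hY
    · calc _ = Pr (fun _ : Edg => (1 / 2 : ℝ)) T (fun B => O A ∧ X (A ∪ B)) *
            Pr (fun _ : Edg => (1 / 2 : ℝ)) T Y := by
            congr 1
            apply Pr_congr
            intro B hB
            rw [e1 B hB]
        _ ≤ _ := hdd
        _ = _ := by
            apply Pr_congr
            intro B hB
            rw [e1 B hB, e2 B hB]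
    · intro B C hBC hCT hn hh
      refine hn ⟨hh.1, ?_⟩
      by_contra hx
      refine hX (A ∪ B) (A ∪ C) (Finset.union_subset_union_right hBC) ?_ hx hh.2
      exact Finset.union_subset (hA.trans Finset.sdiff_subset) (hCT.trans hTS)
  unfold P2
  have u1 : Pr (fun _ : Edg => (1 / 2 : ℝ)) S (fun F => O (F \ T) ∧ X F) =
      Ex (fun _ : Edg => (1 / 2 : ℝ)) (S \ T) (fun A =>
        Pr (fun _ : Edg => (1 / 2 : ℝ)) T (fun B => O ((A ∪ B) \ T) ∧ X (A ∪ B))) := by
    unfold Pr
    conv_lhs => rw [← hST]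
    rw [Ex_union hd]
  have u2 : Pr (fun _ : Edg => (1 / 2 : ℝ)) S (fun F => (O (F \ T) ∧ X F) ∧ Y (F ∩ T)) =
      Ex (fun _ : Edg => (1 / 2 : ℝ)) (S \ T) (fun A =>
        Pr (fun _ : Edg => (1 / 2 : ℝ)) T
          (fun B => (O ((A ∪ B) \ T) ∧ X (A ∪ B)) ∧ Y ((A ∪ B) ∩ T))) := by
    unfold Pr
    conv_lhs => rw [← hST]
    rw [Ex_union hd]
  rw [u1, u2, ← Ex_mul_right]
  exact Ex_mono hp key

end H985LC
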