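import Pool.Agent.H985R6.LC.Defs
import Pool.Agent.H973R3.H3.Topo

/-!
CR: crossing paths in the half-plane share a vertex.
-/

set_option autoImplicit false

namespace H985LC

open H974 H12S H973 H973S Finset H731C

namespace CR

/-- an edge of the rectangle has its ends in the rectangle -/
theorem ends {A B t D : ℤ} {e : Edg} (he : e ∈ RE A B t D) :
    inR A B t D (src e) ∧ inR A B t D (tgt e) := by
  obtain ⟨x, y, bo⟩ := e
  cases bo
  · simp only [mem_RE_false] at he
    simp only [src_mk, tgt_false, inR]; omega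
  · simp only [mem_RE_true] at he
    simp only [src_mk, tgt_true, inR]; omega

theorem adj_in {G : Set Edg} {A B t D : ℤ} {u v : Vtx} (h : Adj (G ∩ ↑(RE A B t D)) u v) :
    inR A B t D u ∧ inR A B t D v := by
  obtain ⟨e, ⟨_, he⟩, hc⟩ := h
  have h1 := ends (Finset.mem_coe.mp he)
  rcases hc with ⟨h2, h3⟩ | ⟨h2, h3⟩
  · rw [← h2, ← h3]; exact h1
  · rw [← h2, ← h3]; exact ⟨h1.2, h1.1⟩

theorem reach_start {G : Set Edg} {A B t D : ℤ} {u v : Vtx} (h : Reach (G ∩ ↑(RE A B t D)) u v)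
    (hne : u ≠ v) : inR A B t D u := by
  rcases Relation.ReflTransGen.cases_head h with h1 | ⟨w, h1, _⟩
  · exact absurd h1 hne
  · exact (adj_in h1).1

theorem reach_in {G : Set Edg} {A B t D : ℤ} {u v : Vtx} (h : Reach (G ∩ ↑(RE A B t D)) u v)
    (hu : inR A B t D u) : inR A B t D v := by
  rcases Relation.ReflTransGen.cases_tail h with h1 | ⟨w, _, h1⟩
  · rw [h1]; exact hu
  · exact (adj_in h1).2

/-- a path stays in every set containing all the reachable vertices -/
theorem reach_EV {F : Set Edg} {R : Set Edg} (hFR : F ⊆ R) {V : Vtx → Prop} {u v : Vtx}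
    (h : Reach F u v) (hV : ∀ w, Reach F u w → V w) : Reach (EV V ∩ R) u v := by
  induction h with
  | refl => exact Relation.ReflTransGen.refl
  | @tail w w' hw hs ih =>
    refine Relation.ReflTransGen.tail ih ?_
    have h1 : V w := hV w hw
    have h2 : V w' := hV w' (Relation.ReflTransGen.tail hw hs)
    obtain ⟨e, he, hc⟩ := hs
    refine ⟨e, ⟨?_, hFR he⟩, hc⟩
    rcases hc with ⟨h3, h4⟩ | ⟨h3, h4⟩
    · exact ⟨h3 ▸ h1, h4 ▸ h2⟩
    · exact ⟨h3 ▸ h2, h4 ▸ h1⟩

end CR

open CR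

/-- CR -/
theorem t_cr : S_CR := by
  intro A B t D a b c d G1 G2 hab hbc hcd h1 h2
  by_contra hno
  push Not at hno
  have ha : inR A B t D (a, t) := reach_start h1 (by
    intro h
    have := congrArg Prod.fst h
    simp only at this
    omega)
  have hc : inR A B t D (c, t) := reach_in h1 ha
  have hb : inR A B t D (b, t) := reach_start h2 (by
    intro h
    have := congrArg Prod.fst h
    simp only at this
    omega)
  have hd : inR A B t D (d, t) := reach_in h2 hb
  have ha' := ha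
  have hb' := hb
  have hc' := hc
  have hd' := hd
  unfold inR at ha' hb' hc' hd'
  simp only at ha' hb' hc' hd'
  set W' : Vtx → Prop := fun w =>
    (Reach (G1 ∩ ↑(RE A B t D)) (a, t) w ∧ t ≤ w.2) ∨ (w.2 = t - 1 ∧ (w.1 = a ∨ w.1 = c)) with hW'
  have hsub1 : (G1 ∩ ↑(RE A B t D) : Set Edg) ⊆ ↑(RE A (B + 1) (t - 1) D) := by
    refine Set.inter_subset_right.trans ?_
    exact_mod_cast RE_subset (by omega) (by omega) (by omega) (by omega)
  have hsub2 : (G2 ∩ ↑(RE A B t D) : Set Edg) ⊆ ↑(RE A (B + 1) (t - 1) D) := by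
    refine Set.inter_subset_right.trans ?_
    exact_mod_cast RE_subset (by omega) (by omega) (by omega) (by omega)
  have hWr : ∀ w, Reach (G1 ∩ ↑(RE A B t D)) (a, t) w → W' w := by
    intro w hw
    have := reach_in hw ha
    unfold inR at this
    exact Or.inl ⟨hw, by omega⟩
  have hNr : ∀ w, Reach (G2 ∩ ↑(RE A B t D)) (b, t) w → ¬ W' w := by
    intro w hw
    have := reach_in hw hb
    unfold inR at this
    rintro (⟨h3, -⟩ | ⟨h3, -⟩)
    · exact hno w h3 hw
    · omega
  -- the first path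
  have p1 : Reach (EV W' ∩ ↑(RE A (B + 1) (t - 1) D)) (a, t - 1) (a, t) := by
    apply Adj.reach
    refine ⟨(a, t - 1, false), ⟨⟨Or.inr ⟨rfl, Or.inl rfl⟩, ?_⟩, ?_⟩, Or.inl ⟨rfl, ?_⟩⟩
    · simp only [tgt_false, sub_add_cancel]
      exact hWr _ (Reach.refl _ _)
    · simp only [Finset.mem_coe, mem_RE_false]; omega
    · simp only [tgt_false, sub_add_cancel]
  have p2 : Reach (EV W' ∩ ↑(RE A (B + 1) (t - 1) D)) (a, t) (c, t) :=
    reach_EV hsub1 h1 hWr
  have p3 : Reach (EV W' ∩ ↑(RE A (B + 1) (t - 1) D)) (c, t - 1) (c, t) := by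
    apply Adj.reach
    refine ⟨(c, t - 1, false), ⟨⟨Or.inr ⟨rfl, Or.inr rfl⟩, ?_⟩, ?_⟩, Or.inl ⟨rfl, ?_⟩⟩
    · simp only [tgt_false, sub_add_cancel]
      exact hWr _ h1
    · simp only [Finset.mem_coe, mem_RE_false]; omega
    · simp only [tgt_false, sub_add_cancel]
  -- the second path
  have nV : ∀ x : ℤ, x ≠ a → x ≠ c → ¬ W' (x, t - 1) := by
    rintro x hx1 hx2 (⟨-, k⟩ | ⟨-, k | k⟩)
    · simp only at k; omega
    · exact hx1 k
    · exact hx2 k
  have q1 : Reach (EV (fun w => ¬ W' w) ∩ ↑(RE A (B + 1) (t - 1) D)) (b, t - 1) (b, t) := by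
    apply Adj.reach
    refine ⟨(b, t - 1, false), ⟨⟨nV b (by omega) (by omega), ?_⟩, ?_⟩, Or.inl ⟨rfl, ?_⟩⟩
    · simp only [tgt_false, sub_add_cancel]
      exact hNr _ (Reach.refl _ _)
    · simp only [Finset.mem_coe, mem_RE_false]; omega
    · simp only [tgt_false, sub_add_cancel]
  have q2 : Reach (EV (fun w => ¬ W' w) ∩ ↑(RE A (B + 1) (t - 1) D)) (b, t) (d, t) :=
    reach_EV hsub2 h2 hNr
  have q3 : Reach (EV (fun w => ¬ W' w) ∩ ↑(RE A (B + 1) (t - 1) D)) (d, t - 1) (d, t) := by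
    apply Adj.reach
    refine ⟨(d, t - 1, false), ⟨⟨nV d (by omega) (by omega), ?_⟩, ?_⟩, Or.inl ⟨rfl, ?_⟩⟩
    · simp only [tgt_false, sub_add_cancel]
      exact hNr _ h2
    · simp only [Finset.mem_coe, mem_RE_false]; omega
    · simp only [tgt_false, sub_add_cancel]
  have q4 : Reach (EV (fun w => ¬ W' w) ∩ ↑(RE A (B + 1) (t - 1) D)) (d, t - 1) (B + 1, t - 1) :=
    hline' (by omega) (by omega) (by omega) le_rfl
      (fun k hk _ => nV k (by omega) (by omega))
  exact sep_bottom (W := W') (u := (B + 1, t - 1)) (x1 := a) (x2 := b) (x3 := c) (a := A)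
    (b := B + 1) (c := t - 1) (d := D) hab hbc (by omega) (by omega) (by omega)
    (Or.inr ⟨rfl, Or.inl rfl⟩) (Or.inr ⟨rfl, Or.inr rfl⟩) (nV b (by omega) (by omega))
    (by unfold inR; simp only; omega) (Or.inr (Or.inl rfl)) (nV (B + 1) (by omega) (by omega))
    (p1.trans (p2.trans p3.symm)) (q1.trans (q2.trans (q3.symm.trans q4)))

end H985LC
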