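import Pool.Agent.H985R6.LC.Defs2
import Pool.Agent.H731R3.Cardy.CardyF

/-!
Task CY: increments of the incomplete Beta function.
-/

set_option autoImplicit false

namespace H985LC

open MeasureTheory intervalIntegral H731C H731C.CardyAux

namespace CYaux

/-- cube root -/
noncomputable def cr (x : ℝ) : ℝ := x ^ ((1 : ℝ) / 3)

theorem cr_pos {x : ℝ} (hx : 0 < x) : 0 < cr x := Real.rpow_pos_of_pos hx _

theorem cr_cube {x : ℝ} (hx : 0 < x) : cr x ^ 3 = x := by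
  unfold cr
  rw [← Real.rpow_natCast, ← Real.rpow_mul hx.le]
  norm_num

theorem rpow_m23 {x : ℝ} (hx : 0 < x) : x ^ (-(2 / 3) : ℝ) = (cr x ^ 2)⁻¹ := by
  unfold cr
  rw [← Real.rpow_natCast, ← Real.rpow_mul hx.le, ← Real.rpow_neg hx.le]
  congr 1
  norm_num

theorem prod_eq {A B S S1 : ℝ} (hA : 0 < A) (hB : 0 < B) (hS : 0 < S) (hS1 : 0 < S1) :
    A / (S * S1) * ((B / S) ^ (-(2 / 3) : ℝ) * (A / S1) ^ (-(2 / 3) : ℝ)) =
      cr A * (cr B ^ 2)⁻¹ * ((cr S)⁻¹ * (cr S1)⁻¹) := by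
  rw [Real.div_rpow hB.le hS.le, Real.div_rpow hA.le hS1.le, rpow_m23 hA, rpow_m23 hB, rpow_m23 hS,
    rpow_m23 hS1]
  have a := cr_pos hA
  have b := cr_pos hB
  have s := cr_pos hS
  have s1 := cr_pos hS1
  have e : A / (S * S1) = cr A ^ 3 / (cr S ^ 3 * cr S1 ^ 3) := by
    rw [cr_cube hA, cr_cube hS, cr_cube hS1]
  rw [e]
  field_simp

theorem cr_le {x y : ℝ} (hx : 0 ≤ x) (h : x ≤ y) : cr x ≤ cr y :=
  Real.rpow_le_rpow hx h (by norm_num)

theorem cr_two {x : ℝ} (hx : 0 ≤ x) : cr (2 * x) ≤ 2 * cr x := by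
  unfold cr
  rw [Real.mul_rpow (by norm_num) hx]
  apply mul_le_mul_of_nonneg_right _ (Real.rpow_nonneg hx _)
  calc (2 : ℝ) ^ ((1 : ℝ) / 3) ≤ 2 ^ (1 : ℝ) :=
        Real.rpow_le_rpow_of_exponent_le (by norm_num) (by norm_num)
    _ = 2 := Real.rpow_one 2

theorem cr_two_sq {x : ℝ} (hx : 0 < x) : cr (2 * x) ^ 2 ≤ 2 * cr x ^ 2 := by
  have h : cr (2 * x) = cr 2 * cr x := by
    unfold cr
    rw [Real.mul_rpow (by norm_num) hx.le]
  rw [h, mul_pow]
  apply mul_le_mul_of_nonneg_right _ (sq_nonneg _)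
  have h2 : cr 2 ^ 2 = 2 ^ ((2 : ℝ) / 3) := by
    unfold cr
    rw [← Real.rpow_natCast, ← Real.rpow_mul (by norm_num)]
    congr 1
    norm_num
  rw [h2]
  calc (2 : ℝ) ^ ((2 : ℝ) / 3) ≤ 2 ^ (1 : ℝ) :=
        Real.rpow_le_rpow_of_exponent_le (by norm_num) (by norm_num)
    _ = 2 := Real.rpow_one 2

/-- the increments of the incomplete Beta integral -/
theorem incr (N k : ℕ) (hN : 1 ≤ N) :
    1 / 2 * (cr N * (cr ((k : ℝ) + 1) ^ 2)⁻¹ * (cr ((N : ℝ) + k) ^ 2)⁻¹) ≤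
      ∫ u in ((k : ℝ) / (N + k))..(((k : ℝ) + 1) / (N + k + 1)), g u ∧
    ∫ u in ((k : ℝ) / (N + k))..(((k : ℝ) + 1) / (N + k + 1)), g u ≤
      6 * (cr N * (cr ((k : ℝ) + 1) ^ 2)⁻¹ * (cr ((N : ℝ) + k) ^ 2)⁻¹) := by
  have hN' : (1 : ℝ) ≤ N := by exact_mod_cast hN
  have hN0 : (0 : ℝ) < N := by linarith
  have hk0 : (0 : ℝ) ≤ k := Nat.cast_nonneg k
  have hS : (0 : ℝ) < (N : ℝ) + k := by linarith
  have hS1 : (0 : ℝ) < (N : ℝ) + k + 1 := by linarith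
  have hK1 : (0 : ℝ) < (k : ℝ) + 1 := by linarith
  have cN := cr_pos hN0
  have cS := cr_pos hS
  have cS1 := cr_pos hS1
  have cK1 := cr_pos hK1
  have hx10 : ((k : ℝ) + 1) / (N + k + 1) - (k : ℝ) / (N + k) = N / ((N + k) * (N + k + 1)) := by
    field_simp
    ring
  have h1x0 : 1 - (k : ℝ) / (N + k) = N / (N + k) := by
    field_simp
    ring
  have h1x1 : 1 - ((k : ℝ) + 1) / (N + k + 1) = N / (N + k + 1) := by
    field_simp
    ring
  have hx1pos : 0 < ((k : ℝ) + 1) / (N + k + 1) := by positivity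
  have hx0nn : 0 ≤ (k : ℝ) / (N + k) := by positivity
  have hx1lt : ((k : ℝ) + 1) / (N + k + 1) < 1 := by
    rw [div_lt_one hS1]; linarith
  have hle : (k : ℝ) / (N + k) ≤ ((k : ℝ) + 1) / (N + k + 1) := by
    have : 0 ≤ (N : ℝ) / ((N + k) * (N + k + 1)) := by positivity
    linarith
  have hSS1 : cr ((N : ℝ) + k) ≤ cr ((N : ℝ) + k + 1) := cr_le hS.le (by linarith)
  have hS12 : cr ((N : ℝ) + k + 1) ≤ 2 * cr ((N : ℝ) + k) :=
    (cr_le hS1.le (by linarith)).trans (cr_two hS.le)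
  have hup1 : (cr ((N : ℝ) + k))⁻¹ * (cr ((N : ℝ) + k + 1))⁻¹ ≤ (cr ((N : ℝ) + k) ^ 2)⁻¹ := by
    rw [← mul_inv, sq]
    apply inv_anti₀ (by positivity)
    exact mul_le_mul_of_nonneg_left hSS1 cS.le
  have hlo1 : 1 / 2 * (cr ((N : ℝ) + k) ^ 2)⁻¹ ≤ (cr ((N : ℝ) + k))⁻¹ * (cr ((N : ℝ) + k + 1))⁻¹ := by
    rw [← mul_inv, one_div, ← mul_inv]
    apply inv_anti₀ (by positivity)
    nlinarith
  rcases Nat.eq_zero_or_pos k with hk | hk
  · -- k = 0
    subst hk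
    simp only [Nat.cast_zero, zero_div, zero_add, add_zero] at *
    have hone : cr 1 = 1 := by unfold cr; exact Real.one_rpow _
    have hx : (1 / ((N : ℝ) + 1)) ^ ((1 : ℝ) / 3) = (cr ((N : ℝ) + 1))⁻¹ := by
      rw [one_div, Real.inv_rpow hS1.le]
      rfl
    have e1 : cr (N : ℝ) * (cr 1 ^ 2)⁻¹ * (cr (N : ℝ) ^ 2)⁻¹ = (cr (N : ℝ))⁻¹ := by
      rw [hone]
      field_simp
    rw [e1]
    have hl := lower hx1pos.le hx1lt
    have hu := upper hx1pos.le (by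
      rw [div_le_iff₀ hS1]; linarith : 1 / ((N : ℝ) + 1) ≤ 1 / 2)
    rw [hx] at hl hu
    constructor
    · refine le_trans ?_ hl
      have : (2 * cr (N : ℝ))⁻¹ ≤ (cr ((N : ℝ) + 1))⁻¹ := inv_anti₀ cS1 hS12
      rw [mul_inv] at this
      have h3 : 0 < (cr ((N : ℝ) + 1))⁻¹ := by positivity
      linarith
    · refine hu.trans ?_
      have : (cr ((N : ℝ) + 1))⁻¹ ≤ (cr (N : ℝ))⁻¹ := inv_anti₀ cN hSS1
      linarith
  · have hk1 : (1 : ℝ) ≤ k := by exact_mod_cast hk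
    have hkp : (0 : ℝ) < k := by linarith
    have cK := cr_pos hkp
    have hx0pos : 0 < (k : ℝ) / (N + k) := by positivity
    have hgi : IntervalIntegrable g volume ((k : ℝ) / (N + k)) (((k : ℝ) + 1) / (N + k + 1)) := by
      refine (g_int hx1pos.le hx1lt).mono_set ?_
      rw [Set.uIcc_of_le hle, Set.uIcc_of_le hx1pos.le]
      exact Set.Icc_subset_Icc hx0nn le_rfl
    constructor
    · have h1 : ∫ u in ((k : ℝ) / (N + k))..(((k : ℝ) + 1) / (N + k + 1)),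
          ((((k : ℝ) + 1) / (N + k + 1)) ^ (-(2 / 3) : ℝ) * (1 - (k : ℝ) / (N + k)) ^ (-(2 / 3) : ℝ)) ≤
          ∫ u in ((k : ℝ) / (N + k))..(((k : ℝ) + 1) / (N + k + 1)), g u := by
        refine intervalIntegral.integral_mono_on hle intervalIntegrable_const hgi ?_
        intro u hu
        have hu0 : 0 < u := lt_of_lt_of_le hx0pos hu.1
        have hu1 : 0 < 1 - u := by linarith [hu.2]
        unfold g
        apply mul_le_mul
        · exact Real.rpow_le_rpow_of_nonpos hu0 hu.2 (by norm_num)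
        · exact Real.rpow_le_rpow_of_nonpos hu1 (by linarith [hu.1]) (by norm_num)
        · exact Real.rpow_nonneg (by rw [h1x0]; positivity) _
        · exact Real.rpow_nonneg hu0.le _
      rw [intervalIntegral.integral_const, smul_eq_mul, hx10, h1x0] at h1
      refine le_trans ?_ h1
      have e : (N : ℝ) / ((N + k) * (N + k + 1)) * ((((k : ℝ) + 1) / (N + k + 1)) ^ (-(2 / 3) : ℝ) *
          ((N : ℝ) / (N + k)) ^ (-(2 / 3) : ℝ)) = cr N * (cr ((k : ℝ) + 1) ^ 2)⁻¹ *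
          ((cr ((N : ℝ) + k + 1))⁻¹ * (cr ((N : ℝ) + k))⁻¹) := by
        rw [mul_comm ((N : ℝ) + k) ((N : ℝ) + k + 1)]
        exact prod_eq hN0 hK1 hS1 hS
      rw [e, mul_comm (cr ((N : ℝ) + k + 1))⁻¹]
      calc 1 / 2 * (cr N * (cr ((k : ℝ) + 1) ^ 2)⁻¹ * (cr ((N : ℝ) + k) ^ 2)⁻¹)
          = cr N * (cr ((k : ℝ) + 1) ^ 2)⁻¹ * (1 / 2 * (cr ((N : ℝ) + k) ^ 2)⁻¹) := by ring
        _ ≤ _ := mul_le_mul_of_nonneg_left hlo1 (by positivity)
    · have h1 : ∫ u in ((k : ℝ) / (N + k))..(((k : ℝ) + 1) / (N + k + 1)), g u ≤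
          ∫ u in ((k : ℝ) / (N + k))..(((k : ℝ) + 1) / (N + k + 1)),
          (((k : ℝ) / (N + k)) ^ (-(2 / 3) : ℝ) *
            (1 - ((k : ℝ) + 1) / (N + k + 1)) ^ (-(2 / 3) : ℝ)) := by
        refine intervalIntegral.integral_mono_on hle hgi intervalIntegrable_const ?_
        intro u hu
        have hu0 : 0 < u := lt_of_lt_of_le hx0pos hu.1
        have hu1 : 0 < 1 - u := by linarith [hu.2]
        unfold g
        apply mul_le_mul
        · exact Real.rpow_le_rpow_of_nonpos hx0pos hu.1 (by norm_num)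
        · exact Real.rpow_le_rpow_of_nonpos (by linarith) (by linarith [hu.2]) (by norm_num)
        · exact Real.rpow_nonneg hu1.le _
        · exact Real.rpow_nonneg hx0nn _
      rw [intervalIntegral.integral_const, smul_eq_mul, hx10, h1x1] at h1
      refine h1.trans ?_
      rw [prod_eq hN0 hkp hS hS1]
      have h2 : (cr (k : ℝ) ^ 2)⁻¹ ≤ 2 * (cr ((k : ℝ) + 1) ^ 2)⁻¹ := by
        have h3 : cr ((k : ℝ) + 1) ^ 2 ≤ 2 * cr (k : ℝ) ^ 2 := by
          refine le_trans ?_ (cr_two_sq hkp)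
          exact pow_le_pow_left₀ cK1.le (cr_le hK1.le (by linarith)) 2
        rw [← div_eq_mul_inv, le_div_iff₀ (by positivity), inv_mul_le_iff₀ (by positivity)]
        linarith
      calc cr N * (cr (k : ℝ) ^ 2)⁻¹ * ((cr ((N : ℝ) + k))⁻¹ * (cr ((N : ℝ) + k + 1))⁻¹)
          ≤ cr N * (2 * (cr ((k : ℝ) + 1) ^ 2)⁻¹) * (cr ((N : ℝ) + k) ^ 2)⁻¹ := by
            apply mul_le_mul _ hup1 (by positivity) (by positivity)
            exact mul_le_mul_of_nonneg_left h2 cN.le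
        _ ≤ _ := by
            have h4 : 0 < cr N * (cr ((k : ℝ) + 1) ^ 2)⁻¹ * (cr ((N : ℝ) + k) ^ 2)⁻¹ := by positivity
            linarith

theorem sq_cr {x : ℝ} (hx : 0 < x) : x ^ ((2 : ℝ) / 3) = cr x ^ 2 := by
  unfold cr
  rw [← Real.rpow_natCast, ← Real.rpow_mul hx.le]
  congr 1
  norm_num

end CYaux

open CYaux in
theorem t_cy : S_CY := by
  refine ⟨1 / 2, 6, by norm_num, by norm_num, ?_⟩
  intro N k hN hk
  lift N to ℕ using by omega
  lift k to ℕ using hk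
  have hN' : 1 ≤ N := by exact_mod_cast hN
  have hN0 : (0 : ℝ) < N := by exact_mod_cast hN'
  have hk0 : (0 : ℝ) ≤ k := Nat.cast_nonneg k
  have hW : W (N : ℤ) (k : ℤ) =
      cr N * (cr ((k : ℝ) + 1) ^ 2)⁻¹ * (cr ((N : ℝ) + k) ^ 2)⁻¹ := by
    unfold W
    simp only [Int.cast_natCast]
    rw [sq_cr (by linarith : (0 : ℝ) < (k : ℝ) + 1), sq_cr (by linarith : (0 : ℝ) < (N : ℝ) + k),
      div_eq_mul_inv, mul_inv, mul_assoc]
    rfl
  rw [hW]
  simp only [Int.cast_natCast]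
  exact incr N k hN'

end H985LC
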