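import Pool.Agent.H985R6.LC.Aux278

/-! Task DET. -/

set_option autoImplicit false

namespace H985LC

open H974 Finset H731C

theorem t_det (hcr : S_CR) (hdl : S_DL) : S_DET := by
  intro A B D x1 f x y0 z0 j' F hAx hxx hxf hfy hyz hzj hjB hD hfx hfj hd
  obtain ⟨j, ⟨hj1, hj2⟩, hjmin⟩ := Int.exists_least_of_bdd
    (P := fun j => z0 < j ∧ Reach ((↑F : Set Edg) ∩ ↑(RE A B 0 D)) (j, 0) (f, 0))
    ⟨z0, fun z hz => hz.1.le⟩ ⟨j', hzj, hfj.symm⟩
  have hjj : j ≤ j' := hjmin j' ⟨hzj, hfj.symm⟩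
  have hemp : RE A B 0 D \ RE 1 0 0 0 = RE A B 0 D := by
    have : RE 1 0 0 0 = ∅ := by
      rw [Finset.eq_empty_iff_forall_notMem]
      rintro ⟨x, y, _ | _⟩ h
      · rw [mem_RE_false] at h; omega
      · rw [mem_RE_true] at h; omega
    rw [this, Finset.sdiff_empty]
  refine ⟨j, hj1, hjj, ⟨x, hAx, hxx, ?_⟩, ?_⟩
  · rw [hemp]
    exact hj2.trans hfx
  · obtain ⟨y, hy1, hy2, hy3⟩ := hdl A B D f (y0 + 1) j f F (by omega) (by omega) (by omega)
      (by omega) hD (by omega) le_rfl hj2 (by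
        intro u v hu1 hu2 hv1 hv2 huv
        by_cases hu : u ≤ z0
        · exact no_half (u := u) (v := v) ⟨by omega, hu⟩ (Or.inl (by omega)) hd huv
        · have hmin : ¬ Reach ((↑F : Set Edg) ∩ ↑(RE A B 0 D)) (u, 0) (f, 0) := by
            intro h
            have := hjmin u ⟨by omega, h⟩
            omega
          by_cases hvf : v = f
          · rw [hvf] at huv; exact hmin huv
          · obtain ⟨w, hw1, hw2⟩ := hcr A B 0 D v f u j' (↑F) (↑F) (by omega) (by omega) (by omega)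
              huv.symm hfj
            exact hmin ((huv.trans hw1).trans hw2.symm))
    exact ⟨y, hy1, by omega, hy3⟩

end H985LC
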