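import Pool.Agent.H985R6.LC.Aux278
import Pool.Agent.H974R2.Sym

/-! Task DETB. -/

set_option autoImplicit false

namespace H985LC

open H974 Finset H731C

theorem detb_dual (hcr : S_CR) {A B D a b z1 z2 : ℤ} {F : Finset Edg} (hab : a < b) (hbz : b < z1)
    (hzz : z1 < z2)
    (h1 : DReach ((↑F : Set Edg)ᶜ ∩ ↑(RE A B 0 D)) (a, -1) (z1, -1))
    (h2 : DReach ((↑F : Set Edg)ᶜ ∩ ↑(RE A B 0 D)) (b, -1) (z2, -1)) :
    DReach ((↑F : Set Edg)ᶜ ∩ ↑(RE A B 0 D)) (a, -1) (b, -1) := by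
  set X : Set Edg := (↑F : Set Edg)ᶜ ∩ ↑(RE A B 0 D) with hX
  have hsub : dl '' X ∩ ↑(RE (A - 1) (B + 1) (-1) (D + 1)) = dl '' X := by
    apply Set.inter_eq_left.2
    rintro _ ⟨⟨x, y, _ | _⟩, ⟨_, he⟩, rfl⟩
    · rw [Finset.mem_coe, mem_RE_false] at he
      rw [dl_f, Finset.mem_coe, mem_RE_true]; omega
    · rw [Finset.mem_coe, mem_RE_true] at he
      rw [dl_t, Finset.mem_coe, mem_RE_false]; omega
  have e1 : Reach (dl '' X ∩ ↑(RE (A - 1) (B + 1) (-1) (D + 1))) (a, -1) (z1, -1) := by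
    rw [hsub]; exact reach_dl.2 h1
  have e2 : Reach (dl '' X ∩ ↑(RE (A - 1) (B + 1) (-1) (D + 1))) (b, -1) (z2, -1) := by
    rw [hsub]; exact reach_dl.2 h2
  obtain ⟨w, hw1, hw2⟩ := hcr (A - 1) (B + 1) (-1) (D + 1) a b z1 z2 (dl '' X) (dl '' X) hab hbz
    hzz e1 e2
  rw [hsub] at hw1 hw2
  exact reach_dl.1 (hw1.trans hw2.symm)

theorem t_detb (hcr : S_CR) (hdl : S_DL) : S_DETB := by
  intro A B D w w' a b z1 z2 j' x' F hAx hxa haw hw0 hww hab hbz hzz hzj hjB hRE hjx hd1 hd2 hHA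
  have hdab := detb_dual hcr hab hbz hzz hd1 hd2
  have hD : 0 ≤ D := AX.D_nonneg (by intro h; have := congrArg Prod.fst h; simp at this; omega) hjx
  obtain ⟨j, ⟨hj1, x, hAx2, hxa2, hjx2⟩, hjmin⟩ := Int.exists_least_of_bdd
    (P := fun j => z2 < j ∧ ∃ x, A ≤ x ∧ x ≤ a ∧
      Reach ((↑F : Set Edg) ∩ ↑(RE A B 0 D)) (j, 0) (x, 0))
    ⟨z2, fun z hz => hz.1.le⟩ ⟨j', hzj, x', hAx, hxa, hjx⟩
  have hjj : j ≤ j' := hjmin j' ⟨hzj, x', hAx, hxa, hjx⟩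
  have haz2 := hdab.trans hd2
  refine ⟨j, hj1, hjj, ⟨x, hAx2, hxa2, ?_⟩, b, le_rfl, le_rfl, ?_⟩
  · refine AX.avoid_path hjx2 fun z hz => ?_
    exact AX.avoid hww hHA (x := x) (by omega) (hz.symm.trans hjx2)
  · obtain ⟨y, hy1, hy2, hy3⟩ := hdl A B D a (a + 1) j x F (by omega) (by omega) (by omega)
      (by omega) hD hAx2 hxa2 hjx2 (by
        intro u v hu1 hu2 hv1 hv2 huv
        by_cases hu : u ≤ z2
        · exact no_half (u := u) (v := v) ⟨by omega, hu⟩ (Or.inl (by omega)) haz2 huv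
        · have := hjmin u ⟨by omega, v, hv1, hv2, huv⟩
          omega)
    have hya : y = a := by omega
    rw [hya] at hy3
    exact hdab.symm.trans hy3

end H985LC
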