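import Pool.Agent.H985R6.LC.Defs
import Pool.Agent.H731R3.Cardy.NoHalf

/-! Task DL of helper985's project LC (by helper747): the closed dual path from the face left of
`j`. -/

set_option autoImplicit false

namespace H985LC

open H974 Finset H731C

theorem dl_left {A B D : ℤ} {F : Set Edg} (n : ℕ) (hAB : A ≤ B) (hn : (n : ℤ) ≤ D + 1) :
    DReach ((F ∩ ↑(RE A B 0 D))ᶜ ∩ ↑(RE (A - 1) (B + 1) 0 (D + 1))) (A - 1, (n : ℤ))
      (A - 1, -1) := by
  induction n with
  | zero =>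
    refine DAdj.reach ⟨(A - 1, 0, true), ⟨?_, ?_⟩, Or.inr ⟨by simp, by simp⟩⟩
    · rintro ⟨-, h⟩
      have := mem_RE_true.1 (Finset.mem_coe.1 h)
      omega
    · rw [Finset.mem_coe, mem_RE_true]
      push_cast at hn
      omega
  | succ n ih =>
    push_cast at hn
    refine DReach.trans (DAdj.reach ⟨(A - 1, (n : ℤ) + 1, true), ⟨?_, ?_⟩,
      Or.inr ⟨?_, by simp⟩⟩) (ih (by omega))
    · rintro ⟨-, h⟩
      have := mem_RE_true.1 (Finset.mem_coe.1 h)
      omega
    · rw [Finset.mem_coe, mem_RE_true]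
      omega
    · simp

theorem dl_right {A B D : ℤ} {F : Set Edg} (n : ℕ) (hAB : A ≤ B) (hn : (n : ℤ) ≤ D + 1) :
    DReach ((F ∩ ↑(RE A B 0 D))ᶜ ∩ ↑(RE (A - 1) (B + 1) 0 (D + 1))) (B, (n : ℤ))
      (B, -1) := by
  induction n with
  | zero =>
    refine DAdj.reach ⟨(B, 0, true), ⟨?_, ?_⟩, Or.inr ⟨by simp, by simp⟩⟩
    · rintro ⟨-, h⟩
      have := mem_RE_true.1 (Finset.mem_coe.1 h)
      omega
    · rw [Finset.mem_coe, mem_RE_true]
      push_cast at hn
      omega
  | succ n ih =>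
    push_cast at hn
    refine DReach.trans (DAdj.reach ⟨(B, (n : ℤ) + 1, true), ⟨?_, ?_⟩,
      Or.inr ⟨?_, by simp⟩⟩) (ih (by omega))
    · rintro ⟨-, h⟩
      have := mem_RE_true.1 (Finset.mem_coe.1 h)
      omega
    · rw [Finset.mem_coe, mem_RE_true]
      omega
    · simp

theorem dl_top {A B D : ℤ} {F : Set Edg} (n : ℕ) (hD : 0 ≤ D) (hn : A + (n : ℤ) ≤ B + 1) :
    DReach ((F ∩ ↑(RE A B 0 D))ᶜ ∩ ↑(RE (A - 1) (B + 1) 0 (D + 1))) (A - 1 + (n : ℤ), D)
      (A - 1, D) := by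
  induction n with
  | zero => simpa using DReach.refl _ _
  | succ n ih =>
    push_cast at hn
    refine DReach.trans (DAdj.reach ⟨(A + (n : ℤ), D, false), ⟨?_, ?_⟩,
      Or.inr ⟨?_, ?_⟩⟩) (ih (by omega))
    · rintro ⟨-, h⟩
      have := mem_RE_false.1 (Finset.mem_coe.1 h)
      omega
    · rw [Finset.mem_coe, mem_RE_false]
      omega
    · simp only [dsrc_false, Prod.mk.injEq, and_true]; ring
    · simp only [dtgt_mk, Prod.mk.injEq, and_true]; push_cast; ring

/-- a closed dual path which starts below an open path does not leave the box -/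
theorem dl_outer {A B D j v0 : ℤ} {F : Set Edg} (hA : A ≤ v0) (hvj : v0 < j) (hjB : j ≤ B)
    (hD : 0 ≤ D) (hop : Reach (F ∩ ↑(RE A B 0 D)) (j, 0) (v0, 0)) (x y : ℤ) (hy : 0 ≤ y)
    (h : DReach (Fᶜ ∩ ↑(RE A B 0 D)) (j - 1, -1) (x, y)) : A ≤ x ∧ x < B ∧ y < D := by
  -- the place of the face
  have hpos : (A ≤ x ∧ x < B ∧ y ≤ D) ∨ (A - 1 ≤ x ∧ x ≤ B ∧ y < D) := by
    rcases Relation.ReflTransGen.cases_tail h with h1 | ⟨w, -, h1⟩
    · simp only [Prod.mk.injEq] at h1
      omega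
    · obtain ⟨⟨p, q, _ | _⟩, ⟨-, he⟩, hc⟩ := h1
      · have hm := mem_RE_false.1 (Finset.mem_coe.1 he)
        simp only [dsrc_false, dtgt_mk] at hc
        rcases hc with ⟨-, h2⟩ | ⟨h2, -⟩
        · simp only [Prod.mk.injEq] at h2; omega
        · simp only [Prod.mk.injEq] at h2; omega
      · have hm := mem_RE_true.1 (Finset.mem_coe.1 he)
        simp only [dsrc_true, dtgt_mk] at hc
        rcases hc with ⟨-, h2⟩ | ⟨h2, -⟩
        · simp only [Prod.mk.injEq] at h2; omega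
        · simp only [Prod.mk.injEq] at h2; omega
  by_contra hcon
  set F' : Set Edg := F ∩ ↑(RE A B 0 D) with hF'
  have hAB : A ≤ B := by omega
  have hop' : Reach (F' ∩ ↑(RE (A - 1) (B + 1) 0 (D + 1))) (j, 0) (v0, 0) := by
    refine hop.mono ?_
    intro e he
    refine ⟨he, ?_⟩
    obtain ⟨p, q, _ | _⟩ := e
    · have hm := mem_RE_false.1 (Finset.mem_coe.1 he.2)
      rw [Finset.mem_coe, mem_RE_false]; omega
    · have hm := mem_RE_true.1 (Finset.mem_coe.1 he.2)
      rw [Finset.mem_coe, mem_RE_true]; omega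
  have h' : DReach (F'ᶜ ∩ ↑(RE (A - 1) (B + 1) 0 (D + 1))) (j - 1, -1) (x, y) := by
    refine h.mono ?_
    intro e he
    refine ⟨fun h1 => he.1 h1.1, ?_⟩
    obtain ⟨p, q, _ | _⟩ := e
    · have hm := mem_RE_false.1 (Finset.mem_coe.1 he.2)
      rw [Finset.mem_coe, mem_RE_false]; omega
    · have hm := mem_RE_true.1 (Finset.mem_coe.1 he.2)
      rw [Finset.mem_coe, mem_RE_true]; omega
  have hleft : DReach (F'ᶜ ∩ ↑(RE (A - 1) (B + 1) 0 (D + 1))) (j - 1, -1) (A - 1, -1) → False := by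
    intro h2
    exact no_half (p := A - 1) (q := j - 1) (u := v0) (v := j) (by omega) (by omega) h2.symm
      hop'.symm
  have hright : DReach (F'ᶜ ∩ ↑(RE (A - 1) (B + 1) 0 (D + 1))) (j - 1, -1) (B, -1) → False := by
    intro h2
    exact no_half (p := j - 1) (q := B) (u := j) (v := v0) (by omega) (by omega) h2 hop'
  rcases lt_trichotomy y D with hyD | hyD | hyD
  · have hx : x = A - 1 ∨ x = B := by omega
    obtain ⟨n, hn⟩ := Int.eq_ofNat_of_zero_le hy
    rcases hx with hx | hx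
    · apply hleft
      refine h'.trans ?_
      rw [hx, hn]
      exact dl_left n hAB (by omega)
    · apply hright
      refine h'.trans ?_
      rw [hx, hn]
      exact dl_right n hAB (by omega)
  · apply hleft
    refine h'.trans ?_
    obtain ⟨n, hn⟩ := Int.eq_ofNat_of_zero_le (show 0 ≤ x - (A - 1) by omega)
    obtain ⟨n', hn'⟩ := Int.eq_ofNat_of_zero_le hD
    have e1 : x = A - 1 + (n : ℤ) := by omega
    rw [e1, hyD]
    refine (dl_top n hD (by omega)).trans ?_
    have := dl_left (A := A) (B := B) (D := D) (F := F) n' hAB (by omega)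
    rw [← hn'] at this
    exact this
  · omega

theorem b2_xor (P Q : Prop) : b2 (¬ (P ↔ Q)) = b2 P + b2 Q := by
  by_cases hP : P <;> by_cases hQ : Q
  · rw [b2_not_of (by simp [hP, hQ]), b2_of hP, b2_of hQ]; rfl
  · rw [b2_of (by simp [hP, hQ]), b2_of hP, b2_not_of hQ]; rfl
  · rw [b2_of (by simp [hP, hQ]), b2_not_of hP, b2_of hQ]; rfl
  · rw [b2_not_of (by simp [hP, hQ]), b2_not_of hP, b2_not_of hQ]; rfl

theorem t_dl : S_DL := by
  intro A B D f s j v0 F hAf hfs hsj hjB hD hAv hvf hop hno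
  rcases eq_or_lt_of_le hsj with rfl | hsj'
  · exact ⟨s - 1, by omega, le_rfl, DReach.refl _ _⟩
  by_contra hcon
  push Not at hcon
  set W : Vtx → Prop := fun w => ∃ v, (A ≤ v ∧ v ≤ f) ∧
    Reach ((↑F : Set Edg) ∩ ↑(RE A B 0 D)) (v, 0) w with hW
  have hWcl : ∀ e : Edg, e ∈ (↑F : Set Edg) → e ∈ (↑(RE A B 0 D) : Set Edg) →
      (W (src e) ↔ W (tgt e)) := by
    intro e h1 h2
    constructor
    · rintro ⟨v, h3, h4⟩
      exact ⟨v, h3, h4.trans (Adj.reach ⟨e, ⟨h1, h2⟩, Or.inl ⟨rfl, rfl⟩⟩)⟩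
    · rintro ⟨v, h3, h4⟩
      exact ⟨v, h3, h4.trans (Adj.reach ⟨e, ⟨h1, h2⟩, Or.inr ⟨rfl, rfl⟩⟩)⟩
  have hWL : ∀ v : ℤ, A ≤ v → v ≤ f → W (v, 0) := fun v h1 h2 => ⟨v, ⟨h1, h2⟩, Reach.refl _ _⟩
  have hWj : W (j, 0) := ⟨v0, ⟨hAv, hvf⟩, hop.symm⟩
  have hWn : ∀ u : ℤ, s ≤ u → u ≤ j - 1 → ¬ W (u, 0) := by
    rintro u h1 h2 ⟨v, h3, h4⟩
    exact hno u v h1 h2 h3.1 h3.2 h4.symm
  set G : Set Edg := bdry W ∩ ↑(RE A B 0 D) with hG
  have hGF : G ⊆ (↑F : Set Edg)ᶜ ∩ ↑(RE A B 0 D) := by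
    rintro e ⟨h1, h2⟩
    exact ⟨fun h3 => h1 (hWcl e h3 h2), h2⟩
  set Dd : Vtx → Prop := fun w => DReach G (j - 1, -1) w with hDd
  have hDcl : ∀ e ∈ G, (Dd (dsrc e) ↔ Dd (dtgt e)) := by
    intro e he
    constructor
    · intro h1
      exact h1.trans (DAdj.reach ⟨e, he, Or.inl ⟨rfl, rfl⟩⟩)
    · intro h1
      exact h1.trans (DAdj.reach ⟨e, he, Or.inr ⟨rfl, rfl⟩⟩)
  set z : Edg → ZMod 2 := fun e => b2 (e ∈ G ∧ Dd (dtgt e)) with hz
  have hzS : ∀ e, e ∈ (↑(RE A B 0 D) : Set Edg) → Dd (dsrc e) →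
      z e = b2 (W (src e)) + b2 (W (tgt e)) := by
    intro e h1 h2
    rw [← b2_xor]
    simp only [hz]
    refine b2_congr ⟨fun h3 => h3.1.1, fun h3 => ?_⟩
    have h4 : e ∈ G := ⟨h3, h1⟩
    exact ⟨h4, (hDcl e h4).1 h2⟩
  have hzT : ∀ e, e ∈ (↑(RE A B 0 D) : Set Edg) → Dd (dtgt e) →
      z e = b2 (W (src e)) + b2 (W (tgt e)) := by
    intro e h1 h2
    rw [← b2_xor]
    simp only [hz]
    exact b2_congr ⟨fun h3 => h3.1.1, fun h3 => ⟨⟨h3, h1⟩, h2⟩⟩
  have hz0S : ∀ e, ¬ Dd (dsrc e) → z e = 0 := by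
    intro e h1
    simp only [hz]
    rw [b2_not_of]
    rintro ⟨h2, h3⟩
    exact h1 ((hDcl e h2).2 h3)
  have hz0T : ∀ e, ¬ Dd (dtgt e) → z e = 0 := by
    intro e h1
    simp only [hz]
    rw [b2_not_of]
    rintro ⟨-, h3⟩
    exact h1 h3
  have hcyc : ∀ x y, 0 ≤ y → bd z x y = 0 := by
    intro x y hy
    unfold bd
    by_cases hd : Dd (x, y)
    · have hin := dl_outer hAv (by omega) hjB hD hop x y hy (DReach.mono hGF hd)
      have e1 := hzT (x, y, true) (by rw [Finset.mem_coe, mem_RE_true]; omega) hd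
      have e2 := hzS (x, y + 1, true) (by rw [Finset.mem_coe, mem_RE_true]; omega)
        (by simpa using hd)
      have e3 := hzT (x, y, false) (by rw [Finset.mem_coe, mem_RE_false]; omega) hd
      have e4 := hzS (x + 1, y, false) (by rw [Finset.mem_coe, mem_RE_false]; omega)
        (by simpa using hd)
      rw [e1, e2, e3, e4]
      simp only [src_mk, tgt_true, tgt_false]
      have f1 := zmod2_add_self (b2 (W (x, y)))
      have f2 := zmod2_add_self (b2 (W (x + 1, y)))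
      have f3 := zmod2_add_self (b2 (W (x, y + 1)))
      have f4 := zmod2_add_self (b2 (W (x + 1, y + 1)))
      linear_combination f1 + f2 + f3 + f4
    · rw [hz0T (x, y, true) hd, hz0S (x, y + 1, true) (by simpa using hd),
        hz0T (x, y, false) hd, hz0S (x + 1, y, false) (by simpa using hd)]
      simp
  have hZout : ∀ e, e ∉ RE A B 0 D → z e = 0 := by
    intro e he
    simp only [hz]
    rw [b2_not_of]
    rintro ⟨h2, -⟩
    exact he (Finset.mem_coe.1 h2.2)
  have hZF : ∀ e, e ∈ (↑F : Set Edg) → z e = 0 := by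
    intro e he
    simp only [hz]
    rw [b2_not_of]
    rintro ⟨h2, -⟩
    exact (hGF h2).1 he
  set σ : ℤ → ℤ → ZMod 2 := fun x y => ∑ i ∈ Finset.Ico A x, z (i, y, true) with hσ
  have sH : ∀ x y, A ≤ x → σ (x + 1) y = σ x y + z (x, y, true) := by
    intro x y hx
    simp only [hσ]
    rw [sum_Ico_int_succ hx]
  have sV : ∀ (n : ℕ) (y : ℤ), 0 ≤ y →
      σ (A + n) (y + 1) + σ (A + n) y = z (A + n, y, false) := by
    intro n y hc
    induction n with
    | zero =>
      have : z (A + ((0:ℕ):ℤ), y, false) = 0 := by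
        have h3 := hcyc (A - 1) y hc
        unfold bd at h3
        rw [hZout (A - 1, y, true) (by simp), hZout (A - 1, y + 1, true) (by simp),
          hZout (A - 1, y, false) (by simp)] at h3
        have e1 : A - 1 + 1 = A + ((0:ℕ):ℤ) := by push_cast; ring
        rw [e1] at h3
        simpa using h3
      rw [this]
      simp [hσ]
    | succ n ih =>
      have e1 : A + ((n + 1 : ℕ) : ℤ) = (A + n) + 1 := by push_cast; ring
      rw [e1, sH _ _ (by omega), sH _ _ (by omega)]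
      have h3 := hcyc (A + n) y hc
      unfold bd at h3
      have h4 := zmod2_add_self (z (A + n, y, false))
      have h5 := zmod2_add_self (z (A + n + 1, y, false))
      linear_combination ih + h3 - h5
  have sV' : ∀ x y, A ≤ x → 0 ≤ y → σ x (y + 1) = σ x y + z (x, y, false) := by
    intro x y hx hc
    obtain ⟨n, hn⟩ := Int.eq_ofNat_of_zero_le (sub_nonneg.mpr hx)
    have e1 : x = A + n := by omega
    have h3 := sV n y hc
    rw [← e1] at h3
    have h4 := zmod2_add_self (σ x y)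
    linear_combination h3 - h4
  have hpath : ∀ w : Vtx, Reach ((↑F : Set Edg) ∩ ↑(RE A B 0 D)) (j, 0) w →
      σ w.1 w.2 = σ j 0 := by
    intro w hw
    induction hw with
    | refl => rfl
    | @tail w' w'' _ hstep ih =>
      obtain ⟨⟨x0, y0, bo⟩, ⟨heF, heR⟩, hcase⟩ := hstep
      have hZe := hZF _ heF
      cases bo
      · have hm : A ≤ x0 ∧ x0 ≤ B ∧ 0 ≤ y0 ∧ y0 < D := by simpa using heR
        have h3 := sV' x0 y0 hm.1 hm.2.2.1
        rw [hZe, add_zero] at h3
        simp only [src_mk, tgt_false] at hcase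
        rcases hcase with ⟨h4, h5⟩ | ⟨h4, h5⟩
        · rw [← h4] at ih; rw [← h5]; simpa [h3] using ih
        · rw [← h5] at ih; rw [← h4]; simpa [h3] using ih
      · have hm : A ≤ x0 ∧ x0 < B ∧ 0 ≤ y0 ∧ y0 ≤ D := by simpa using heR
        have h3 := sH x0 y0 hm.1
        rw [hZe, add_zero] at h3
        simp only [src_mk, tgt_true] at hcase
        rcases hcase with ⟨h4, h5⟩ | ⟨h4, h5⟩
        · rw [← h4] at ih; rw [← h5]; simpa [h3] using ih
        · rw [← h5] at ih; rw [← h4]; simpa [h3] using ih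
  have hend := hpath _ hop
  simp only at hend
  -- the bottom row
  have hrow : ∀ i, v0 ≤ i → i < j - 1 → z (i, 0, true) = 0 := by
    intro i h1 h2
    simp only [hz]
    rw [b2_not_of]
    rintro ⟨h3, h4⟩
    have h5 : Dd (i, 0) := h4
    have h6 : Dd (i, -1) := by
      have := (hDcl _ h3).2 h5
      simpa using this
    have h7 := h3.1
    simp only [bdry, Set.mem_ofPred_eq, src_mk, tgt_true] at h7
    rcases lt_or_ge i f with h8 | h8
    · exact h7 ⟨fun _ => hWL _ (by omega) (by omega), fun _ => hWL _ (by omega) (by omega)⟩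
    · rcases lt_or_ge i s with h9 | h9
      · exact hcon i h8 (by omega) (DReach.mono hGF h6).symm
      · exact h7 ⟨fun h => absurd h (hWn _ h9 (by omega)),
          fun h => absurd h (hWn _ (by omega) (by omega))⟩
  have hlast : z (j - 1, 0, true) = 1 := by
    have hm : ((j - 1, 0, true) : Edg) ∈ G := by
      refine ⟨?_, ?_⟩
      · simp only [bdry, Set.mem_ofPred_eq, src_mk, tgt_true, sub_add_cancel]
        intro h
        exact hWn (j - 1) (by omega) le_rfl (h.2 hWj)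
      · rw [Finset.mem_coe, mem_RE_true]; omega
    simp only [hz]
    rw [b2_of]
    refine ⟨hm, (hDcl _ hm).1 ?_⟩
    have : dsrc ((j - 1, 0, true) : Edg) = (j - 1, -1) := by simp
    rw [this]
    exact DReach.refl _ _
  have hconst : ∀ n : ℕ, v0 + n ≤ j - 1 → σ (v0 + n) 0 = σ v0 0 := by
    intro n
    induction n with
    | zero => intro _; simp
    | succ n ih =>
      intro hn
      push_cast at hn ⊢
      rw [← add_assoc, sH _ _ (by omega), ih (by omega), hrow _ (by omega) (by omega), add_zero]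
  obtain ⟨n, hn⟩ := Int.eq_ofNat_of_zero_le (show 0 ≤ j - 1 - v0 by omega)
  have h8 := hconst n (by omega)
  have e1 : v0 + (n : ℤ) = j - 1 := by omega
  rw [e1] at h8
  have h9 := sH (j - 1) 0 (by omega)
  rw [sub_add_cancel, hlast, h8, ← hend] at h9
  have h10 : σ v0 0 = σ v0 0 + 1 := by
    rw [hend] at h9 ⊢
    exact h9
  have : (1 : ZMod 2) = 0 := by linear_combination -h10
  exact one_ne_zero this

end H985LC
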