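import Pool.Agent.H985R6.LC.Defs
import Pool.Agent.H974R2.Sym

set_option autoImplicit false

namespace H985LC

open H974 Finset H731C

theorem t_dr : S_DR := by
  intro A B D p q H g F hg hpq hH hA hB hD h
  obtain ⟨j, x, hj, hx, h3⟩ := h
  refine ⟨x, j, hx, hj, ?_⟩
  have h4 : Reach (dl '' (↑(RE (p - g) (q + g + 1) 0 (H + g) \ F) : Set Edg)) (j, -1) (x, -1) := by
    rw [← coe_dmp]
    exact h3.mono Set.inter_subset_left
  rw [reach_dl] at h4
  refine (h4.mono ?_).symm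
  intro e he
  rw [Finset.mem_coe, Finset.mem_sdiff] at he
  refine ⟨fun h => he.2 (Finset.mem_coe.mp h), Finset.mem_coe.mpr ?_⟩
  obtain ⟨he1, -⟩ := he
  obtain ⟨a, b, _ | _⟩ := e
  · rw [mem_RE_false] at he1 ⊢
    omega
  · rw [mem_RE_true] at he1 ⊢
    omega

end H985LC
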