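import Pool.Agent.H985R6.LC.Defs
import Pool.Agent.H731R3.Cardy.Compl

/-!
Task DT: dual ring crossings, probability.
-/

set_option autoImplicit false

namespace H985LC

open H974 Finset H731C

theorem t_dt (htu : S_TU) : S_DT := by
  intro κ hκ
  obtain ⟨c, hc, h⟩ := htu κ hκ
  refine ⟨c, hc, ?_⟩
  intro A B D p q H g hg hpq hH hk hA hB hD
  have hsub : RE (p - g) (q + g + 1) 0 (H + g) ⊆ RE A B 0 D := by
    rintro ⟨x, y, _ | _⟩ he
    · rw [mem_RE_false] at he ⊢
      omega
    · rw [mem_RE_true] at he ⊢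
      omega
  have hV : VE (p - g) (q + g) (-1) (-1 + H + g) ⊆
      dmp (RE (p - g) (q + g + 1) 0 (H + g)) := by
    rintro ⟨x, y, _ | _⟩ he
    · rw [mem_VE_false] at he
      rw [mem_dmp, dls_f, mem_RE_true]
      omega
    · rw [mem_VE_true] at he
      rw [mem_dmp, dls_t, mem_RE_false]
      omega
  have key := h (-1) p q H g hg hpq hH hk (dmp (RE (p - g) (q + g + 1) 0 (H + g))) hV
  rw [← P2_dual] at key
  have e := P2_restrict hsub
    (fun F => TU (-1) p q H g (dmp (RE (p - g) (q + g + 1) 0 (H + g) \ F)))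
  have e2 : (fun F : Finset Edg =>
      (fun F => TU (-1) p q H g (dmp (RE (p - g) (q + g + 1) 0 (H + g) \ F)))
        (F ∩ RE (p - g) (q + g + 1) 0 (H + g))) =
      fun F => TU (-1) p q H g (dmp (RE (p - g) (q + g + 1) 0 (H + g) \ F)) := by
    funext F
    have : RE (p - g) (q + g + 1) 0 (H + g) \ (F ∩ RE (p - g) (q + g + 1) 0 (H + g)) =
        RE (p - g) (q + g + 1) 0 (H + g) \ F := by
      ext x
      simp only [Finset.mem_sdiff, Finset.mem_inter]
      tauto
    simp only [this]
  rw [e2] at e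
  rw [e]
  exact key

end H985LC
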