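import Pool.Agent.H985R6.LC.Defs

/-! Task EN: enlarging the box. -/

set_option autoImplicit false

namespace H985LC

open H974 Finset H731C

theorem EN_sub {a b c d a' b' c' d' : ℤ} (h1 : a' ≤ a) (h2 : b ≤ b') (h3 : c' ≤ c)
    (h4 : d ≤ d') : RE a b c d ⊆ RE a' b' c' d' := by
  rintro ⟨x, y, _ | _⟩ h
  · rw [mem_RE_false] at h ⊢
    omega
  · rw [mem_RE_true] at h ⊢
    omega

theorem t_en : S_EN := by
  intro A B D w1 w2 w3 x1 y1 y2 j A' B' D' w1' w2' w3' x1' y1' y2' hA hB hD hw hx hy1 hy2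
  have hS : RE A B 0 D ⊆ RE A' B' 0 D' := EN_sub hA hB le_rfl hD
  rw [← P2_restrict hS (TJ A B D w1 w2 w3 x1 y1 y2 j)]
  apply Pr_mono okhalf2
  intro F _ hF
  obtain ⟨⟨x, hx0, hx2, hr⟩, ⟨y, hy0, hy3, hd⟩⟩ := hF
  refine ⟨⟨x, by omega, by omega, hr.mono ?_⟩, ⟨y, by omega, by omega, hd.mono ?_⟩⟩
  · intro e he
    obtain ⟨h1, h2⟩ := he
    have h1' := Finset.mem_coe.1 h1
    have h2' := Finset.mem_coe.1 h2
    rw [Finset.mem_inter] at h1'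
    rw [Finset.mem_sdiff] at h2'
    refine ⟨Finset.mem_coe.2 h1'.1, Finset.mem_coe.2 ?_⟩
    rw [Finset.mem_sdiff]
    exact ⟨hS h2'.1, fun h => h2'.2 (hw h)⟩
  · intro e he
    obtain ⟨h1, h2⟩ := he
    have h2' := Finset.mem_coe.1 h2
    refine ⟨fun h3 => h1 ?_, Finset.mem_coe.2 (hS h2')⟩
    exact Finset.mem_coe.2 (Finset.mem_inter.2 ⟨Finset.mem_coe.1 h3, h2'⟩)

end H985LC
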