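import Pool.Agent.H985R6.LC.Defs

/-! Task FD (helper487): the event as a difference. -/

set_option autoImplicit false

namespace H985LC

open H974 Finset H731C

theorem t_fd : S_FD := by
  intro M N k _
  have hsub : ∀ F : Finset Edg, CN (-M) (-N) 0 (k - 1) (-M) M 0 M F →
      CN (-M) (-N) 0 k (-M) M 0 M F := by
    rintro F ⟨x, y, h1, ⟨h2, h3⟩, h4⟩
    exact ⟨x, y, h1, ⟨h2, by omega⟩, h4⟩
  have h1 : P2 (BX M) (CN (-M) (-N) 0 k (-M) M 0 M) =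
      P2 (BX M) (fun F => CN (-M) (-N) 0 k (-M) M 0 M F ∧ CN (-M) (-N) 0 (k - 1) (-M) M 0 M F) +
      P2 (BX M) (fun F => CN (-M) (-N) 0 k (-M) M 0 M F ∧
        ¬ CN (-M) (-N) 0 (k - 1) (-M) M 0 M F) := by
    unfold P2 Pr
    rw [← Ex_add]
    apply Ex_congr
    intro F _
    rw [ind_and, ind_and, ind_not]
    ring
  have h2 : P2 (BX M)
      (fun F => CN (-M) (-N) 0 k (-M) M 0 M F ∧ CN (-M) (-N) 0 (k - 1) (-M) M 0 M F) =
      P2 (BX M) (CN (-M) (-N) 0 (k - 1) (-M) M 0 M) :=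
    Pr_congr fun F _ => ⟨fun h => h.2, fun h => ⟨hsub F h, h⟩⟩
  have h3 : P2 (BX M) (FH M N k) = P2 (BX M) (fun F => CN (-M) (-N) 0 k (-M) M 0 M F ∧
        ¬ CN (-M) (-N) 0 (k - 1) (-M) M 0 M F) := rfl
  rw [h3]
  linarith

end H985LC
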