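import Pool.Agent.H985R6.LC.Defs
import Pool.Agent.H731R3.Cardy.HalfBox

/-!
Task FT: the event implies the two-arm event.
-/

set_option autoImplicit false

namespace H985LC

open H974 Finset H731C

/-- the open arm -/
theorem ft_arm {M k r x : ℤ} {F : Finset Edg} (hr : 1 ≤ r) (hrk : r ≤ k) (hM : 2 * k + 1 ≤ M)
    (hx : x ≤ -1) (h : Reach ((↑F : Set Edg) ∩ ↑(RE (-M) M 0 M)) (k, 0) (x, 0)) :
    AR k 0 r F := by
  obtain ⟨w, hw1, hw2, hw3⟩ := first_exit (a := k - r) (b := k + r) (c := -1) (d := r)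
    (u := (k, 0)) ⟨⟨by simp only; omega, by simp only; omega⟩, by simp only; omega,
      by simp only; omega⟩ h (by simp only; omega)
  have hw4 : inR (-M) M 0 M w := by
    refine reach_inR (G := (↑F : Set Edg)) (u := (k, 0))
      ⟨⟨by simp only; omega, by simp only; omega⟩, by simp only; omega, by simp only; omega⟩
      (hw3.mono Set.inter_subset_left)
  have hlow := hw4.2.1
  refine ⟨w, ?_, hw3.mono ?_⟩
  · unfold onH
    omega
  · rintro ⟨p, q, _ | _⟩ ⟨⟨h1, h2⟩, h3⟩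
    · refine ⟨h1, ?_⟩
      rw [mem_coe, mem_RE_false] at h2 h3 ⊢
      omega
    · refine ⟨h1, ?_⟩
      rw [mem_coe, mem_RE_true] at h2 h3 ⊢
      omega

/-- the dual arm -/
theorem ft_dual {M k r y : ℤ} {F : Finset Edg} (hr : 1 ≤ r) (hrk : r ≤ k)
    (hy : y ≤ -1) (h : DReach ((↑F : Set Edg)ᶜ ∩ ↑(RE (-M) M 0 M)) (y, -1) (k - 1, -1)) :
    AR (k - 1) (-1) r (dmp (RE (k - 1 - r) (k + r) 0 r \ F)) := by
  have h1 : Reach (dl '' ((↑F : Set Edg)ᶜ ∩ ↑(RE (-M) M 0 M))) (k - 1, -1) (y, -1) :=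
    reach_dl.mpr h.symm
  obtain ⟨w, hw1, hw2, hw3⟩ := first_exit (a := k - 1 - r) (b := k - 1 + r) (c := -2)
    (d := -1 + r) (u := (k - 1, -1)) ⟨⟨by simp only; omega, by simp only; omega⟩,
      by simp only; omega, by simp only; omega⟩ h1 (by simp only; omega)
  have hlow : -1 ≤ w.2 := by
    have key : ∀ w, Reach (dl '' ((↑F : Set Edg)ᶜ ∩ ↑(RE (-M) M 0 M)) ∩
        ↑(RE (k - 1 - r) (k - 1 + r) (-2) (-1 + r))) (k - 1, -1) w → -1 ≤ w.2 := by
      intro w hw
      induction hw with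
      | refl => simp
      | tail _ hs _ =>
        obtain ⟨e, ⟨⟨⟨p, q, _ | _⟩, he, rfl⟩, -⟩, hc⟩ := hs
        · have hm := he.2
          rw [mem_coe, mem_RE_false] at hm
          simp only [dl_f, src_mk, tgt_true] at hc
          rcases hc with ⟨-, h4⟩ | ⟨h4, -⟩
          · rw [← h4]; simp only; omega
          · rw [← h4]; simp only; omega
        · have hm := he.2
          rw [mem_coe, mem_RE_true] at hm
          simp only [dl_t, src_mk, tgt_false] at hc
          rcases hc with ⟨-, h4⟩ | ⟨h4, -⟩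
          · rw [← h4]; simp only; omega
          · rw [← h4]; simp only; omega
    exact key w hw3
  refine ⟨w, ?_, hw3.mono ?_⟩
  · unfold onH
    omega
  · rintro _ ⟨⟨e, he, rfl⟩, he2⟩
    obtain ⟨p, q, _ | _⟩ := e
    · have hm := he.2
      rw [mem_coe, mem_RE_false] at hm
      rw [mem_coe, dl_f, mem_RE_true] at he2
      refine ⟨?_, ?_⟩
      · rw [coe_dmp]
        refine Set.mem_image_of_mem _ ?_
        rw [mem_coe, Finset.mem_sdiff]
        refine ⟨by rw [mem_RE_false]; omega, fun hF => he.1 (mem_coe.mpr hF)⟩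
      · rw [mem_coe, dl_f, mem_RE_true]
        omega
    · have hm := he.2
      rw [mem_coe, mem_RE_true] at hm
      rw [mem_coe, dl_t, mem_RE_false] at he2
      refine ⟨?_, ?_⟩
      · rw [coe_dmp]
        refine Set.mem_image_of_mem _ ?_
        rw [mem_coe, Finset.mem_sdiff]
        refine ⟨by rw [mem_RE_true]; omega, fun hF => he.1 (mem_coe.mpr hF)⟩
      · rw [mem_coe, dl_t, mem_RE_false]
        omega

theorem t_ft (hdl : S_DL) : S_FT := by
  rintro M N k r F hN hr hrk hM hNM ⟨⟨x, y, ⟨hx1, hx2⟩, ⟨hy1, hy2⟩, hxy⟩, hno⟩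
  have hyk : y = k := by
    by_contra hne
    exact hno ⟨x, y, ⟨hx1, hx2⟩, ⟨hy1, by omega⟩, hxy⟩
  subst hyk
  refine ⟨ft_arm hr hrk hM (by omega) hxy.symm, ?_⟩
  obtain ⟨z, -, hz, hd⟩ := hdl (-M) M M (-N) 0 y x F (by omega) (by omega) (by omega) (by omega)
    (by omega) hx1 hx2 hxy.symm (by
      intro u v hu1 hu2 hv1 hv2 huv
      exact hno ⟨v, u, ⟨hv1, hv2⟩, ⟨hu1, hu2⟩, huv.symm⟩)
  exact ft_dual hr hrk (by omega) hd

end H985LC
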