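import Pool.Agent.H985R6.LC.Aux278

/-! Task GL. -/

set_option autoImplicit false

namespace H985LC

open H974 Finset H731C

theorem t_gl : S_GL := by
  intro M N k w m R x1 y1 y2 F hk hkM hN hNR hx1 hy1 hy2 hm hmR hRk hRw hTJ hHA hCN
  obtain ⟨⟨x, hx, hxx, hr⟩, y, hyl, hyu, hd⟩ := hTJ
  have hr' := AX.ext_box hr
  refine ⟨⟨x, k, ⟨hx, by omega⟩, ⟨by omega, le_rfl⟩, hr'.symm⟩, ?_⟩
  rintro ⟨v, u, ⟨hv1, hv2⟩, ⟨hu1, hu2⟩, hvu⟩
  by_cases hfar : v ≤ -m ∧ m ≤ u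
  · exact no_half (u := u) (v := v) ⟨by omega, by omega⟩ (Or.inl (by omega)) hd hvu.symm
  -- one end in the half-box of radius m
  have key : ∀ (s t : ℤ), -m ≤ s → s ≤ m → Reach ((↑F : Set Edg) ∩ ↑(RE (-M) M 0 M)) (s, 0) (t, 0) →
      Reach ((↑F : Set Edg) ∩ ↑(RE (-R) R 0 R)) (s, 0) (t, 0) ∧ -R < t ∧ t < R := by
    intro s t hs1 hs2 hst
    have hin : inR (-R) R 0 R ((s, 0) : Vtx) := ⟨⟨by simp only; omega, by simp only; omega⟩,
      by simp only; omega, by simp only; omega⟩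
    rcases AX.exit_or_in hin hst with ⟨z, hz, hrz⟩ | ⟨h1, h2, _⟩
    · exfalso
      apply hHA
      refine ⟨(s, 0), z, ?_, hz, ?_⟩
      · exact ⟨⟨by simp only; omega, by simp only; omega⟩, by simp only; omega,
          by simp only; omega⟩
      · simpa using hrz
    · exact ⟨h1, h2⟩
  apply hCN
  by_cases hu : u < m
  · obtain ⟨h1, h2, h3⟩ := key u v (by omega) (by omega) hvu.symm
    exact ⟨v, u, ⟨by omega, hv2⟩, ⟨hu1, by omega⟩, h1.symm⟩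
  · obtain ⟨h1, h2, h3⟩ := key v u (by omega) (by omega) hvu
    exact ⟨v, u, ⟨by omega, hv2⟩, ⟨hu1, by omega⟩, h1⟩

end H985LC
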