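import Pool.Agent.H985R6.LC.Defs
import Pool.Agent.H731R3.Cardy.Compl
import Pool.Agent.H974R2.Block

/-!
Task KY: the local decreasing events.
-/

set_option autoImplicit false

namespace H985LC

open H974 Finset H731C

theorem t_ky : S_KY := by
  intro L hL hHA
  obtain ⟨c, hc, hX⟩ := CN_compl_lower_left
  have hL0 : (0 : ℝ) < L := by
    have : (8 : ℝ) ≤ L := by exact_mod_cast hL
    linarith
  refine ⟨1 / 2 * (c * (1 / (2 * (L : ℝ))) ^ ((1 : ℝ) / 3)), by positivity, ?_⟩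
  intro m N hm hN hNm
  have hLm : 8 * m ≤ L * m := mul_le_mul_of_nonneg_right hL (by omega)
  have hm0 : (0 : ℝ) < m := by
    have : (1 : ℝ) ≤ m := by exact_mod_cast hm
    linarith
  have hN0 : (0 : ℝ) < N := by
    have : (1 : ℝ) ≤ N := by exact_mod_cast hN
    linarith
  obtain ⟨N0, hN0'⟩ := hX (-(L * m)) (-N) 0 (L * m) (by omega) (by omega) (by omega)
  have h1 := hN0' (max N0 (L * m)) (le_max_left _ _)
  set K : ℤ := max N0 (L * m) with hK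
  have hKL : L * m ≤ K := le_max_right _ _
  -- the small box
  have hsub : BX (L * m) ⊆ RE (-K) K 0 K := RE_subset (by omega) (by omega) le_rfl (by omega)
  have h2 : P2 (BX (L * m)) (CN (-(L * m)) (-N) 0 (L * m) (-(L * m)) (L * m) 0 (L * m)) ≤
      P2 (RE (-K) K 0 K) (CN (-(L * m)) (-N) 0 (L * m) (-K) K 0 K) := by
    refine (Pr_mono_set okhalf2 hsub (CN_incr _ _ _ _ _ _ _ _ _)).trans ?_
    refine Pr_mono okhalf2 fun F _ hF => ?_
    obtain ⟨x, y, hx, hy, hr⟩ := hF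
    refine ⟨x, y, hx, hy, hr.mono (Set.inter_subset_inter_right _ ?_)⟩
    exact_mod_cast hsub
  have h3 : P2 (RE (-K) K 0 K) (fun F => ¬ CN (-(L * m)) (-N) 0 (L * m) (-K) K 0 K F) =
      1 - P2 (RE (-K) K 0 K) (CN (-(L * m)) (-N) 0 (L * m) (-K) K 0 K) := Pr_not _ _
  rw [h3] at h1
  have h4 := Pr_harris_dd okhalf2 (HA_incr (BX (L * m)) 0 0 m (L * m))
    (CN_incr (BX (L * m)) (-(L * m)) (-N) 0 (L * m) (-(L * m)) (L * m) 0 (L * m))
  have h5 := hHA m hm (BX (L * m)) Subset.rfl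
  refine le_trans ?_ h4
  -- the power
  have e1 : (((0 - -N : ℤ) : ℝ) / ((-N - -(L * m) + 1 + (0 - -N) : ℤ) : ℝ)) =
      (N : ℝ) / ((L : ℝ) * m + 1) := by
    push_cast
    congr 1 <;> ring
  rw [e1] at h1
  have hLm1 : (1 : ℝ) ≤ (L : ℝ) * m := by
    have : (1 : ℤ) ≤ L * m := by omega
    exact_mod_cast this
  have h6 : 1 / (2 * (L : ℝ)) * ((N : ℝ) / m) ≤ (N : ℝ) / ((L : ℝ) * m + 1) := by
    rw [div_mul_div_comm, one_mul]
    refine div_le_div_of_nonneg_left hN0.le (by positivity) ?_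
    linarith
  have h7 : (1 / (2 * (L : ℝ))) ^ ((1 : ℝ) / 3) * ((N : ℝ) / m) ^ ((1 : ℝ) / 3) ≤
      ((N : ℝ) / ((L : ℝ) * m + 1)) ^ ((1 : ℝ) / 3) := by
    rw [← Real.mul_rpow (by positivity) (by positivity)]
    exact Real.rpow_le_rpow (by positivity) h6 (by norm_num)
  have h8 : c * ((1 / (2 * (L : ℝ))) ^ ((1 : ℝ) / 3) * ((N : ℝ) / m) ^ ((1 : ℝ) / 3)) ≤
      1 - P2 (BX (L * m)) (CN (-(L * m)) (-N) 0 (L * m) (-(L * m)) (L * m) 0 (L * m)) := by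
    have h9 := mul_le_mul_of_nonneg_left h7 hc.le
    linarith
  calc 1 / 2 * (c * (1 / (2 * (L : ℝ))) ^ ((1 : ℝ) / 3)) * ((N : ℝ) / m) ^ ((1 : ℝ) / 3)
      = 1 / 2 * (c * ((1 / (2 * (L : ℝ))) ^ ((1 : ℝ) / 3) * ((N : ℝ) / m) ^ ((1 : ℝ) / 3))) := by
        ring
    _ ≤ (1 - P2 (BX (L * m)) (HA 0 0 m (L * m))) *
        (1 - P2 (BX (L * m)) (CN (-(L * m)) (-N) 0 (L * m) (-(L * m)) (L * m) 0 (L * m))) := by
        refine mul_le_mul ?_ h8 (by positivity) ?_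
        · linarith
        · linarith

end H985LC
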