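import Pool.Agent.H985R6.LC.Defs
import Pool.Agent.H731R3.Cardy.Arm
import Pool.Agent.H731R3.Cardy.LowerCN
import Pool.Agent.H731R3.Cardy.Upper

/-!
Task L0: both bounds for `k = 0` (helper311).
-/

set_option autoImplicit false

namespace H985LC

open H974 Finset H731C

theorem L0_iff (M N : ℤ) (F : Finset Edg) : FH M N 0 F ↔ CN (-M) (-N) 0 0 (-M) M 0 M F := by
  unfold FH
  constructor
  · exact fun h => h.1
  · intro h
    refine ⟨h, ?_⟩
    rintro ⟨x, y, -, hy, -⟩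
    omega

theorem L0_up {M N : ℤ} (hN : 1 ≤ N) (hM : N ≤ M) {F : Finset Edg} (h : FH M N 0 F) :
    AR 0 0 N F := by
  rw [L0_iff] at h
  obtain ⟨x, y, hx, hy, hr⟩ := h
  have hy0 : y = 0 := by omega
  subst hy0
  have h1 := F_arm (z := 0) (t := 0) (m := 0) (n := N) (u := ((0 : ℤ), (0 : ℤ)))
    (v := ((x : ℤ), (0 : ℤ))) (by omega) (by omega) (by omega) (by omega)
    ⟨⟨by dsimp only; omega, by dsimp only; omega⟩, by dsimp only; omega,
      by dsimp only; omega⟩ (Or.inl (by dsimp only; omega)) hr.symm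
  obtain ⟨u, v, hu, hv, hr2⟩ := h1
  obtain ⟨⟨hu1, hu2⟩, hu3, hu4⟩ := hu
  have hu0 : u = ((0 : ℤ), (0 : ℤ)) := Prod.ext (by dsimp only; omega) (by dsimp only; omega)
  subst hu0
  refine ⟨v, hv, hr2.mono ?_⟩
  rw [Finset.coe_inter]
  exact Set.inter_subset_inter_left _ Set.inter_subset_left

theorem t_l0 : S_L0 := by
  obtain ⟨c1, C1, -, hC1, hAR⟩ := AR_bounds
  obtain ⟨c, hc, hlow⟩ := CN_lower
  refine ⟨c * (1 / 3 : ℝ) ^ ((1 : ℝ) / 3), C1, by positivity, hC1, fun N hN => ?_⟩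
  obtain ⟨N0, hN0⟩ := hlow (-2 * N) (-N) 0 0 (by omega) (by omega) le_rfl
  refine ⟨max N0 (2 * N), fun M hM => ?_⟩
  have hM1 : N0 ≤ M := le_trans (le_max_left _ _) hM
  have hM2 : 2 * N ≤ M := le_trans (le_max_right _ _) hM
  have hNr : (1 : ℝ) ≤ (N : ℝ) := by exact_mod_cast hN
  have hN0r : (0 : ℝ) < (N : ℝ) := by linarith
  constructor
  · have h1 := hN0 M hM1
    have h2 : P2 (RE (-M) M 0 M) (CN (-2 * N) (-N) 0 0 (-M) M 0 M) ≤ P2 (BX M) (FH M N 0) := by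
      refine Pr_mono okhalf2 fun F _ hF => ?_
      rw [L0_iff]
      obtain ⟨x, y, hx, hy, hr⟩ := hF
      exact ⟨x, y, by omega, hy, hr⟩
    refine le_trans ?_ (h1.trans h2)
    rw [mul_assoc, ← Real.mul_rpow (by norm_num) (by positivity)]
    refine mul_le_mul_of_nonneg_left ?_ hc.le
    refine Real.rpow_le_rpow (by positivity) ?_ (by norm_num)
    push_cast
    have e : (-(N : ℝ) - -2 * (N : ℝ) + 1) / (-(N : ℝ) - -2 * (N : ℝ) + 1 + (0 - -(N : ℝ))) *
        (1 / (0 - -(N : ℝ) + 1)) = 1 / (2 * (N : ℝ) + 1) := by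
      have h3 : (-(N : ℝ) - -2 * (N : ℝ) + 1) = (N : ℝ) + 1 := by ring
      have h4 : (N : ℝ) + 1 + (0 - -(N : ℝ)) = 2 * N + 1 := by ring
      have h5 : (0 - -(N : ℝ) + 1) = (N : ℝ) + 1 := by ring
      rw [h3, h4, h5]
      have h6 : (N : ℝ) + 1 ≠ 0 := by positivity
      have h7 : 2 * (N : ℝ) + 1 ≠ 0 := by positivity
      field_simp
    rw [e, one_div_mul_one_div]
    exact one_div_le_one_div_of_le (by positivity) (by linarith)
  · have hS : RE (0 - N) (0 + N) 0 (0 + N) ⊆ BX M :=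
      RE_subset (by omega) (by omega) (by omega) (by omega)
    refine le_trans ?_ (hAR 0 0 N hN (BX M) hS).2
    exact Pr_mono okhalf2 fun F _ hF => L0_up hN (by omega) hF

end H985LC
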