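import Pool.Agent.H985R6.LC.Defs

/-! (LA) lower bound, `N ≥ 32 k`. -/

set_option autoImplicit false

namespace H985LC

open H974 Finset H731C

theorem t_la (hma : S_MA) (hcb : S_CB) (htf : S_TF) : S_LA := by
  obtain ⟨c, hc, h⟩ := hma
  refine ⟨c / 7, by positivity, ?_⟩
  intro k N M hk hN hM
  have h1 := h k N (M - 7 * k) hk hN (by linarith)
  have h2 := hcb M (7 * k) 1 0 0 (-N) (-(16 * k)) (-k - 1) 1 0 (-N) (-N) (-1) (k + 2) (8 * k) k
    (by linarith) (by linarith) (by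
      intro j hj1 hj2
      refine ⟨?_, ?_, ?_, ?_, ?_⟩
      · rw [abs_le]; constructor <;> linarith
      · intro e he
        exfalso
        obtain ⟨x, y, b⟩ := e
        cases b
        · rw [mem_RE_false] at he
          omega
        · rw [mem_RE_true] at he
          omega
      · linarith
      · linarith
      · linarith)
  have h3 : P2 (BX M) (TJ (-M) M M 1 0 0 (-N) (-N) (-1) k) ≤ P2 (BX M) (FH M N k) :=
    Pr_mono okhalf2 (fun F _ hF => htf M N k 1 0 0 (-N) (-N) (-1) F hk (by linarith)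
      (by linarith) (by linarith) le_rfl le_rfl le_rfl hF)
  have h4 := h1.trans h2
  have hk0 : (0 : ℝ) < k := by exact_mod_cast (by linarith : (0 : ℤ) < k)
  have e : ((8 * k - (k + 2) + 1 : ℤ) : ℝ) = 7 * (k : ℝ) - 1 := by push_cast; ring
  rw [e] at h4
  have hP : 0 ≤ P2 (BX M) (TJ (-M) M M 1 0 0 (-N) (-N) (-1) k) := by
    by_contra hneg
    have hneg' := lt_of_not_ge hneg
    have h5 : (0 : ℝ) < c * ((k : ℝ) / N) ^ ((1 : ℝ) / 3) := by
      have : (0 : ℝ) < N := by exact_mod_cast (by linarith : (0 : ℤ) < N)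
      positivity
    have h6 : (1 : ℝ) ≤ k := by exact_mod_cast hk
    nlinarith
  have h5 : c * ((k : ℝ) / N) ^ ((1 : ℝ) / 3) ≤ 7 * (k : ℝ) * P2 (BX M) (FH M N k) := by
    nlinarith
  have e2 : c / 7 / (k : ℝ) * ((k : ℝ) / N) ^ ((1 : ℝ) / 3) =
      (c * ((k : ℝ) / N) ^ ((1 : ℝ) / 3)) / (7 * (k : ℝ)) := by
    field_simp
  rw [e2, div_le_iff₀ (by positivity)]
  linarith

end H985LC
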