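import Pool.Agent.H985R6.LC.Defs

/-! LB: lower bound for `N ≤ 32 k`. -/

set_option autoImplicit false

namespace H985LC

open H974 Finset H731C

section LB

theorem LB_pow_le {x y : ℝ} (hx : 0 ≤ x) (hxy : x ≤ y) :
    x ^ ((1 : ℝ) / 3) ≤ y ^ ((1 : ℝ) / 3) := Real.rpow_le_rpow hx hxy (by norm_num)

theorem LB_pow32 {x : ℝ} (hx : 0 ≤ x) (h : x ≤ 32) : x ^ ((1 : ℝ) / 3) ≤ 4 := by
  have h1 : x ^ ((1 : ℝ) / 3) ≤ (64 : ℝ) ^ ((1 : ℝ) / 3) := LB_pow_le hx (by linarith)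
  have h2 : (64 : ℝ) ^ ((1 : ℝ) / 3) = 4 := by
    rw [show (64 : ℝ) = 4 ^ (3 : ℝ) by norm_num, ← Real.rpow_mul (by norm_num)]
    norm_num
  rw [h2] at h1
  exact h1

/-- the case `6 h ≤ N` -/
theorem LB_big (hcb : S_CB) (htf : S_TF) {c2 : ℝ} (h k N M : ℤ) (hh : 8 ≤ h)
    (hk : 3 * h ≤ k) (hN : 6 * h ≤ N) (hkM : k ≤ M) (hNM : N ≤ M)
    (hmb : c2 ≤ P2 (BX (M - h)) (fun F => ∃ j, k - h ≤ j ∧ j ≤ k + h ∧
        TJ (-(M - h)) (M - h) (M - h) 1 0 0 (-N - h) (-N + h) (-h - 1) j F)) :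
    c2 ≤ (2 * h + 1 : ℝ) * P2 (BX M) (FH M N k) := by
  have h1 := hcb M h 1 0 0 (-N - h) (-N + h) (-h - 1) 1 0 (-N) (-N) (-1) (k - h) (k + h) k
    (by omega) (by omega) (by
      intro j hj1 hj2
      refine ⟨by rw [abs_le]; omega, ?_, by omega, by omega, by omega⟩
      intro e he
      obtain ⟨x, y, _ | _⟩ := e
      · rw [mem_RE_false] at he; omega
      · rw [mem_RE_true] at he; omega)
  have h2 : P2 (BX M) (TJ (-M) M M 1 0 0 (-N) (-N) (-1) k) ≤ P2 (BX M) (FH M N k) := by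
    refine Pr_mono okhalf2 fun F _ hF => ?_
    exact htf M N k 1 0 0 (-N) (-N) (-1) F (by omega) hkM (by omega) hNM le_rfl le_rfl le_rfl hF
  have h3 : ((k + h - (k - h) + 1 : ℤ) : ℝ) = 2 * h + 1 := by push_cast; ring
  rw [h3] at h1
  have hh' : (0 : ℝ) ≤ 2 * h + 1 := by
    have : (8 : ℝ) ≤ h := by exact_mod_cast hh
    linarith
  exact le_trans hmb (le_trans h1 (mul_le_mul_of_nonneg_left h2 hh'))

/-- the case `N < 6 h` -/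
theorem LB_small (hcb : S_CB) (hcf : S_CF) (hgl : S_GL) (hen : S_EN) {c1 c3 : ℝ}
    (hc3 : 0 ≤ c3) (L h k N M : ℤ) (hL : 8 ≤ L) (hh : 8 ≤ h)
    (hk : 2 * L * h < k) (hN1 : 1 ≤ N) (hN : N < 6 * h) (hkM : k ≤ M)
    (hmc : c1 ≤ P2 (BX (M - h)) (fun F => ∃ j, k - h ≤ j ∧ j ≤ k + h ∧
        TJ (-(M - h)) (M - h) (M - h) (-((2 * L + 1) * h)) ((2 * L + 1) * h) ((2 * L + 1) * h)
          (-(8 * h)) (-h) (h - 1) j F))
    (hky : c3 ≤ P2 (BX (L * (2 * h))) (fun F => ¬ HA 0 0 (2 * h) (L * (2 * h)) F ∧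
        ¬ CN (-(L * (2 * h))) (-N) 0 (L * (2 * h)) (-(L * (2 * h))) (L * (2 * h)) 0
          (L * (2 * h)) F)) :
    c1 * c3 ≤ (2 * h + 1 : ℝ) * P2 (BX M) (FH M N k) := by
  set R : ℤ := L * (2 * h) with hR
  have hR1 : (2 * L + 1) * h = R + h := by rw [hR]; ring
  have hR2 : R < k := by rw [hR]; linarith [hk, show L * (2 * h) = 2 * L * h by ring]
  have hR3 : 16 * h ≤ R := by rw [hR]; nlinarith
  rw [hR1] at hmc
  have h1 := hcb M h (-(R + h)) (R + h) (R + h) (-(8 * h)) (-h) (h - 1) (-R) R (-(7 * h))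
    (-(2 * h)) (2 * h - 1) (k - h) (k + h) k
    (by omega) (by omega) (by
      intro j hj1 hj2
      refine ⟨by rw [abs_le]; omega, ?_, by omega, by omega, by omega⟩
      intro e he
      obtain ⟨x, y, _ | _⟩ := e
      · rw [mem_RE_false] at he ⊢; omega
      · rw [mem_RE_true] at he ⊢; omega)
  have h3 : ((k + h - (k - h) + 1 : ℤ) : ℝ) = 2 * h + 1 := by push_cast; ring
  rw [h3] at h1
  have h2 := hen (-M) M M (-R) R (R + h) (-(7 * h)) (-(2 * h)) (2 * h - 1) k (-M) M M (-R) R R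
    (-(7 * h)) (-(2 * h)) (2 * h - 1) le_rfl le_rfl le_rfl (by
      intro e he
      obtain ⟨x, y, _ | _⟩ := e
      · rw [mem_RE_false] at he ⊢; omega
      · rw [mem_RE_true] at he ⊢; omega) le_rfl le_rfl le_rfl
  have hT : BX R ⊆ BX M := by
    intro e he
    obtain ⟨x, y, _ | _⟩ := e
    · rw [mem_RE_false] at he ⊢; omega
    · rw [mem_RE_true] at he ⊢; omega
  have h4 := hcf (BX M) (BX R)
    (fun G => ∃ x, -M ≤ x ∧ x ≤ -(7 * h) ∧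
      Reach ((↑G : Set Edg) ∩ ↑(RE (-M) M 0 M \ RE (-R) R 0 R)) (k, 0) (x, 0))
    (fun F => ∃ y, -(2 * h) ≤ y ∧ y ≤ 2 * h - 1 ∧
      DReach ((↑F : Set Edg)ᶜ ∩ ↑(RE (-M) M 0 M)) (y, -1) (k - 1, -1))
    (fun F => ¬ HA 0 0 (2 * h) R F ∧ ¬ CN (-R) (-N) 0 R (-R) R 0 R F) hT
    (by
      rintro F G hFG _ hF ⟨y, a1, a2, a3⟩
      refine hF ⟨y, a1, a2, a3.mono ?_⟩
      refine Set.inter_subset_inter_left _ ?_
      exact Set.compl_subset_compl.2 (by exact_mod_cast hFG))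
    (by
      rintro F G hFG hG hF ⟨b1, b2⟩
      refine hF ⟨fun hh1 => b1 (HA_incr (BX R) 0 0 _ _ F G hFG hG hh1),
        fun hh1 => b2 (CN_incr (BX R) _ _ _ _ _ _ _ _ F G hFG hG hh1)⟩)
  -- the event `TJ` implies the first factor
  have h5 : P2 (BX M) (TJ (-M) M M (-R) R R (-(7 * h)) (-(2 * h)) (2 * h - 1) k) ≤
      P2 (BX M) (fun F => (∃ x, -M ≤ x ∧ x ≤ -(7 * h) ∧
      Reach ((↑(F \ BX R) : Set Edg) ∩ ↑(RE (-M) M 0 M \ RE (-R) R 0 R)) (k, 0) (x, 0)) ∧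
      ∃ y, -(2 * h) ≤ y ∧ y ≤ 2 * h - 1 ∧
      DReach ((↑F : Set Edg)ᶜ ∩ ↑(RE (-M) M 0 M)) (y, -1) (k - 1, -1)) := by
    refine Pr_mono okhalf2 fun F _ hF => ⟨?_, hF.2⟩
    obtain ⟨x, a1, a2, a3⟩ := hF.1
    refine ⟨x, a1, a2, a3.mono ?_⟩
    rintro e ⟨he1, he2⟩
    refine ⟨?_, he2⟩
    simp only [Finset.coe_sdiff, Set.mem_sdiff, Finset.mem_coe] at he1 he2 ⊢
    exact ⟨he1, he2.2⟩
  have h6 : P2 (BX M) (fun F => ((∃ x, -M ≤ x ∧ x ≤ -(7 * h) ∧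
      Reach ((↑(F \ BX R) : Set Edg) ∩ ↑(RE (-M) M 0 M \ RE (-R) R 0 R)) (k, 0) (x, 0)) ∧
      ∃ y, -(2 * h) ≤ y ∧ y ≤ 2 * h - 1 ∧
      DReach ((↑F : Set Edg)ᶜ ∩ ↑(RE (-M) M 0 M)) (y, -1) (k - 1, -1)) ∧
      (¬ HA 0 0 (2 * h) R (F ∩ BX R) ∧ ¬ CN (-R) (-N) 0 R (-R) R 0 R (F ∩ BX R))) ≤
      P2 (BX M) (FH M N k) := by
    refine Pr_mono okhalf2 fun F _ hF => ?_
    obtain ⟨⟨⟨x, a1, a2, a3⟩, a4⟩, a5, a6⟩ := hF
    refine hgl M N k R (2 * h) R (-(7 * h)) (-(2 * h)) (2 * h - 1) F (by omega) hkM hN1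
      (by omega) (by omega) le_rfl le_rfl (by omega) (by omega) hR2 le_rfl ?_ ?_ ?_
    · refine ⟨⟨x, a1, a2, a3.mono ?_⟩, a4⟩
      refine Set.inter_subset_inter_left _ ?_
      simp only [Finset.coe_sdiff]
      exact Set.sdiff_subset
    · rintro ⟨u, v, b1, b2, b3⟩
      refine a5 ⟨u, v, b1, b2, b3.mono ?_⟩
      rintro e ⟨he1, he2⟩
      refine ⟨?_, he2⟩
      simp only [Finset.mem_coe, Finset.mem_inter] at he1 he2 ⊢
      refine ⟨he1, ?_⟩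
      simpa using he2
    · rintro ⟨u, v, b1, b2, b3⟩
      refine a6 ⟨u, v, b1, b2, b3.mono ?_⟩
      rintro e ⟨he1, he2⟩
      refine ⟨?_, he2⟩
      simp only [Finset.mem_coe, Finset.mem_inter] at he1 he2 ⊢
      exact ⟨he1, he2⟩
  have hh' : (0 : ℝ) ≤ 2 * h + 1 := by
    have : (8 : ℝ) ≤ h := by exact_mod_cast hh
    linarith
  have h7 : c1 ≤ (2 * h + 1 : ℝ) * P2 (BX M) (fun F => (∃ x, -M ≤ x ∧ x ≤ -(7 * h) ∧
      Reach ((↑(F \ BX R) : Set Edg) ∩ ↑(RE (-M) M 0 M \ RE (-R) R 0 R)) (k, 0) (x, 0)) ∧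
      ∃ y, -(2 * h) ≤ y ∧ y ≤ 2 * h - 1 ∧
      DReach ((↑F : Set Edg)ᶜ ∩ ↑(RE (-M) M 0 M)) (y, -1) (k - 1, -1)) :=
    le_trans hmc (le_trans h1 (mul_le_mul_of_nonneg_left (le_trans h2 h5) hh'))
  have h8 := le_trans h4 h6
  have h9 : 0 ≤ P2 (BX M) (fun F => (∃ x, -M ≤ x ∧ x ≤ -(7 * h) ∧
      Reach ((↑(F \ BX R) : Set Edg) ∩ ↑(RE (-M) M 0 M \ RE (-R) R 0 R)) (k, 0) (x, 0)) ∧
      ∃ y, -(2 * h) ≤ y ∧ y ≤ 2 * h - 1 ∧
      DReach ((↑F : Set Edg)ᶜ ∩ ↑(RE (-M) M 0 M)) (y, -1) (k - 1, -1)) :=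
    Pr_nonneg okhalf2 _ _
  calc c1 * c3 ≤ ((2 * h + 1 : ℝ) * P2 (BX M) (fun F => (∃ x, -M ≤ x ∧ x ≤ -(7 * h) ∧
      Reach ((↑(F \ BX R) : Set Edg) ∩ ↑(RE (-M) M 0 M \ RE (-R) R 0 R)) (k, 0) (x, 0)) ∧
      ∃ y, -(2 * h) ≤ y ∧ y ≤ 2 * h - 1 ∧
      DReach ((↑F : Set Edg)ᶜ ∩ ↑(RE (-M) M 0 M)) (y, -1) (k - 1, -1))) * c3 :=
        mul_le_mul_of_nonneg_right h7 hc3
    _ ≤ ((2 * h + 1 : ℝ) * P2 (BX M) (fun F => (∃ x, -M ≤ x ∧ x ≤ -(7 * h) ∧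
      Reach ((↑(F \ BX R) : Set Edg) ∩ ↑(RE (-M) M 0 M \ RE (-R) R 0 R)) (k, 0) (x, 0)) ∧
      ∃ y, -(2 * h) ≤ y ∧ y ≤ 2 * h - 1 ∧
      DReach ((↑F : Set Edg)ᶜ ∩ ↑(RE (-M) M 0 M)) (y, -1) (k - 1, -1))) *
        P2 (BX R) (fun F => ¬ HA 0 0 (2 * h) R F ∧ ¬ CN (-R) (-N) 0 R (-R) R 0 R F) :=
        mul_le_mul_of_nonneg_left hky (mul_nonneg hh' h9)
    _ ≤ (2 * h + 1 : ℝ) * P2 (BX M) (FH M N k) := by
        rw [mul_assoc]
        exact mul_le_mul_of_nonneg_left h8 hh'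

theorem t_lb (hmb : S_MB) (hmc : S_MC) (hbl : S_BL) (hky : S_KY) (hcf : S_CF) (hcb : S_CB)
    (htf : S_TF) (hgl : S_GL) (hen : S_EN) : S_LB := by
  obtain ⟨L, hL, hLw⟩ := hbl
  obtain ⟨K0, hK0, c1, hc1, hmc'⟩ := hmc L hL hLw
  have hK64 : 64 ≤ K0 := by nlinarith
  obtain ⟨c2, hc2, hmb'⟩ := hmb K0 hK64
  obtain ⟨c3, hc3, hky'⟩ := hky L hL hLw
  refine ⟨min (c2 / 4) (c1 * c3), 8 * K0, lt_min (by positivity) (by positivity), by omega, ?_⟩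
  intro k N M hk hN1 hN32 hM
  obtain ⟨h, hh8, hh1, hh2⟩ : ∃ h : ℤ, 8 ≤ h ∧ K0 * h ≤ k ∧ k ≤ 2 * K0 * h := by
    refine ⟨k / K0, ?_, ?_, ?_⟩
    · rw [Int.le_ediv_iff_mul_le (by omega)]; exact hk
    · exact Int.mul_ediv_self_le (by omega)
    · have e1 := Int.lt_mul_ediv_self_add (x := k) (k := K0) (by omega)
      have e2 : 8 ≤ k / K0 := by
        rw [Int.le_ediv_iff_mul_le (by omega)]; exact hk
      nlinarith
  have hkh : 64 * h ≤ k := by nlinarith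
  have hkR : (512 : ℝ) ≤ k := by
    have : 512 ≤ k := by omega
    exact_mod_cast this
  have hkp : (0 : ℝ) < k := by linarith
  have hNp : (1 : ℝ) ≤ N := by exact_mod_cast hN1
  have hhk : (2 * h + 1 : ℝ) ≤ k := by
    have : 2 * h + 1 ≤ k := by omega
    exact_mod_cast this
  have hP0 : 0 ≤ P2 (BX M) (FH M N k) := Pr_nonneg okhalf2 _ _
  have hfin : ∀ c : ℝ, c ≤ (2 * h + 1 : ℝ) * P2 (BX M) (FH M N k) →
      c / k ≤ P2 (BX M) (FH M N k) := by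
    intro c hc
    rw [div_le_iff₀ hkp, mul_comm]
    exact le_trans hc (mul_le_mul_of_nonneg_right hhk hP0)
  have hq0 : (0 : ℝ) ≤ (N : ℝ) / k := by positivity
  by_cases h6 : 6 * h ≤ N
  · have e1 := LB_big hcb htf h k N M hh8 (by omega) h6 (by omega) (by omega)
      (hmb' h k N (M - h) hh8 hh1 hh2 h6 hN32 (by omega))
    have e2 := hfin _ e1
    have e3 : ((N : ℝ) / k) ^ ((1 : ℝ) / 3) ≤ 4 := by
      refine LB_pow32 hq0 ?_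
      rw [div_le_iff₀ hkp]
      exact_mod_cast hN32
    calc min (c2 / 4) (c1 * c3) / k * ((N : ℝ) / k) ^ ((1 : ℝ) / 3)
        ≤ (c2 / 4) / k * 4 := by
          refine mul_le_mul ?_ e3 (Real.rpow_nonneg hq0 _) (by positivity)
          exact div_le_div_of_nonneg_right (min_le_left _ _) hkp.le
      _ = c2 / k := by ring
      _ ≤ _ := e2
  · push Not at h6
    have hh0 : (0 : ℝ) < h := by
      have : (8 : ℝ) ≤ h := by exact_mod_cast hh8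
      linarith
    have e0 := hky' (2 * h) N (by omega) hN1 (by omega)
    have hx : c3 * ((N : ℝ) / k) ^ ((1 : ℝ) / 3) ≤
        c3 * ((N : ℝ) / ((2 * h : ℤ) : ℝ)) ^ ((1 : ℝ) / 3) := by
      refine mul_le_mul_of_nonneg_left (LB_pow_le hq0 ?_) hc3.le
      push_cast
      refine div_le_div_of_nonneg_left (by linarith) (by linarith) (by linarith)
    have hLk : 2 * L * h < k := by nlinarith
    have e1 := LB_small hcb hcf hgl hen (c1 := c1)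
      (c3 := c3 * ((N : ℝ) / k) ^ ((1 : ℝ) / 3))
      (mul_nonneg hc3.le (Real.rpow_nonneg hq0 _)) L h k N M hL hh8 hLk hN1 h6 (by omega)
      (hmc' h k (M - h) hh8 hh1 hh2 (by omega)) (le_trans hx e0)
    have e2 := hfin _ e1
    calc min (c2 / 4) (c1 * c3) / k * ((N : ℝ) / k) ^ ((1 : ℝ) / 3)
        ≤ (c1 * c3) / k * ((N : ℝ) / k) ^ ((1 : ℝ) / 3) := by
          refine mul_le_mul_of_nonneg_right ?_ (Real.rpow_nonneg hq0 _)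
          exact div_le_div_of_nonneg_right (min_le_right _ _) hkp.le
      _ = c1 * (c3 * ((N : ℝ) / k) ^ ((1 : ℝ) / 3)) / k := by ring
      _ ≤ _ := e2

end LB

end H985LC
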