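import Pool.Agent.H985R6.LC.Defs2

/-!
Local form of Cardy's formula: infinite-volume limit (diagonal version).
-/

set_option autoImplicit false

namespace H985LC

open H974 MeasureTheory Filter Topology Finset H731C

/-- the diagonal finite-volume events -/
def LM_Ev (b c d : ℤ) (M : ℕ) : Set (sqLattice.edgeSet → Bool) :=
  EvN (-(M : ℤ)) b c d M

theorem LM_mono (b c d : ℤ) : Monotone (LM_Ev b c d) := by
  intro N M hNM ω h
  have h' : ω ∈ EvN (-(N : ℤ)) b c d M := evN_mono (-(N : ℤ)) b c d hNM h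
  show ω ∈ EvN (-(M : ℤ)) b c d M
  rw [evN_iff] at h' ⊢
  obtain ⟨x, y, h1, h2, h3⟩ := h'
  have hc : (N : ℤ) ≤ M := by exact_mod_cast hNM
  exact ⟨x, y, ⟨by linarith [h1.1], h1.2⟩, h2, h3⟩

theorem LM_union (b c d : ℤ) :
    Joined (Set.Iic b) (Set.Icc c d) = ⋃ M : ℕ, LM_Ev b c d M := by
  ext ω
  rw [Set.mem_iUnion]
  constructor
  · intro h
    rw [joined_Iic, Set.mem_iUnion] at h
    obtain ⟨K, hK⟩ := h
    rw [joined_eq, Set.mem_iUnion] at hK
    obtain ⟨N, hN⟩ := hK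
    have h' : ω ∈ EvN (-(K : ℤ)) b c d (max K N) :=
      evN_mono (-(K : ℤ)) b c d (le_max_right K N) hN
    refine ⟨max K N, ?_⟩
    show ω ∈ EvN (-((max K N : ℕ) : ℤ)) b c d (max K N)
    rw [evN_iff] at h' ⊢
    obtain ⟨x, y, h1, h2, h3⟩ := h'
    have hc : (K : ℤ) ≤ ((max K N : ℕ) : ℤ) := by exact_mod_cast le_max_left K N
    exact ⟨x, y, ⟨by linarith [h1.1], h1.2⟩, h2, h3⟩
  · rintro ⟨M, hM⟩
    have hM' : ω ∈ EvN (-(M : ℤ)) b c d M := hM
    have h : ω ∈ Joined (Set.Icc (-(M : ℤ)) b) (Set.Icc c d) := by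
      rw [joined_eq, Set.mem_iUnion]
      exact ⟨M, hM'⟩
    obtain ⟨x, hx, y, hy, p, hp⟩ := h
    exact ⟨x, hx.2, y, hy, p, hp⟩

theorem t_lm : S_LM := by
  intro b c d
  have h := tendsto_measure_iUnion_atTop (μ := bondLaw half) (LM_mono b c d)
  rw [← LM_union] at h
  have h2 := (ENNReal.tendsto_toReal (measure_ne_top (bondLaw half)
    (Joined (Set.Iic b) (Set.Icc c d)))).comp h
  refine h2.congr (fun M => ?_)
  exact real_evN (-(M : ℤ)) b c d M

end H985LC
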