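import Pool.Agent.H985R6.LC.Defs

/-! Task LS: lower bound in small boxes (one explicit configuration). -/

set_option autoImplicit false

namespace H985LC

open H974 Finset H731C

namespace LS_

theorem cyl (T R : Finset Edg) (hR : R ⊆ T) :
    (1 / 2 : ℝ) ^ T.card ≤ P2 T (fun F => F = R) := by
  unfold P2 Pr Ex
  have h1 : (1 / 2 : ℝ) ^ T.card = (∏ e ∈ R, (1 / 2 : ℝ)) * (∏ e ∈ T \ R, (1 - 1 / 2 : ℝ)) *
      ind (R = R) := by
    rw [ind_of rfl, mul_one, Finset.prod_const, Finset.prod_const]
    have h2 : (1 - 1 / 2 : ℝ) = 1 / 2 := by norm_num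
    rw [h2, ← pow_add, Finset.card_sdiff_of_subset hR]
    congr 1
    have := Finset.card_le_card hR
    omega
  rw [h1]
  refine Finset.single_le_sum (f := fun F => (∏ e ∈ F, (1 / 2 : ℝ)) *
    (∏ e ∈ T \ F, (1 - 1 / 2 : ℝ)) * ind (F = R)) ?_ (Finset.mem_powerset.2 hR)
  intro F _
  have h3 : (0 : ℝ) ≤ ∏ e ∈ F, (1 / 2 : ℝ) := Finset.prod_nonneg (fun _ _ => by norm_num)
  have h4 : (0 : ℝ) ≤ ∏ e ∈ T \ F, (1 - 1 / 2 : ℝ) := Finset.prod_nonneg (fun _ _ => by norm_num)
  exact mul_nonneg (mul_nonneg h3 h4) (ind_nonneg _)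

theorem cylS (S T R : Finset Edg) (hT : T ⊆ S) (hR : R ⊆ T) (A : Finset Edg → Prop)
    (h : ∀ F, F ∩ T = R → A F) : (1 / 2 : ℝ) ^ T.card ≤ P2 S A := by
  have h1 := cyl T R hR
  have h2 := P2_restrict hT (fun F => F = R)
  rw [← h2] at h1
  refine h1.trans (Pr_mono okhalf2 ?_)
  intro F _ hF
  exact h F hF

theorem hpath (G : Set Edg) (a y : ℤ) (n : ℕ)
    (h : ∀ x, a ≤ x → x < a + n → ((x, y, true) : Edg) ∈ G) : Reach G (a, y) (a + n, y) := by
  induction n with
  | zero => simpa using Reach.refl G (a, y)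
  | succ n ih =>
    have h1 := ih (fun x hx hx' => h x hx (by push_cast; omega))
    have h2 : ((a + n, y, true) : Edg) ∈ G := h (a + n) (by omega) (by push_cast; omega)
    have h3 : Adj G (a + n, y) (a + (n + 1 : ℕ), y) := by
      refine ⟨(a + n, y, true), h2, Or.inl ⟨rfl, ?_⟩⟩
      rw [tgt_true]
      push_cast
      rw [add_assoc]
    exact h1.trans h3.reach

end LS_

open LS_ in
theorem t_ls : S_LS := by
  intro k N M hk hN hM
  classical
  set T := RE (-N - 1) (k + 1) 0 1 with hT
  set R := T.filter (fun e : Edg => (e.2.1 = 1 ∧ e.2.2 = true ∧ -N ≤ e.1 ∧ e.1 < k) ∨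
    (e.2.1 = 0 ∧ e.2.2 = false ∧ (e.1 = -N ∨ e.1 = k))) with hR
  have hTM : T ⊆ BX M := by
    rintro ⟨x, y, _ | _⟩ he
    · rw [hT, mem_RE_false] at he
      rw [mem_RE_false]
      omega
    · rw [hT, mem_RE_true] at he
      rw [mem_RE_true]
      omega
  have hcard : T.card ≤ 4 * (N + k + 4).toNat := by
    have h1 : T.card ≤ (Finset.Icc (-N - 1) (k + 1) ×ˢ
        (Finset.Icc (0 : ℤ) 1 ×ˢ (Finset.univ : Finset Bool))).card := by
      rw [hT]
      unfold RE
      exact Finset.card_filter_le _ _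
    rw [Finset.card_product, Finset.card_product, Int.card_Icc, Int.card_Icc, Finset.card_univ,
      Fintype.card_bool] at h1
    have h2 : ((1 : ℤ) + 1 - 0).toNat = 2 := by decide
    rw [h2] at h1
    omega
  have key : (1 / 2 : ℝ) ^ T.card ≤ P2 (BX M) (FH M N k) := by
    refine cylS (BX M) T R hTM (Finset.filter_subset _ _) _ ?_
    intro F hF
    have hRF : R ⊆ F := by
      rw [← hF]; exact Finset.inter_subset_left
    have hmem : ∀ e ∈ R, e ∈ ((↑F : Set Edg) ∩ ↑(RE (-M) M 0 M)) := by
      intro e he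
      exact ⟨hRF he, hTM (Finset.mem_filter.1 he).1⟩
    refine ⟨⟨-N, k, ⟨by omega, le_rfl⟩, ⟨hk, le_rfl⟩, ?_⟩, ?_⟩
    · -- the path
      have e1 : ((-N, 0, false) : Edg) ∈ R := by
        rw [hR, Finset.mem_filter, hT, mem_RE_false]
        refine ⟨by omega, Or.inr ⟨rfl, rfl, Or.inl rfl⟩⟩
      have e2 : ((k, 0, false) : Edg) ∈ R := by
        rw [hR, Finset.mem_filter, hT, mem_RE_false]
        refine ⟨by omega, Or.inr ⟨rfl, rfl, Or.inr rfl⟩⟩
      have p1 : Reach ((↑F : Set Edg) ∩ ↑(RE (-M) M 0 M)) (-N, 0) (-N, 1) :=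
        Adj.reach ⟨(-N, 0, false), hmem _ e1, Or.inl ⟨rfl, rfl⟩⟩
      have p3 : Reach ((↑F : Set Edg) ∩ ↑(RE (-M) M 0 M)) (k, 1) (k, 0) :=
        Adj.reach ⟨(k, 0, false), hmem _ e2, Or.inr ⟨rfl, rfl⟩⟩
      have p2 := hpath ((↑F : Set Edg) ∩ ↑(RE (-M) M 0 M)) (-N) 1 (N + k).toNat (by
        intro x hx hx'
        apply hmem
        rw [hR, Finset.mem_filter, hT, mem_RE_true]
        refine ⟨by omega, Or.inl ⟨rfl, rfl, hx, by omega⟩⟩)
      have hk' : -N + (((N + k).toNat : ℕ) : ℤ) = k := by omega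
      rw [hk'] at p2
      exact (p1.trans p2).trans p3
    · rintro ⟨x, y, ⟨-, hx⟩, ⟨hy0, hy1⟩, hxy⟩
      have hyx := hxy.symm
      rcases Relation.ReflTransGen.cases_head hyx with h | ⟨w, hw, -⟩
      · have := congrArg Prod.fst h
        simp only at this
        omega
      · obtain ⟨e, ⟨heF, heR⟩, hc⟩ := hw
        have heF' : e ∈ F := heF
        have heR' : e ∈ RE (-M) M 0 M := heR
        have hnot : ∀ e : Edg, e ∈ F → e ∈ T → e ∈ R := by
          intro e h1 h2
          rw [← hF]
          exact Finset.mem_inter.2 ⟨h1, h2⟩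
        obtain ⟨a, b, _ | _⟩ := e
        · rw [mem_RE_false] at heR'
          rcases hc with ⟨h1, -⟩ | ⟨-, h1⟩
          · rw [src_mk, Prod.mk.injEq] at h1
            obtain ⟨rfl, rfl⟩ := h1
            have h2 := hnot _ heF' (by rw [hT, mem_RE_false]; omega)
            rw [hR, Finset.mem_filter] at h2
            rcases h2.2 with h3 | h3
            · exact absurd h3.2.1 (by simp)
            · have := h3.2.2
              simp only at this
              omega
          · rw [tgt_false, Prod.mk.injEq] at h1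
            omega
        · rw [mem_RE_true] at heR'
          rcases hc with ⟨h1, -⟩ | ⟨-, h1⟩
          · rw [src_mk, Prod.mk.injEq] at h1
            obtain ⟨rfl, rfl⟩ := h1
            have h2 := hnot _ heF' (by rw [hT, mem_RE_true]; omega)
            rw [hR, Finset.mem_filter] at h2
            rcases h2.2 with h3 | h3
            · have := h3.1
              simp only at this
              omega
            · exact absurd h3.2.1 (by simp)
          · rw [tgt_true, Prod.mk.injEq] at h1
            obtain ⟨h1, rfl⟩ := h1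
            have h2 := hnot _ heF' (by rw [hT, mem_RE_true]; omega)
            rw [hR, Finset.mem_filter] at h2
            rcases h2.2 with h3 | h3
            · have := h3.1
              simp only at this
              omega
            · exact absurd h3.2.1 (by simp)
  refine le_trans ?_ key
  exact pow_le_pow_of_le_one (by norm_num) (by norm_num) hcard

end H985LC
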