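import Pool.Agent.H985R6.LC.Defs
import Pool.Agent.H731R3.Cardy.Cross

/-!
The window event for `N ≥ 32 k`.
-/

set_option autoImplicit false

namespace H985LC

open H974 Finset H731C

namespace MAx

theorem hor {a b c d y x : ℤ} (hy : c ≤ y ∧ y ≤ d) (hx : a ≤ x) :
    ∀ x' : ℤ, x ≤ x' → x' ≤ b → Reach (↑(RE a b c d) : Set Edg) (x, y) (x', y) := by
  intro x' h
  refine Int.le_induction (m := x)
    (motive := fun x' _ => x' ≤ b → Reach (↑(RE a b c d) : Set Edg) (x, y) (x', y)) ?_ ?_ x' h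
  · intro _
    exact Reach.refl _ _
  · intro z hz ih hb
    refine (ih (by omega)).trans (Adj.reach ⟨(z, y, true), ?_, Or.inl ⟨rfl, rfl⟩⟩)
    rw [Finset.mem_coe, mem_RE_true]
    omega

theorem ver {a b c d y x : ℤ} (hx : a ≤ x ∧ x ≤ b) (hy : c ≤ y) :
    ∀ y' : ℤ, y ≤ y' → y' ≤ d → Reach (↑(RE a b c d) : Set Edg) (x, y) (x, y') := by
  intro y' h
  refine Int.le_induction (m := y)
    (motive := fun y' _ => y' ≤ d → Reach (↑(RE a b c d) : Set Edg) (x, y) (x, y')) ?_ ?_ y' h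
  · intro _
    exact Reach.refl _ _
  · intro z hz ih hb
    refine (ih (by omega)).trans (Adj.reach ⟨(x, z, false), ?_, Or.inl ⟨rfl, rfl⟩⟩)
    rw [Finset.mem_coe, mem_RE_false]
    omega

/-- a box is connected -/
theorem box_conn {a b c d : ℤ} {u v : Vtx} (hu : inR a b c d u) (hv : inR a b c d v) :
    Reach (↑(RE a b c d) : Set Edg) u v := by
  obtain ⟨x, y⟩ := u
  obtain ⟨x', y'⟩ := v
  obtain ⟨⟨h1, h2⟩, h3, h4⟩ := hu
  obtain ⟨⟨h5, h6⟩, h7, h8⟩ := hv
  have e1 : Reach (↑(RE a b c d) : Set Edg) (x, y) (x', y) := by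
    rcases le_total x x' with h | h
    · exact hor ⟨h3, h4⟩ h1 x' h h6
    · exact (hor ⟨h3, h4⟩ h5 x h h2).symm
  have e2 : Reach (↑(RE a b c d) : Set Edg) (x', y) (x', y') := by
    rcases le_total y y' with h | h
    · exact ver ⟨h5, h6⟩ h3 y' h h8
    · exact (ver ⟨h5, h6⟩ h7 y h h4).symm
  exact e1.trans e2

/-- the edges of the ring do not touch the inner half-box -/
theorem ring_out {F : Set Edg} {A B D r : ℤ} {u v : Vtx} (hu : ¬ inR (-r) r 0 r u)
    (h : Reach (F ∩ ↑(VE A B 0 D \ RE (-r - 1) (r + 1) 0 (r + 1))) u v) :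
    ¬ inR (-r) r 0 r v := by
  induction h with
  | refl => exact hu
  | tail _ hs _ =>
    obtain ⟨e, ⟨-, he⟩, hc⟩ := hs
    rw [Finset.mem_coe, Finset.mem_sdiff] at he
    obtain ⟨x, y, _ | _⟩ := e
    · rw [mem_VE_false, mem_RE_false] at he
      rcases hc with ⟨h1, h2⟩ | ⟨h1, h2⟩
      · rw [← h2]
        simp only [tgt_false, inR]
        omega
      · rw [← h1]
        simp only [src_mk, inR]
        omega
    · rw [mem_VE_true, mem_RE_true] at he
      rcases hc with ⟨h1, h2⟩ | ⟨h1, h2⟩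
      · rw [← h2]
        simp only [tgt_true, inR]
        omega
      · rw [← h1]
        simp only [src_mk, inR]
        omega

theorem far_join (hcr : S_CR) {M N k x y f fr : ℤ} {F : Finset Edg} (hk : 1 ≤ k)
    (hN : 32 * k ≤ N) (hM : 100 * N ≤ M) (hx : -(4 * N) ≤ x ∧ x ≤ -N)
    (hy : -(8 * k) ≤ y ∧ y ≤ 8 * k)
    (h : Reach (↑(F ∪ RE (-(8 * k)) (8 * k) 0 (8 * k)) ∩ ↑(VE (-M) M 0 M)) (x, 0) (y, 0))
    (hf : -(16 * k) ≤ f ∧ f < -(8 * k) - 1) (hfr : 8 * k + 1 < fr ∧ fr ≤ 16 * k)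
    (hr : Reach (↑F ∩ ↑(VE (-(16 * k)) (16 * k) 0 (16 * k) \
      RE (-(8 * k) - 1) (8 * k + 1) 0 (8 * k + 1))) (fr, 0) (f, 0)) :
    Reach (↑F ∩ ↑(RE (-M) M 0 M)) (f, 0) (x, 0) := by
  set R8 := RE (-(8 * k)) (8 * k) 0 (8 * k) with hR8
  have hR8M : R8 ⊆ RE (-M) M 0 M := RE_subset (by omega) (by omega) le_rfl (by omega)
  have hVM : VE (-M) M 0 M ⊆ RE (-M) M 0 M := VE_subset_RE
  set G1 : Set Edg := {e | (e ∈ F ∧ e ∈ RE (-M) M 0 M ∧
    Reach (↑F ∩ ↑(RE (-M) M 0 M)) (x, 0) (src e)) ∨ e ∈ R8} with hG1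
  have hR8G : (↑R8 : Set Edg) ⊆ G1 ∩ ↑(RE (-M) M 0 M) := by
    intro e he
    exact ⟨Or.inr he, hR8M he⟩
  -- first visit of the half-box
  have key : ∀ v, Reach (↑(F ∪ R8) ∩ ↑(VE (-M) M 0 M)) (x, 0) v →
      (Reach (↑F ∩ ↑(RE (-M) M 0 M)) (x, 0) v ∧ Reach (G1 ∩ ↑(RE (-M) M 0 M)) (x, 0) v) ∨
      (∃ v1, inR (-(8 * k)) (8 * k) 0 (8 * k) v1 ∧
        Reach (G1 ∩ ↑(RE (-M) M 0 M)) (x, 0) v1) := by
    intro v hv
    induction hv with
    | refl => exact Or.inl ⟨Reach.refl _ _, Reach.refl _ _⟩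
    | @tail v v' _ hs ih =>
      rcases ih with ⟨i1, i2⟩ | i3
      · by_cases hvb : inR (-(8 * k)) (8 * k) 0 (8 * k) v
        · exact Or.inr ⟨v, hvb, i2⟩
        · obtain ⟨e, ⟨heF, heV⟩, hc⟩ := hs
          have heR : e ∉ R8 := by
            intro he
            have := RE_ends he
            rcases hc with ⟨h1, -⟩ | ⟨-, h2⟩
            · exact hvb (h1 ▸ this.1)
            · exact hvb (h2 ▸ this.2)
          have heF' : e ∈ F := by
            rw [Finset.mem_coe, Finset.mem_union] at heF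
            exact heF.resolve_right heR
          have heM : e ∈ RE (-M) M 0 M := hVM heV
          have hadj : Adj (↑F ∩ ↑(RE (-M) M 0 M)) v v' := ⟨e, ⟨heF', heM⟩, hc⟩
          have hsrc : Reach (↑F ∩ ↑(RE (-M) M 0 M)) (x, 0) (src e) := by
            rcases hc with ⟨h1, -⟩ | ⟨h1, -⟩
            · rw [h1]; exact i1
            · rw [h1]; exact i1.trans hadj.reach
          refine Or.inl ⟨i1.trans hadj.reach, i2.trans (Adj.reach ⟨e, ⟨Or.inl ?_, heM⟩, hc⟩)⟩
          exact ⟨heF', heM, hsrc⟩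
      · exact Or.inr i3
  have hyb : inR (-(8 * k)) (8 * k) 0 (8 * k) (y, 0) := by
    unfold inR
    simp only
    omega
  have hG : Reach (G1 ∩ ↑(RE (-M) M 0 M)) (x, 0) (y, 0) := by
    rcases key _ h with ⟨-, i2⟩ | ⟨v1, hv1, i3⟩
    · exact i2
    · exact i3.trans ((box_conn hv1 hyb).mono hR8G)
  have hsub : (↑F ∩ ↑(VE (-(16 * k)) (16 * k) 0 (16 * k) \
      RE (-(8 * k) - 1) (8 * k + 1) 0 (8 * k + 1)) : Set Edg) ⊆
      (↑F ∩ ↑(VE (-(16 * k)) (16 * k) 0 (16 * k) \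
      RE (-(8 * k) - 1) (8 * k + 1) 0 (8 * k + 1))) ∩ ↑(RE (-M) M 0 M) := by
    intro e he
    refine ⟨he, ?_⟩
    have h1 := (Finset.mem_sdiff.mp (Finset.mem_coe.mp he.2)).1
    exact VE_subset_RE (VE_mono (by omega) (by omega) (by omega) h1)
  obtain ⟨w, hw1, hw2⟩ := hcr (-M) M 0 M x f y fr G1 _ (by omega) (by omega) (by omega) hG
    (hr.symm.mono hsub)
  have hwout : ¬ inR (-(8 * k)) (8 * k) 0 (8 * k) w := by
    refine ring_out (F := ↑F) (A := -(16 * k)) (B := 16 * k) (D := 16 * k) (u := (f, 0)) ?_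
      (hw2.mono Set.inter_subset_left)
    unfold inR
    simp only
    omega
  have hwC : Reach (↑F ∩ ↑(RE (-M) M 0 M)) (x, 0) w := by
    have hgen : ∀ v, Reach (G1 ∩ ↑(RE (-M) M 0 M)) (x, 0) v →
        Reach (↑F ∩ ↑(RE (-M) M 0 M)) (x, 0) v ∨ inR (-(8 * k)) (8 * k) 0 (8 * k) v := by
      intro v hv
      induction hv with
      | refl => exact Or.inl (Reach.refl _ _)
      | @tail v v' _ hs ih =>
        obtain ⟨e, ⟨heG, -⟩, hc⟩ := hs
        rcases heG with ⟨heF, heM, hsrc⟩ | heR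
        · left
          rcases hc with ⟨-, h2⟩ | ⟨h1, -⟩
          · rw [← h2]
            exact hsrc.trans (Adj.reach ⟨e, ⟨heF, heM⟩, Or.inl ⟨rfl, rfl⟩⟩)
          · rw [← h1]
            exact hsrc
        · right
          have := RE_ends heR
          rcases hc with ⟨-, h2⟩ | ⟨h1, -⟩
          · exact h2 ▸ this.2
          · exact h1 ▸ this.1
    exact (hgen w hw1).resolve_right hwout
  have hwf : Reach (↑F ∩ ↑(RE (-M) M 0 M)) (f, 0) w := by
    refine hw2.mono ?_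
    intro e he
    exact ⟨he.1.1, he.2⟩
  exact hwf.trans hwC.symm

theorem TU_loc {t p q H g : ℤ} {F F' : Finset Edg}
    (h : ∀ e, e ∈ VE (p - g) (q + g) t (t + H + g) \ RE p q t (t + H) → e ∈ F → e ∈ F')
    (hF : TU t p q H g F) : TU t p q H g F' := by
  obtain ⟨j, x, hj, hx, hr⟩ := hF
  refine ⟨j, x, hj, hx, hr.mono ?_⟩
  rintro e ⟨h1, h2⟩
  exact ⟨h e h2 h1, h2⟩

theorem TU_incr (S : Finset Edg) (t p q H g : ℤ) : IncrE S (TU t p q H g) := by
  intro F G h _ hF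
  exact TU_loc (fun e _ he => h he) hF

theorem real_est {k N : ℤ} (hk : 1 ≤ k) (hN : 32 * k ≤ N) :
    ((k : ℝ) / N) ^ ((1 : ℝ) / 3) ≤
      ((((-N - -(4 * N) + 1 : ℤ) : ℝ) * ((8 * k - -(8 * k) + 1 : ℤ) : ℝ)) /
        ((8 * k - -(4 * N) + 1 : ℤ) : ℝ) ^ 2) ^ ((1 : ℝ) / 3) := by
  have hk0 : (1 : ℝ) ≤ k := by exact_mod_cast hk
  have hN0 : 32 * (k : ℝ) ≤ N := by exact_mod_cast hN
  have hNp : (0 : ℝ) < N := by linarith
  refine Real.rpow_le_rpow (by positivity) ?_ (by norm_num)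
  push_cast
  have e1 : (-(N : ℝ) - -(4 * N) + 1) = 3 * N + 1 := by ring
  have e2 : (8 * (k : ℝ) - -(8 * k) + 1) = 16 * k + 1 := by ring
  have e3 : (8 * (k : ℝ) - -(4 * N) + 1) = 8 * k + 4 * N + 1 := by ring
  rw [e1, e2, e3, div_le_div_iff₀ hNp (by positivity)]
  have h5 : 8 * (k : ℝ) + 4 * N + 1 ≤ 5 * N := by linarith
  have h6 : (8 * (k : ℝ) + 4 * N + 1) ^ 2 ≤ (5 * N) ^ 2 := by
    apply pow_le_pow_left₀ (by positivity) h5
  have h7 : (k : ℝ) * (8 * (k : ℝ) + 4 * N + 1) ^ 2 ≤ k * (5 * N) ^ 2 :=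
    mul_le_mul_of_nonneg_left h6 (by linarith)
  have h8 : (k : ℝ) * (5 * N) ^ 2 ≤ (3 * N + 1) * (16 * k + 1) * N := by
    have : 0 ≤ (k : ℝ) * N * N := by positivity
    nlinarith [mul_pos hNp hNp, mul_nonneg (by linarith : (0:ℝ) ≤ k) hNp.le]
  linarith

end MAx

open MAx

theorem t_ma (hcr : S_CR) (hdet : S_DET) (htu : S_TU) (hdt : S_DT) (hdr : S_DR) : S_MA := by
  obtain ⟨c0, hc0, hX⟩ := XC_lower
  obtain ⟨c1, hc1, h1⟩ := htu 7 (by norm_num)
  obtain ⟨c2, hc2, h2⟩ := hdt 3 (by norm_num)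
  refine ⟨c1 * c1 * c0 * c2, by positivity, ?_⟩
  intro k N M hk hN hM
  set U := BX M with hU
  set R3 := RE (-(3 * k)) (3 * k + 1) 0 (3 * k) with hR3
  set R8 := RE (-(8 * k)) (8 * k) 0 (8 * k) with hR8
  have hR38 : R3 ⊆ R8 := RE_subset (by omega) (by omega) le_rfl (by omega)
  have hR3U : R3 ⊆ U := RE_subset (by omega) (by omega) le_rfl (by omega)
  have hR8U : R8 ⊆ U := RE_subset (by omega) (by omega) le_rfl (by omega)
  set EH : Finset Edg → Prop := TU 0 (-(8 * k) - 1) (8 * k + 1) (8 * k + 1) (8 * k - 1) with hEH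
  set ES : Finset Edg → Prop := TU 0 (-(16 * k)) (4 * k) (4 * k) (4 * k) with hES
  set EX : Finset Edg → Prop := XC (-(4 * N)) (-N) (-(8 * k)) (8 * k) (-M) M 0 M with hEX
  set EF : Finset Edg → Prop := fun F => EX (F ∪ R8) with hEF
  set ED : Finset Edg → Prop :=
    fun F => TU (-1) (-k) k k (2 * k) (dmp (R3 \ F)) with hED
  -- probabilities
  have p1 : c1 ≤ P2 U EH := by
    refine h1 0 (-(8 * k) - 1) (8 * k + 1) (8 * k + 1) (8 * k - 1) (by omega) (by omega)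
      (by omega) (by omega) U ?_
    exact (VE_mono (by omega) (by omega) (by omega)).trans VE_subset_RE
  have p2 : c1 ≤ P2 U ES := by
    refine h1 0 (-(16 * k)) (4 * k) (4 * k) (4 * k) (by omega) (by omega)
      (by omega) (by omega) U ?_
    exact (VE_mono (by omega) (by omega) (by omega)).trans VE_subset_RE
  have p3 : c0 * ((k : ℝ) / N) ^ ((1 : ℝ) / 3) ≤ P2 U EF := by
    have q1 := hX (-(4 * N)) (-N) (-(8 * k)) (8 * k) 0 (-M) M M (by omega) (by omega) (by omega)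
      (by omega) (by omega) (by omega) U VE_subset_RE
    have q2 : P2 U EX ≤ P2 U EF := by
      apply Pr_mono okhalf2
      intro F hF hE
      exact XC_incr U _ _ _ _ _ _ _ _ F (F ∪ R8) Finset.subset_union_left
        (Finset.union_subset hF hR8U) hE
    refine le_trans ?_ (q1.trans q2)
    exact mul_le_mul_of_nonneg_left (real_est hk hN) hc0.le
  have p4 : c2 ≤ P2 U ED := by
    have q1 := h2 (-(3 * k)) (3 * k + 1) (3 * k) (-k) k k (2 * k) (by omega) (by omega)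
      (by omega) (by omega) (by omega) (by omega) (by omega)
    have e1 : RE (-k - 2 * k) (k + 2 * k + 1) 0 (k + 2 * k) = R3 := by
      rw [hR3]
      congr 1 <;> ring
    rw [e1] at q1
    have q2 : P2 U ED = P2 R3 ED := by
      unfold P2
      apply Pr_local hR3U
      intro F _
      have : R3 \ (F ∩ R3) = R3 \ F := by
        ext e
        simp only [Finset.mem_sdiff, Finset.mem_inter]
        tauto
      rw [hED]
      simp only [this]
    rw [q2]
    exact q1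
  -- increasing events
  have i1 : IncrE U EH := TU_incr U _ _ _ _ _
  have i2 : IncrE U ES := TU_incr U _ _ _ _ _
  have i12 : IncrE U (fun F => EH F ∧ ES F) :=
    fun F G h hG hF => ⟨i1 F G h hG hF.1, i2 F G h hG hF.2⟩
  have i3 : IncrE U EF := by
    intro F G h hG hF
    exact XC_incr U _ _ _ _ _ _ _ _ (F ∪ R8) (G ∪ R8) (Finset.union_subset_union_left h)
      (Finset.union_subset hG hR8U) hF
  have l1 := Pr_harris okhalf2 i1 i2
  have l2 := Pr_harris okhalf2 i12 i3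
  -- independence
  have l3 : Pr (fun _ => (1/2 : ℝ)) U (fun F => ((EH F ∧ ES F) ∧ EF F) ∧ ED F) =
      Pr (fun _ => (1/2 : ℝ)) U (fun F => (EH F ∧ ES F) ∧ EF F) *
      Pr (fun _ => (1/2 : ℝ)) U ED := by
    refine Pr_indep (S := U \ R3) (T := R3) Finset.sdiff_subset hR3U Finset.sdiff_disjoint ?_ ?_
    · intro F hF
      have a1 : EH F ↔ EH (F ∩ (U \ R3)) := by
        constructor
        · refine TU_loc ?_
          intro e he heF
          rw [Finset.mem_sdiff] at he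
          refine Finset.mem_inter.mpr ⟨heF, Finset.mem_sdiff.mpr ⟨hF heF, fun h3 => he.2 ?_⟩⟩
          exact RE_subset (by omega) (by omega) le_rfl (by omega) h3
        · exact TU_loc (fun e _ he => (Finset.mem_inter.mp he).1)
      have a2 : ES F ↔ ES (F ∩ (U \ R3)) := by
        constructor
        · refine TU_loc ?_
          intro e he heF
          rw [Finset.mem_sdiff] at he
          refine Finset.mem_inter.mpr ⟨heF, Finset.mem_sdiff.mpr ⟨hF heF, fun h3 => he.2 ?_⟩⟩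
          exact RE_subset (by omega) (by omega) le_rfl (by omega) h3
        · exact TU_loc (fun e _ he => (Finset.mem_inter.mp he).1)
      have a3 : F ∪ R8 = (F ∩ (U \ R3)) ∪ R8 := by
        ext e
        simp only [Finset.mem_union, Finset.mem_inter, Finset.mem_sdiff]
        constructor
        · rintro (h | h)
          · by_cases h3 : e ∈ R3
            · exact Or.inr (hR38 h3)
            · exact Or.inl ⟨h, hF h, h3⟩
          · exact Or.inr h
        · rintro (h | h)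
          · exact Or.inl h.1
          · exact Or.inr h
      have a4 : EF F ↔ EF (F ∩ (U \ R3)) := by
        rw [hEF]
        simp only
        rw [← a3]
      rw [a1, a2, a4]
    · intro F _
      have : R3 \ (F ∩ R3) = R3 \ F := by
        ext e
        simp only [Finset.mem_sdiff, Finset.mem_inter]
        tauto
      rw [hED]
      simp only [this]
  -- deterministic part
  have l4 : Pr (fun _ => (1/2 : ℝ)) U (fun F => ((EH F ∧ ES F) ∧ EF F) ∧ ED F) ≤
      P2 (BX M) (fun F => ∃ j, k + 2 ≤ j ∧ j ≤ 8 * k ∧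
        TJ (-M) M M 1 0 0 (-N) (-(16 * k)) (-k - 1) j F) := by
    apply Pr_mono okhalf2
    rintro F hF ⟨⟨⟨⟨fr, f, hfr, hf, hrH⟩, ⟨j', xs, hj', hxs, hrS⟩⟩, ⟨x, y, hx, hy, hrF⟩⟩, hd⟩
    have eH1 : VE (-(8 * k) - 1 - (8 * k - 1)) (8 * k + 1 + (8 * k - 1)) 0
        (0 + (8 * k + 1) + (8 * k - 1)) = VE (-(16 * k)) (16 * k) 0 (16 * k) := by
      congr 1 <;> ring
    have eH2 : RE (-(8 * k) - 1) (8 * k + 1) 0 (0 + (8 * k + 1)) =
        RE (-(8 * k) - 1) (8 * k + 1) 0 (8 * k + 1) := by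
      congr 1 ; ring
    rw [eH1, eH2] at hrH
    have j1 : Reach (↑F ∩ ↑(RE (-M) M 0 M)) (f, 0) (x, 0) :=
      far_join hcr hk hN hM hx hy hrF (by omega) (by omega) hrH
    have s1 : (↑F ∩ ↑(VE (-(16 * k)) (16 * k) 0 (16 * k) \
        RE (-(8 * k) - 1) (8 * k + 1) 0 (8 * k + 1)) : Set Edg) ⊆ ↑F ∩ ↑(RE (-M) M 0 M) := by
      intro e he
      refine ⟨he.1, ?_⟩
      have h1 := (Finset.mem_sdiff.mp (Finset.mem_coe.mp he.2)).1
      exact VE_subset_RE (VE_mono (by omega) (by omega) (by omega) h1)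
    have s2 : (↑F ∩ ↑(VE (-(16 * k) - 4 * k) (4 * k + 4 * k) 0 (0 + 4 * k + 4 * k) \
        RE (-(16 * k)) (4 * k) 0 (0 + 4 * k)) : Set Edg) ⊆ ↑F ∩ ↑(RE (-M) M 0 M) := by
      intro e he
      refine ⟨he.1, ?_⟩
      have h1 := (Finset.mem_sdiff.mp (Finset.mem_coe.mp he.2)).1
      exact VE_subset_RE (VE_mono (by omega) (by omega) (by omega) h1)
    have m1 := hrH.mono s1
    have m2 := hrS.mono s2
    obtain ⟨w, hw1, hw2⟩ := hcr (-M) M 0 M xs f j' fr (↑F) (↑F) (by omega) (by omega) (by omega)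
      m2.symm m1.symm
    have j2 : Reach (↑F ∩ ↑(RE (-M) M 0 M)) (f, 0) (j', 0) :=
      hw2.trans (hw1.symm.trans m2.symm)
    have e1 : RE (-k - 2 * k) (k + 2 * k + 1) 0 (k + 2 * k) = R3 := by
      rw [hR3]
      congr 1 <;> ring
    have hd' : TU (-1) (-k) k k (2 * k)
        (dmp (RE (-k - 2 * k) (k + 2 * k + 1) 0 (k + 2 * k) \ F)) := by
      rw [e1]
      exact hd
    obtain ⟨y0, z0, hy0, hz0, hdr0⟩ := hdr (-M) M M (-k) k k (2 * k) F (by omega) (by omega)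
      (by omega) (by omega) (by omega) (by omega) hd'
    obtain ⟨j, hj1, hj2, ⟨x2, hx2, hx3, hx4⟩, ⟨y2, hy2, hy3, hy4⟩⟩ :=
      hdet (-M) M M (-N) f x y0 z0 j' F (by omega) (by omega) (by omega) (by omega) (by omega)
        (by omega) (by omega) (by omega) j1 j2 hdr0
    exact ⟨j, by omega, by omega, ⟨x2, hx2, hx3, hx4⟩, ⟨y2, by omega, by omega, hy4⟩⟩
  -- conclusion
  have hx0 : 0 ≤ c0 * ((k : ℝ) / N) ^ ((1 : ℝ) / 3) := by
    have hk0 : (0 : ℝ) ≤ k := by exact_mod_cast (by omega : (0 : ℤ) ≤ k)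
    have hN0 : (0 : ℝ) ≤ N := by exact_mod_cast (by omega : (0 : ℤ) ≤ N)
    positivity
  calc c1 * c1 * c0 * c2 * ((k : ℝ) / N) ^ ((1 : ℝ) / 3)
      = ((c1 * c1) * (c0 * ((k : ℝ) / N) ^ ((1 : ℝ) / 3))) * c2 := by ring
    _ ≤ ((P2 U EH * P2 U ES) * P2 U EF) * P2 U ED := by
        refine mul_le_mul ?_ p4 hc2.le ?_
        · refine mul_le_mul ?_ p3 hx0 ?_
          · exact mul_le_mul p1 p2 hc1.le (hc1.le.trans p1)
          · exact mul_nonneg (hc1.le.trans p1) (hc1.le.trans p2)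
        · exact mul_nonneg (mul_nonneg (hc1.le.trans p1) (hc1.le.trans p2)) (hx0.trans p3)
    _ ≤ (P2 U (fun F => EH F ∧ ES F) * P2 U EF) * P2 U ED := by
        refine mul_le_mul_of_nonneg_right ?_ (hc2.le.trans p4)
        exact mul_le_mul_of_nonneg_right l1 (hx0.trans p3)
    _ ≤ P2 U (fun F => (EH F ∧ ES F) ∧ EF F) * P2 U ED :=
        mul_le_mul_of_nonneg_right l2 (hc2.le.trans p4)
    _ = Pr (fun _ => (1/2 : ℝ)) U (fun F => ((EH F ∧ ES F) ∧ EF F) ∧ ED F) := l3.symm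
    _ ≤ _ := l4

end H985LC
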