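import Pool.Agent.H985R6.LC.Defs

/-! Window event, `N` and `k` comparable (task MB). -/

set_option autoImplicit false

namespace H985LC

open H974 Finset H731C

namespace MBAux

lemma TU_incr (S : Finset Edg) (t p q H g : ℤ) : IncrE S (TU t p q H g) := by
  rintro F G h _ ⟨j, x, h1, h2, h3⟩
  exact ⟨j, x, h1, h2, h3.mono (Set.inter_subset_inter_left _ (by exact_mod_cast h))⟩

lemma TU_loc {t p q H g : ℤ} {S F : Finset Edg}
    (hS : (VE (p - g) (q + g) t (t + H + g) \ RE p q t (t + H)) ⊆ S) :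
    TU t p q H g F ↔ TU t p q H g (F ∩ S) := by
  constructor
  · rintro ⟨j, x, h1, h2, h3⟩
    refine ⟨j, x, h1, h2, h3.mono ?_⟩
    rintro e ⟨he1, he2⟩
    refine ⟨?_, he2⟩
    rw [Finset.mem_coe] at he1 he2 ⊢
    exact Finset.mem_inter.2 ⟨he1, hS he2⟩
  · rintro ⟨j, x, h1, h2, h3⟩
    refine ⟨j, x, h1, h2, h3.mono ?_⟩
    rintro e ⟨he1, he2⟩
    refine ⟨?_, he2⟩
    rw [Finset.mem_coe] at he1 ⊢
    exact (Finset.mem_inter.1 he1).1

lemma RE_sub {a b c d a' b' c' d' : ℤ} (h1 : a' ≤ a) (h2 : b ≤ b') (h3 : c' ≤ c) (h4 : d ≤ d') :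
    RE a b c d ⊆ RE a' b' c' d' := by
  rintro ⟨x, y, _ | _⟩ h
  · rw [mem_RE_false] at h ⊢
    omega
  · rw [mem_RE_true] at h ⊢
    omega

end MBAux

open MBAux

theorem t_mb (hcr : S_CR) (hdet : S_DET) (htu : S_TU) (hdt : S_DT) (hdr : S_DR) : S_MB := by
  intro K0 hK0
  obtain ⟨c1, hc1, h1⟩ := htu (400 * K0) (by omega)
  obtain ⟨c2, hc2, h2⟩ := hdt (400 * K0) (by omega)
  refine ⟨c1 * c1 * c2, by positivity, ?_⟩
  intro h k N M hh hk1 hk2 hN1 hN2 hM
  obtain ⟨g, hg⟩ : ∃ g, g = h / 2 := ⟨_, rfl⟩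
  have hg4 : 4 ≤ g := by omega
  have hg2 : 2 * g ≤ h := by omega
  have hg3 : h ≤ 3 * g := by omega
  obtain ⟨P, hP⟩ : ∃ P, P = K0 * g := ⟨_, rfl⟩
  have hPg : 64 * g ≤ P := by rw [hP]; nlinarith
  have hKh : K0 * h ≤ 3 * P := by rw [hP]; nlinarith
  have hKh0 : 64 * h ≤ K0 * h := by nlinarith
  have hk3 : k ≤ 6 * P := by
    have : 2 * K0 * h = 2 * (K0 * h) := by ring
    rw [this] at hk2
    linarith
  have hκ : 400 * K0 * g = 400 * P := by rw [hP]; ring
  obtain ⟨p', hp'⟩ : ∃ p', p' = -N + h + 2 * g := ⟨_, rfl⟩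
  obtain ⟨q', hq'⟩ : ∃ q', q' = k - 1 - g := ⟨_, rfl⟩
  obtain ⟨T, hT⟩ : ∃ T, T = RE (p' - g) (q' + g + 1) 0 (0 + g) := ⟨_, rfl⟩
  obtain ⟨U, hU⟩ : ∃ U, U = RE (-M) M 0 M := ⟨_, rfl⟩
  have hTU : T ⊆ U := by
    rw [hT, hU]
    exact RE_sub (by omega) (by omega) (by omega) (by omega)
  -- the events
  have hA1 : c1 ≤ P2 U (TU 0 (-N - h) k g g) := by
    apply h1 0 (-N - h) k g g (by omega) (by omega) (by omega) (by rw [hκ]; linarith)
    refine VE_subset_RE.trans ?_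
    rw [hU]
    exact RE_sub (by omega) (by omega) (by omega) (by omega)
  have hA2 : c1 ≤ P2 U (TU 0 (-N + h + g) (k + g) g g) := by
    apply h1 0 (-N + h + g) (k + g) g g (by omega) (by omega) (by omega) (by rw [hκ]; linarith)
    refine VE_subset_RE.trans ?_
    rw [hU]
    exact RE_sub (by omega) (by omega) (by omega) (by omega)
  have hB : c2 ≤ P2 U (fun F => TU (-1) p' q' 0 g (dmp (T \ F))) := by
    rw [hU, hT]
    exact h2 (-M) M M p' q' 0 g (by omega) (by omega) (by omega) (by rw [hκ]; linarith)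
      (by omega) (by omega) (by omega)
  have hA12 : c1 * c1 ≤ P2 U (fun F => TU 0 (-N - h) k g g F ∧
      TU 0 (-N + h + g) (k + g) g g F) := by
    refine le_trans ?_ (Pr_harris okhalf2 (TU_incr U _ _ _ _ _) (TU_incr U _ _ _ _ _))
    exact mul_le_mul hA1 hA2 hc1.le (hc1.le.trans hA1)
  -- locality
  have hloc1 : (VE ((-N - h) - g) (k + g) 0 (0 + g + g) \ RE (-N - h) k 0 (0 + g)) ⊆ U \ T := by
    intro e he
    rw [Finset.mem_sdiff] at he ⊢
    refine ⟨?_, fun h3 => he.2 ?_⟩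
    · rw [hU]
      exact RE_sub (by omega) (by omega) (by omega) (by omega) (VE_subset_RE he.1)
    · rw [hT] at h3
      exact RE_sub (by omega) (by omega) (by omega) (by omega) h3
  have hloc2 : (VE ((-N + h + g) - g) (k + g + g) 0 (0 + g + g) \
      RE (-N + h + g) (k + g) 0 (0 + g)) ⊆ U \ T := by
    intro e he
    rw [Finset.mem_sdiff] at he ⊢
    refine ⟨?_, fun h3 => he.2 ?_⟩
    · rw [hU]
      exact RE_sub (by omega) (by omega) (by omega) (by omega) (VE_subset_RE he.1)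
    · rw [hT] at h3
      exact RE_sub (by omega) (by omega) (by omega) (by omega) h3
  have hind : P2 U (fun F => (TU 0 (-N - h) k g g F ∧ TU 0 (-N + h + g) (k + g) g g F) ∧
      TU (-1) p' q' 0 g (dmp (T \ F))) = P2 U (fun F => TU 0 (-N - h) k g g F ∧
      TU 0 (-N + h + g) (k + g) g g F) * P2 U (fun F => TU (-1) p' q' 0 g (dmp (T \ F))) := by
    apply Pr_indep (S := U \ T) (T := T) Finset.sdiff_subset hTU Finset.sdiff_disjoint
      (A := fun F => TU 0 (-N - h) k g g F ∧ TU 0 (-N + h + g) (k + g) g g F)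
      (B := fun F => TU (-1) p' q' 0 g (dmp (T \ F)))
    · intro F _
      exact and_congr (TU_loc hloc1) (TU_loc hloc2)
    · intro F _
      have : T \ (F ∩ T) = T \ F := by
        ext e
        simp only [Finset.mem_sdiff, Finset.mem_inter]
        tauto
      simp only [this]
  have hlow : c1 * c1 * c2 ≤ P2 U (fun F => (TU 0 (-N - h) k g g F ∧
      TU 0 (-N + h + g) (k + g) g g F) ∧ TU (-1) p' q' 0 g (dmp (T \ F))) := by
    rw [hind]
    exact mul_le_mul hA12 hB hc2.le ((by positivity : (0 : ℝ) ≤ c1 * c1).trans hA12)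
  refine hlow.trans ?_
  show P2 U _ ≤ P2 (RE (-M) M 0 M) _
  rw [← hU]
  refine Pr_mono okhalf2 ?_
  rintro F - ⟨⟨⟨jo, x, hjo, hx, hr1⟩, ji, f, hji, hf, hr2⟩, hb⟩
  -- the three paths
  have hr1' : Reach ((↑F : Set Edg) ∩ ↑(RE (-M) M 0 M)) (jo, 0) (x, 0) := by
    refine hr1.mono (Set.inter_subset_inter_right _ ?_)
    intro e he
    rw [Finset.mem_coe] at he ⊢
    rw [← hU]
    exact (Finset.mem_sdiff.1 (hloc1 he)).1
  have hr2' : Reach ((↑F : Set Edg) ∩ ↑(RE (-M) M 0 M)) (ji, 0) (f, 0) := by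
    refine hr2.mono (Set.inter_subset_inter_right _ ?_)
    intro e he
    rw [Finset.mem_coe] at he ⊢
    rw [← hU]
    exact (Finset.mem_sdiff.1 (hloc2 he)).1
  rw [hT] at hb
  obtain ⟨y0, z0, hy, hz, hd⟩ := hdr (-M) M M p' q' 0 g F (by omega) (by omega) (by omega)
    (by omega) (by omega) (by omega) hb
  obtain ⟨w, hw1, hw2⟩ := hcr (-M) M 0 M x f jo ji (↑F) (↑F) (by omega) (by omega) (by omega)
    hr1'.symm hr2'.symm
  have hfx : Reach ((↑F : Set Edg) ∩ ↑(RE (-M) M 0 M)) (f, 0) (x, 0) := hw2.trans hw1.symm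
  have hfj : Reach ((↑F : Set Edg) ∩ ↑(RE (-M) M 0 M)) (f, 0) (jo, 0) := hfx.trans hr1'.symm
  obtain ⟨j, hj1, hj2, ho, y, hy1, hy2, hdy⟩ := hdet (-M) M M (-N - h) f x y0 z0 jo F
    (by omega) (by omega) (by omega) (by omega) (by omega) (by omega) (by omega) (by omega)
    hfx hfj hd
  exact ⟨j, by omega, by omega, ho, y, by omega, by omega, hdy⟩

end H985LC
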