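import Pool.Agent.H985R6.LC.Defs
import Pool.Agent.H974R2.Block

/-!
Task MC: the window event with a path which avoids a half-box around the origin.
-/

set_option autoImplicit false

namespace H985LC

open H974 Finset H731C

/-- Harris' inequality for two decreasing events. -/
theorem MC_dd {S : Finset Edg} {X Y : Finset Edg → Prop} (hX : IncrE S (fun F => ¬ X F))
    (hY : IncrE S (fun F => ¬ Y F)) :
    P2 S X * P2 S Y ≤ P2 S (fun F => X F ∧ Y F) := by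
  have h := Pr_harris_dd okhalf2 hX hY
  rw [Pr_not, Pr_not] at h
  have h1 : Pr (fun _ => (1/2:ℝ)) S (fun F => ¬ ¬ X F ∧ ¬ ¬ Y F) =
      P2 S (fun F => X F ∧ Y F) := Pr_congr (fun F _ => by simp)
  rw [h1] at h
  have h2 : ∀ a b : ℝ, (1 - (1 - a)) * (1 - (1 - b)) = a * b := by
    intro a b
    ring
  rw [h2] at h
  exact h

theorem MC_TU_mono {t p q H g : ℤ} {F G : Finset Edg} (h : F ⊆ G) (hF : TU t p q H g F) :
    TU t p q H g G := by
  obtain ⟨j, x, h1, h2, h3⟩ := hF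
  exact ⟨j, x, h1, h2, h3.mono (Set.inter_subset_inter_left _ (by exact_mod_cast h))⟩

/-- the dual ring event -/
def MC_D (p q H g : ℤ) (F : Finset Edg) : Prop :=
  TU (-1) p q H g (dmp (RE (p - g) (q + g + 1) 0 (H + g) \ F))

theorem MC_D_incr (S : Finset Edg) (p q H g : ℤ) : IncrE S (fun F => ¬ MC_D p q H g F) := by
  intro F G hFG _ hF hG
  apply hF
  unfold MC_D at hG ⊢
  refine MC_TU_mono ?_ hG
  exact Finset.map_subset_map.mpr (Finset.sdiff_subset_sdiff le_rfl hFG)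

theorem MC_sdiff {R R0 F : Finset Edg} (h : R ⊆ R0) : R \ (F ∩ R0) = R \ F := by
  ext e
  simp only [mem_sdiff, mem_inter]
  constructor
  · rintro ⟨h1, h2⟩
    exact ⟨h1, fun h3 => h2 ⟨h3, h h1⟩⟩
  · rintro ⟨h1, h2⟩
    exact ⟨h1, fun h3 => h2 h3.1⟩

theorem MC_D_loc {p q H g : ℤ} {R0 : Finset Edg} (h : RE (p - g) (q + g + 1) 0 (H + g) ⊆ R0)
    (F : Finset Edg) : MC_D p q H g (F ∩ R0) ↔ MC_D p q H g F := by
  unfold MC_D
  rw [MC_sdiff h]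

theorem MC_inter {F R R0 : Finset Edg} (h : R ⊆ R0) :
    ((↑(F ∩ R0) : Set Edg) ∩ ↑R) = ↑F ∩ ↑R := by
  ext e
  simp only [Set.mem_inter_iff, Finset.mem_coe, Finset.mem_inter]
  constructor
  · rintro ⟨⟨h1, _⟩, h2⟩
    exact ⟨h1, h2⟩
  · rintro ⟨h1, h2⟩
    exact ⟨⟨h1, h h2⟩, h2⟩

theorem MC_HA_loc {w w' : ℤ} {R0 : Finset Edg} (h : RE (-w') w' 0 w' ⊆ R0) (F : Finset Edg) :
    HA 0 0 w w' (F ∩ R0) ↔ HA 0 0 w w' F := by
  have h1 : RE (0 - w') (0 + w') 0 (0 + w') ⊆ R0 := by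
    rw [zero_sub, zero_add]
    exact h
  unfold HA
  rw [MC_inter h1]

theorem MC_TU_loc (t p q H g : ℤ) (F : Finset Edg) :
    TU t p q H g (F ∩ (VE (p - g) (q + g) t (t + H + g) \ RE p q t (t + H))) ↔
      TU t p q H g F := by
  unfold TU
  rw [MC_inter le_rfl]

theorem MC_ind {U S T : Finset Edg} (hS : S ⊆ U) (hT : T ⊆ U) (hd : Disjoint S T)
    (A B : Finset Edg → Prop) (hA : ∀ F, A (F ∩ S) ↔ A F) (hB : ∀ F, B (F ∩ T) ↔ B F) :
    P2 U (fun F => A F ∧ B F) = P2 U A * P2 U B := by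
  have e1 : P2 U (fun F => A F ∧ B F) = P2 U (fun F => A (F ∩ S) ∧ B (F ∩ T)) :=
    Pr_congr (fun F _ => by rw [hA F, hB F])
  have e2 : P2 U A = P2 S A := by
    rw [← P2_restrict hS A]
    exact Pr_congr (fun F _ => (hA F).symm)
  have e3 : P2 U B = P2 T B := by
    rw [← P2_restrict hT B]
    exact Pr_congr (fun F _ => (hB F).symm)
  rw [e1, e2, e3]
  exact P2_indep hS hT hd A B

theorem t_mc (hdetb : S_DETB) (htu : S_TU) (hdt : S_DT) (hdr : S_DR) : S_MC := by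
  intro L hL hHA
  obtain ⟨κ, hκ⟩ : ∃ κ : ℤ, κ = 1024 * L ^ 2 + 32 * L ^ 2 + 16 * L + 3 := ⟨_, rfl⟩
  have hκ1 : 1 ≤ κ := by
    rw [hκ]
    nlinarith [sq_nonneg L]
  obtain ⟨cu, hcu, hTU⟩ := htu κ hκ1
  obtain ⟨cd, hcd, hDT⟩ := hdt κ hκ1
  refine ⟨64 * L ^ 2, le_rfl, cu * (cd * (cd * (1 / 2))), by positivity, ?_⟩
  intro h k M hh hk1 hk2 hM
  obtain ⟨g, hg⟩ : ∃ g, g = h / 4 := ⟨_, rfl⟩
  have hg2 : 2 ≤ g := by omega
  have hg3 : 4 * g ≤ h := by omega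
  have hg4 : h ≤ 8 * g := by omega
  obtain ⟨w, hw⟩ : ∃ w, w = (2 * L + 1) * h := ⟨_, rfl⟩
  obtain ⟨w', hw'⟩ : ∃ w', w' = L * w := ⟨_, rfl⟩
  obtain ⟨P, hP⟩ : ∃ P, P = L ^ 2 * h := ⟨_, rfl⟩
  obtain ⟨Q, hQ⟩ : ∃ Q, Q = L * h := ⟨_, rfl⟩
  obtain ⟨Pg, hPg⟩ : ∃ Pg, Pg = L ^ 2 * g := ⟨_, rfl⟩
  obtain ⟨Qg, hQg⟩ : ∃ Qg, Qg = L * g := ⟨_, rfl⟩
  have i1 : 8 * h ≤ Q := by
    rw [hQ]
    nlinarith
  have i2 : 8 * Q ≤ P := by
    rw [hQ, hP]
    nlinarith [mul_nonneg (mul_nonneg (by omega : (0:ℤ) ≤ L) (by omega : (0:ℤ) ≤ h))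
      (by omega : (0:ℤ) ≤ L - 8)]
  have i3 : P ≤ 8 * Pg := by
    rw [hP, hPg]
    nlinarith [mul_nonneg (sq_nonneg L) (by omega : (0:ℤ) ≤ 8 * g - h)]
  have i4 : Q ≤ 8 * Qg := by
    rw [hQ, hQg]
    nlinarith [mul_nonneg (by omega : (0:ℤ) ≤ L) (by omega : (0:ℤ) ≤ 8 * g - h)]
  have i5 : w = 2 * Q + h := by
    rw [hw, hQ]
    ring
  have i6 : w' = 2 * P + Q := by
    rw [hw', hw, hP, hQ]
    ring
  have i7 : 64 * P ≤ k := by
    have : 64 * L ^ 2 * h = 64 * P := by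
      rw [hP]
      ring
    omega
  have i8 : k ≤ 128 * P := by
    have : 2 * (64 * L ^ 2) * h = 128 * P := by
      rw [hP]
      ring
    omega
  have i9 : κ * g = 1024 * Pg + 32 * Pg + 16 * Qg + 3 * g := by
    rw [hκ, hPg, hQg]
    ring
  rw [← hw]
  -- the sets
  have hRU : RE (-w' - g) k 0 (w' + g) ⊆ BX M :=
    RE_subset (by omega) (by omega) (by omega) (by omega)
  have hVU0 : VE (-w' - g - g) (k + g) 0 (0 + (w' + g) + g) ⊆ BX M :=
    VE_subset_RE.trans (RE_subset (by omega) (by omega) (by omega) (by omega))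
  have hVU : VE (-w' - g - g) (k + g) 0 (0 + (w' + g) + g) \
      RE (-w' - g) k 0 (0 + (w' + g)) ⊆ BX M := Finset.sdiff_subset.trans hVU0
  have hdis : Disjoint (VE (-w' - g - g) (k + g) 0 (0 + (w' + g) + g) \
      RE (-w' - g) k 0 (0 + (w' + g))) (RE (-w' - g) k 0 (w' + g)) := by
    rw [zero_add]
    exact Finset.sdiff_disjoint
  have hHAU : RE (-w') w' 0 w' ⊆ BX M :=
    RE_subset (by omega) (by omega) (by omega) (by omega)
  -- the events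
  have pA : cu ≤ P2 (BX M) (TU 0 (-w' - g) k (w' + g) g) :=
    hTU 0 (-w' - g) k (w' + g) g hg2 (by omega) (by omega) (by omega) (BX M) hVU0
  have pD1 : cd ≤ P2 (BX M) (MC_D (-w') (k - 1 - 2 * g) w' g) :=
    hDT (-M) M M (-w') (k - 1 - 2 * g) w' g hg2 (by omega) (by omega) (by omega) (by omega)
      (by omega) (by omega)
  have pD2 : cd ≤ P2 (BX M) (MC_D 0 (k - 1 - g) w' g) :=
    hDT (-M) M M 0 (k - 1 - g) w' g hg2 (by omega) (by omega) (by omega) (by omega)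
      (by omega) (by omega)
  have pN : 1 / 2 ≤ P2 (BX M) (fun F => ¬ HA 0 0 w w' F) := by
    have h1 := hHA w (by omega) (BX M) (by rw [← hw']; exact hHAU)
    rw [← hw'] at h1
    have h2 : P2 (BX M) (fun F => ¬ HA 0 0 w w' F) = 1 - P2 (BX M) (HA 0 0 w w') :=
      Pr_not _ _
    rw [h2]
    linarith
  have hNincr : IncrE (BX M) (fun F => ¬ ¬ HA 0 0 w w' F) := by
    intro F G hFG hG hF
    rw [not_not] at hF ⊢
    exact HA_incr (BX M) 0 0 w w' F G hFG hG hF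
  have pDN : cd * (1 / 2) ≤
      P2 (BX M) (fun F => MC_D 0 (k - 1 - g) w' g F ∧ ¬ HA 0 0 w w' F) :=
    le_trans (mul_le_mul pD2 pN (by norm_num) (hcd.le.trans pD2))
      (MC_dd (MC_D_incr _ _ _ _ _) hNincr)
  have hDNincr : IncrE (BX M)
      (fun F => ¬ (MC_D 0 (k - 1 - g) w' g F ∧ ¬ HA 0 0 w w' F)) := by
    intro F G hFG hG hF hc
    apply hF
    refine ⟨?_, fun hH => hc.2 (HA_incr (BX M) 0 0 w w' F G hFG hG hH)⟩
    by_contra hD
    exact MC_D_incr (BX M) 0 (k - 1 - g) w' g F G hFG hG hD hc.1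
  have pB : cd * (cd * (1 / 2)) ≤
      P2 (BX M) (fun F => MC_D (-w') (k - 1 - 2 * g) w' g F ∧
        (MC_D 0 (k - 1 - g) w' g F ∧ ¬ HA 0 0 w w' F)) :=
    le_trans (mul_le_mul pD1 pDN (by positivity) (hcd.le.trans pD1))
      (MC_dd (MC_D_incr _ _ _ _ _) hDNincr)
  have hind := MC_ind hVU hRU hdis (TU 0 (-w' - g) k (w' + g) g)
    (fun F => MC_D (-w') (k - 1 - 2 * g) w' g F ∧
        (MC_D 0 (k - 1 - g) w' g F ∧ ¬ HA 0 0 w w' F))
    (MC_TU_loc 0 (-w' - g) k (w' + g) g)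
    (fun F => by
      have r1 : RE (-w' - g) (k - 1 - 2 * g + g + 1) 0 (w' + g) ⊆
          RE (-w' - g) k 0 (w' + g) := RE_subset (by omega) (by omega) (by omega) (by omega)
      have r2 : RE (0 - g) (k - 1 - g + g + 1) 0 (w' + g) ⊆
          RE (-w' - g) k 0 (w' + g) := RE_subset (by omega) (by omega) (by omega) (by omega)
      have r3 : RE (-w') w' 0 w' ⊆ RE (-w' - g) k 0 (w' + g) :=
        RE_subset (by omega) (by omega) (by omega) (by omega)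
      rw [MC_D_loc r1, MC_D_loc r2, MC_HA_loc r3])
  have hprod : cu * (cd * (cd * (1 / 2))) ≤ P2 (BX M) (fun F =>
      TU 0 (-w' - g) k (w' + g) g F ∧ (MC_D (-w') (k - 1 - 2 * g) w' g F ∧
        (MC_D 0 (k - 1 - g) w' g F ∧ ¬ HA 0 0 w w' F))) := by
    rw [hind]
    exact mul_le_mul pA pB (by positivity) (hcu.le.trans pA)
  refine hprod.trans (Pr_mono okhalf2 ?_)
  rintro F - ⟨hT, hD1, hD2, hN⟩
  obtain ⟨j', x', hj', hx', hr⟩ := hT
  obtain ⟨a, z1, ha, hz1, hd1⟩ := hdr (-M) M M (-w') (k - 1 - 2 * g) w' g F (by omega)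
    (by omega) (by omega) (by omega) (by omega) (by omega) hD1
  obtain ⟨b, z2, hb, hz2, hd2⟩ := hdr (-M) M M 0 (k - 1 - g) w' g F (by omega)
    (by omega) (by omega) (by omega) (by omega) (by omega) hD2
  have hr' : Reach ((↑F : Set Edg) ∩ ↑(RE (-M) M 0 M)) (j', 0) (x', 0) := by
    refine hr.mono (Set.inter_subset_inter_right _ ?_)
    exact_mod_cast hVU
  obtain ⟨j, hj1, hj2, ⟨x, hx1, hx2, hx3⟩, ⟨y, hy1, hy2, hy3⟩⟩ :=
    hdetb (-M) M M w w' a b z1 z2 j' x' F (by omega) (by omega) (by omega) (by omega)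
      (by omega) (by omega) (by omega) (by omega) (by omega) (by omega) hHAU hr' hd1 hd2 hN
  exact ⟨j, by omega, by omega, ⟨x, hx1, by omega, hx3⟩, ⟨y, by omega, by omega, hy3⟩⟩

end H985LC
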