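import Pool.Agent.H985R6.LC.Defs

/-!
SH: translation invariance.
-/

set_option autoImplicit false

namespace H985LC

open H974 Finset H731C

/-- horizontal shift of the edges -/
def shE (s : ℤ) : Edg ↪ Edg where
  toFun e := (e.1 + s, e.2.1, e.2.2)
  inj' := by
    rintro ⟨x, y, b⟩ ⟨x', y', b'⟩ h
    simp only [Prod.mk.injEq] at h
    obtain ⟨h1, h2, h3⟩ := h
    ext
    · exact add_right_cancel h1
    · exact h2
    · rw [h3]

/-- horizontal shift of the vertices -/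
def shV (s : ℤ) (u : Vtx) : Vtx := (u.1 + s, u.2)

theorem sh_adj {s : ℤ} {G G' : Set Edg}
    (h : ∀ (x y : ℤ) (b : Bool), (x + s, y, b) ∈ G' ↔ (x, y, b) ∈ G) {u v : Vtx}
    (huv : Adj G u v) : Adj G' (shV s u) (shV s v) := by
  obtain ⟨⟨x, y, b⟩, he, hc⟩ := huv
  refine ⟨(x + s, y, b), (h x y b).2 he, ?_⟩
  cases b with
  | false =>
    simp only [src_mk, tgt_false] at hc ⊢
    rcases hc with ⟨h1, h2⟩ | ⟨h1, h2⟩
    · left; rw [← h1, ← h2]; exact ⟨rfl, rfl⟩
    · right; rw [← h1, ← h2]; exact ⟨rfl, rfl⟩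
  | true =>
    simp only [src_mk, tgt_true] at hc ⊢
    rcases hc with ⟨h1, h2⟩ | ⟨h1, h2⟩
    · left; rw [← h1, ← h2]; exact ⟨rfl, by simp only [shV, Prod.mk.injEq, and_true]; ring⟩
    · right; rw [← h1, ← h2]; exact ⟨rfl, by simp only [shV, Prod.mk.injEq, and_true]; ring⟩

theorem sh_dadj {s : ℤ} {G G' : Set Edg}
    (h : ∀ (x y : ℤ) (b : Bool), (x + s, y, b) ∈ G' ↔ (x, y, b) ∈ G) {u v : Vtx}
    (huv : DAdj G u v) : DAdj G' (shV s u) (shV s v) := by
  obtain ⟨⟨x, y, b⟩, he, hc⟩ := huv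
  refine ⟨(x + s, y, b), (h x y b).2 he, ?_⟩
  cases b with
  | false =>
    simp only [dtgt_mk, dsrc_false] at hc ⊢
    rcases hc with ⟨h1, h2⟩ | ⟨h1, h2⟩
    · left; rw [← h1, ← h2]; exact ⟨by simp only [shV, Prod.mk.injEq, and_true]; ring, rfl⟩
    · right; rw [← h1, ← h2]; exact ⟨by simp only [shV, Prod.mk.injEq, and_true]; ring, rfl⟩
  | true =>
    simp only [dtgt_mk, dsrc_true] at hc ⊢
    rcases hc with ⟨h1, h2⟩ | ⟨h1, h2⟩
    · left; rw [← h1, ← h2]; exact ⟨rfl, rfl⟩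
    · right; rw [← h1, ← h2]; exact ⟨rfl, rfl⟩

theorem sh_inv {s : ℤ} {G G' : Set Edg}
    (h : ∀ (x y : ℤ) (b : Bool), (x + s, y, b) ∈ G' ↔ (x, y, b) ∈ G) :
    ∀ (x y : ℤ) (b : Bool), (x + -s, y, b) ∈ G ↔ (x, y, b) ∈ G' := by
  intro x y b
  have := h (x + -s) y b
  rw [neg_add_cancel_right] at this
  exact this.symm

theorem shV_neg (s : ℤ) (u : Vtx) : shV (-s) (shV s u) = u := by
  unfold shV
  ext
  · simp
  · rfl

theorem sh_reach {s : ℤ} {G G' : Set Edg}
    (h : ∀ (x y : ℤ) (b : Bool), (x + s, y, b) ∈ G' ↔ (x, y, b) ∈ G) (u v : Vtx) :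
    Reach G' (shV s u) (shV s v) ↔ Reach G u v := by
  constructor
  · intro hr
    have := Relation.ReflTransGen.lift (shV (-s)) (fun a b hab => sh_adj (sh_inv h) hab) _ _ hr
    rw [Function.onFun, shV_neg, shV_neg] at this
    exact this
  · intro hr
    exact Relation.ReflTransGen.lift (shV s) (fun a b hab => sh_adj h hab) _ _ hr

theorem sh_dreach {s : ℤ} {G G' : Set Edg}
    (h : ∀ (x y : ℤ) (b : Bool), (x + s, y, b) ∈ G' ↔ (x, y, b) ∈ G) (u v : Vtx) :
    DReach G' (shV s u) (shV s v) ↔ DReach G u v := by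
  constructor
  · intro hr
    have := Relation.ReflTransGen.lift (shV (-s)) (fun a b hab => sh_dadj (sh_inv h) hab) _ _ hr
    rw [Function.onFun, shV_neg, shV_neg] at this
    exact this
  · intro hr
    exact Relation.ReflTransGen.lift (shV s) (fun a b hab => sh_dadj h hab) _ _ hr

theorem sh_mem_RE (a b c d s x y : ℤ) (t : Bool) :
    ((x + s, y, t) : Edg) ∈ RE (a + s) (b + s) c d ↔ ((x, y, t) : Edg) ∈ RE a b c d := by
  cases t
  · rw [mem_RE_false, mem_RE_false]; omega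
  · rw [mem_RE_true, mem_RE_true]; omega

theorem sh_mem_map (s : ℤ) (F : Finset Edg) (x y : ℤ) (t : Bool) :
    ((x + s, y, t) : Edg) ∈ F.map (shE s) ↔ ((x, y, t) : Edg) ∈ F := by
  have : ((x + s, y, t) : Edg) = shE s (x, y, t) := rfl
  rw [this, Finset.mem_map']

theorem sh_RE (a b c d s : ℤ) : RE (a + s) (b + s) c d = (RE a b c d).map (shE s) := by
  ext ⟨x, y, t⟩
  have h1 := sh_mem_RE a b c d s (x - s) y t
  have h2 := sh_mem_map s (RE a b c d) (x - s) y t
  rw [sub_add_cancel] at h1 h2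
  rw [h1, h2]

theorem t_sh : S_SH := by
  intro A B D w1 w2 w3 x1 y1 y2 j s
  rw [sh_RE A B 0 D s]
  unfold P2
  rw [Pr_map]
  refine Pr_congr ?_
  intro F _
  unfold TJ
  have hG : ∀ (x y : ℤ) (b : Bool), ((x + s, y, b) : Edg) ∈
      ((↑(F.map (shE s)) : Set Edg) ∩
        ↑(RE (A + s) (B + s) 0 D \ RE (w1 + s) (w2 + s) 0 w3)) ↔
      ((x, y, b) : Edg) ∈ ((↑F : Set Edg) ∩ ↑(RE A B 0 D \ RE w1 w2 0 w3)) := by
    intro x y b
    rw [Set.mem_inter_iff, Set.mem_inter_iff, Finset.mem_coe, Finset.mem_coe, Finset.mem_coe,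
      Finset.mem_coe, Finset.mem_sdiff, Finset.mem_sdiff, sh_mem_map, sh_mem_RE, sh_mem_RE]
  have hD : ∀ (x y : ℤ) (b : Bool), ((x + s, y, b) : Edg) ∈
      ((↑(F.map (shE s)) : Set Edg)ᶜ ∩ ↑(RE (A + s) (B + s) 0 D)) ↔
      ((x, y, b) : Edg) ∈ ((↑F : Set Edg)ᶜ ∩ ↑(RE A B 0 D)) := by
    intro x y b
    rw [Set.mem_inter_iff, Set.mem_inter_iff, Set.mem_compl_iff, Set.mem_compl_iff,
      Finset.mem_coe, Finset.mem_coe, Finset.mem_coe, Finset.mem_coe, sh_mem_map, sh_mem_RE]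
  refine and_congr ?_ ?_
  · constructor
    · rintro ⟨x, h1, h2, h3⟩
      refine ⟨x - s, by linarith, by linarith, ?_⟩
      rw [← sh_reach hG]
      have e1 : shV s (j, 0) = (j + s, 0) := rfl
      have e2 : shV s (x - s, 0) = (x, 0) := by
        unfold shV
        simp
      rw [e1, e2]
      exact h3
    · rintro ⟨x, h1, h2, h3⟩
      refine ⟨x + s, by linarith, by linarith, ?_⟩
      exact (sh_reach hG (j, 0) (x, 0)).2 h3
  · constructor
    · rintro ⟨y, h1, h2, h3⟩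
      refine ⟨y - s, by linarith, by linarith, ?_⟩
      rw [← sh_dreach hD]
      have e1 : shV s (y - s, -1) = (y, -1) := by
        unfold shV
        simp
      have e2 : shV s (j - 1, -1) = (j + s - 1, -1) := by
        unfold shV
        ext
        · show j - 1 + s = j + s - 1
          ring
        · rfl
      rw [e1, e2]
      exact h3
    · rintro ⟨y, h1, h2, h3⟩
      refine ⟨y + s, by linarith, by linarith, ?_⟩
      have := (sh_dreach hD (y, -1) (j - 1, -1)).2 h3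
      have e2 : shV s (j - 1, -1) = (j + s - 1, -1) := by
        unfold shV
        ext
        · show j - 1 + s = j + s - 1
          ring
        · rfl
      rw [e2] at this
      exact this

end H985LC
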