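import Pool.Agent.H985R6.LC.Defs
import Pool.Agent.H974R2.Count
import Pool.Agent.H731R3.Cardy.HalfBox

/-!
Task TB: the half-plane two-arm bound (helper996).
-/

set_option autoImplicit false
set_option maxHeartbeats 1000000

namespace H985LC

open H974 Finset H731C

namespace TB

/-- the chain of a path -/
theorem chain {G : Set Edg} {u v : Vtx} (h : Reach G u v) :
    ∃ Z : Edg → ZMod 2, (∀ e, Z e ≠ 0 → e ∈ G) ∧
      ∀ x y, Z (x, y, true) + Z (x - 1, y, true) + Z (x, y, false) + Z (x, y - 1, false)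
        = b2 (u = (x, y)) + b2 (v = (x, y)) := by
  have h1 : DReach (dl.symm '' G) u v := by
    rw [← reach_dl]
    have e1 : dl '' (dl.symm '' G) = G := by
      ext e
      simp
    rw [e1]
    exact h
  obtain ⟨Z, hZ1, hZ2⟩ := chain_of_dreach h1
  refine ⟨fun e => Z (dl.symm e), ?_, ?_⟩
  · intro e he
    obtain ⟨e', he', h2⟩ := hZ1 _ he
    have := dl.symm.injective h2
    rwa [← this]
  · intro x y
    rw [← hZ2 x y]
    simp only [dls_t, dls_f, bd, sub_add_cancel]
    ring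

theorem zz (a : ZMod 2) : a + a = 0 := zmod2_add_self a

/-- a dual path which starts below an open path stays below it -/
theorem enclosed {A B D j j' p : ℤ} {F G : Set Edg} (hD : 0 ≤ D) (hA : A ≤ j) (hB : j' ≤ B)
    (_hjj : j < j') (hp1 : j ≤ p) (hp2 : p < j')
    (h1 : Reach (F ∩ ↑(RE A B 0 D)) (j, 0) (j', 0)) (hG : ∀ e ∈ G, e ∉ F ∧ 0 ≤ e.2.1)
    {w : Vtx} (h2 : DReach G (p, -1) w) : A ≤ w.1 ∧ w.1 < B ∧ w.2 < D := by
  obtain ⟨Z, hZ1, hZ2⟩ := chain h1
  have hZout : ∀ e, e ∉ RE A B 0 D → Z e = 0 := by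
    intro e he
    by_contra h
    exact he (by exact_mod_cast (hZ1 e h).2)
  have hZF : ∀ e, e ∉ F → Z e = 0 := by
    intro e he
    by_contra h
    exact he (hZ1 e h).1
  set T : ℤ → ℤ → ZMod 2 := fun x y =>
    if y < 0 then b2 (j ≤ x) + b2 (j' ≤ x) else ∑ i ∈ Finset.Ico A (x + 1), Z (i, y, false)
    with hT
  have Tneg : ∀ x y, y < 0 → T x y = b2 (j ≤ x) + b2 (j' ≤ x) := by
    intro x y hy
    simp only [hT, if_pos hy]
  have Tpos : ∀ x y, 0 ≤ y → T x y = ∑ i ∈ Finset.Ico A (x + 1), Z (i, y, false) := by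
    intro x y hy
    simp only [hT, if_neg (not_lt.2 hy)]
  have Tlow : ∀ x y, x < A → T x y = 0 := by
    intro x y hx
    by_cases hy : y < 0
    · rw [Tneg x y hy, b2_not_of (by omega), b2_not_of (by omega), add_zero]
    · rw [Tpos x y (by omega), Finset.Ico_eq_empty (by omega), Finset.sum_empty]
  have T1 : ∀ x y, 0 ≤ y → T x y = T (x - 1) y + Z (x, y, false) := by
    intro x y hy
    by_cases hx : A ≤ x
    · rw [Tpos _ _ hy, Tpos _ _ hy, sum_Ico_int_succ hx, sub_add_cancel]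
    · rw [Tlow x y (by omega), Tlow (x - 1) y (by omega), hZout (x, y, false) (by simp; omega),
        add_zero]
  have T2n : ∀ (n : ℕ) (y : ℤ), 0 ≤ y →
      T (A - 1 + n) y = T (A - 1 + n) (y - 1) + Z (A - 1 + n, y, true) := by
    intro n y hy
    induction n with
    | zero =>
      rw [Tlow _ _ (by push_cast; omega), Tlow _ _ (by push_cast; omega),
        hZout (A - 1 + ((0 : ℕ) : ℤ), y, true) (by simp), add_zero]
    | succ n ih =>
      have e1 : A - 1 + ((n + 1 : ℕ) : ℤ) - 1 = A - 1 + n := by push_cast; ring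
      set x := A - 1 + ((n + 1 : ℕ) : ℤ) with hx
      rw [← e1] at ih
      have hv := hZ2 x y
      rw [T1 x y hy, ih]
      rcases lt_or_ge 0 y with hy0 | hy0
      · rw [T1 x (y - 1) (by omega)]
        rw [b2_not_of (by simp only [Prod.mk.injEq]; omega),
          b2_not_of (by simp only [Prod.mk.injEq]; omega), add_zero] at hv
        have k1 := zz (Z (x, y, true))
        have k2 := zz (Z (x, y - 1, false))
        linear_combination hv - k1 - k2
      · have hy1 : y = 0 := by omega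
        subst hy1
        rw [Tneg (x - 1) _ (by omega), Tneg x _ (by omega)]
        rw [hZout (x, 0 - 1, false) (by simp)] at hv
        have c1 : b2 (j ≤ x) = b2 (j ≤ x - 1) + b2 (((j, 0) : Vtx) = (x, 0)) := by
          rcases lt_trichotomy j x with h | h | h
          · rw [b2_of (by omega), b2_of (by omega), b2_not_of (by simp only [Prod.mk.injEq]; omega),
              add_zero]
          · rw [b2_of (by omega), b2_not_of (by omega), b2_of (by rw [h]), zero_add]
          · rw [b2_not_of (by omega), b2_not_of (by omega),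
              b2_not_of (by simp only [Prod.mk.injEq]; omega), add_zero]
        have c2 : b2 (j' ≤ x) = b2 (j' ≤ x - 1) + b2 (((j', 0) : Vtx) = (x, 0)) := by
          rcases lt_trichotomy j' x with h | h | h
          · rw [b2_of (by omega), b2_of (by omega), b2_not_of (by simp only [Prod.mk.injEq]; omega),
              add_zero]
          · rw [b2_of (by omega), b2_not_of (by omega), b2_of (by rw [h]), zero_add]
          · rw [b2_not_of (by omega), b2_not_of (by omega),
              b2_not_of (by simp only [Prod.mk.injEq]; omega), add_zero]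
        rw [c1, c2]
        have k1 := zz (Z (x, 0, true))
        linear_combination hv - k1
  have T2 : ∀ x y, 0 ≤ y → T x y = T x (y - 1) + Z (x, y, true) := by
    intro x y hy
    by_cases hx : A - 1 ≤ x
    · obtain ⟨n, hn⟩ := Int.eq_ofNat_of_zero_le (sub_nonneg.mpr hx)
      have e1 : x = A - 1 + n := by omega
      have := T2n n y hy
      rwa [← e1] at this
    · rw [Tlow x y (by omega), Tlow x (y - 1) (by omega), hZout (x, y, true) (by simp; omega),
        add_zero]
  -- constant along the dual path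
  have hpath : ∀ w : Vtx, DReach G (p, -1) w → T w.1 w.2 = 1 := by
    intro w hw
    induction hw with
    | refl =>
      simp only
      rw [Tneg _ _ (by omega), b2_of hp1, b2_not_of (by omega), add_zero]
    | @tail w' w'' _ hstep ih =>
      obtain ⟨⟨x0, y0, bo⟩, he, hcase⟩ := hstep
      obtain ⟨heF, hey⟩ := hG _ he
      simp only at hey
      have hZe := hZF _ heF
      cases bo
      · have h3 := T1 x0 y0 hey
        rw [hZe, add_zero] at h3
        simp only [dsrc_false, dtgt_mk] at hcase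
        rcases hcase with ⟨h4, h5⟩ | ⟨h4, h5⟩
        · rw [← h4] at ih; rw [← h5]; simp only at ih ⊢; rw [h3]; exact ih
        · rw [← h5] at ih; rw [← h4]; simp only at ih ⊢; rw [← h3]; exact ih
      · have h3 := T2 x0 y0 hey
        rw [hZe, add_zero] at h3
        simp only [dsrc_true, dtgt_mk] at hcase
        rcases hcase with ⟨h4, h5⟩ | ⟨h4, h5⟩
        · rw [← h4] at ih; rw [← h5]; simp only at ih ⊢; rw [h3]; exact ih
        · rw [← h5] at ih; rw [← h4]; simp only at ih ⊢; rw [← h3]; exact ih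
  have hw1 := hpath w h2
  have Ttop : ∀ x y, D ≤ y → T x y = 0 := by
    intro x y hy
    rw [Tpos x y (by omega)]
    apply Finset.sum_eq_zero
    intro i _
    exact hZout _ (by simp; omega)
  have Tright : ∀ (n : ℕ) (x y : ℤ), B ≤ x → D ≤ y + n → T x y = 0 := by
    intro n
    induction n with
    | zero =>
      intro x y _ hy
      exact Ttop x y (by push_cast at hy; omega)
    | succ n ih =>
      intro x y hx hy
      rcases lt_or_ge y (-1) with hy0 | hy0
      · rw [Tneg x y (by omega), b2_of (by omega), b2_of (by omega)]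
        exact zz 1
      · have h3 := T2 x (y + 1) (by omega)
        rw [hZout (x, y + 1, true) (by simp; omega), add_zero, add_sub_cancel_right] at h3
        rw [← h3]
        exact ih x (y + 1) hx (by push_cast at hy ⊢; omega)
  refine ⟨?_, ?_, ?_⟩
  · by_contra h
    rw [Tlow _ _ (by omega)] at hw1
    exact zero_ne_one hw1
  · by_contra h
    rw [Tright (D - w.2).toNat _ _ (by omega) (by omega)] at hw1
    exact zero_ne_one hw1
  · by_contra h
    rw [Ttop _ _ (by omega)] at hw1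
    exact zero_ne_one hw1

/-- two good vertices are in different clusters -/
theorem apart {j j' r R : ℤ} {F : Finset Edg} (hj : 1 ≤ j) (hjj : j < j') (hj' : 2 * j' ≤ r)
    (hR : j' ≤ R) (hRr : 2 * R + 1 ≤ r) (h : TA j' r F) :
    ¬ Reach ((↑F : Set Edg) ∩ ↑(RE (-R) R 0 R)) (j, 0) (j', 0) := by
  intro hcon
  obtain ⟨-, v, hv1, hv2⟩ := h
  have h3 : DReach (↑(RE (j' - 1 - r) (j' + r) 0 r \ F) : Set Edg) (j' - 1, -1) v := by
    rw [← reach_dl, ← coe_dmp]
    exact hv2.mono Set.inter_subset_left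
  obtain ⟨k1, k2, k3⟩ := enclosed (A := -R) (B := R) (D := R) (j := j) (j' := j') (p := j' - 1)
    (F := (↑F : Set Edg)) (by omega) (by omega) (by omega) hjj (by omega) (by omega) hcon (by
      rintro ⟨x, y, bo⟩ he
      rw [Finset.mem_coe, Finset.mem_sdiff] at he
      refine ⟨by exact_mod_cast he.2, ?_⟩
      simp only
      cases bo
      · have := he.1
        rw [mem_RE_false] at this
        exact this.2.2.1
      · have := he.1
        rw [mem_RE_true] at this
        exact this.2.2.1) h3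
  unfold onH at hv1
  omega

/-- a good vertex reaches the rim of the box -/
theorem exit {j r R : ℤ} {F : Finset Edg} (hj : -R ≤ j) (hjR : j ≤ R) (hR : 0 ≤ R)
    (hRr : 2 * R + 1 ≤ r) (h : AR j 0 r F) :
    ∃ v, onH 0 0 R v ∧ Reach ((↑F : Set Edg) ∩ ↑(RE (-R) R 0 R)) (j, 0) v := by
  obtain ⟨v, hv1, hv2⟩ := h
  obtain ⟨w, hw1, hw2, hw3⟩ := first_exit (a := -R) (b := R) (c := -1) (d := R) (u := (j, 0))
    ⟨⟨hj, hjR⟩, by show (-1 : ℤ) ≤ 0; omega, by show (0 : ℤ) ≤ R; omega⟩ hv2 (by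
      unfold onH at hv1
      omega)
  have hw4 : inR (j - r) (j + r) 0 (0 + r) w := by
    refine reach_inR (G := (↑F : Set Edg) ∩ ↑(RE (-R) R (-1) R))
      (u := (j, 0)) ⟨⟨by show j - r ≤ j; omega, by show j ≤ j + r; omega⟩, le_refl 0,
        by show (0 : ℤ) ≤ 0 + r; omega⟩ (hw3.mono ?_)
    rintro e ⟨⟨h1, h2⟩, h3⟩
    exact ⟨⟨h1, h3⟩, h2⟩
  refine ⟨w, ?_, hw3.mono ?_⟩
  · have := hw4.2.1
    unfold onH
    omega
  · rintro ⟨x, y, _ | _⟩ ⟨⟨h1, h2⟩, h3⟩
    · refine ⟨h1, ?_⟩
      rw [mem_coe, mem_RE_false] at h2 h3 ⊢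
      omega
    · refine ⟨h1, ?_⟩
      rw [mem_coe, mem_RE_true] at h2 h3 ⊢
      omega

/-- counting -/
theorem count {ρ r R : ℤ} {F : Finset Edg} (hρ : 1 ≤ ρ) (hρR : ρ ≤ R) (hRr : 2 * R + 1 ≤ r) :
    ∑ j ∈ Finset.Icc 1 ρ, ind (TA j r F) ≤
      ((NC src tgt (Finset.Icc 1 ρ ×ˢ {(0 : ℤ)}) {v | onH 0 0 R v}
        (↑(F ∩ RE (-R) R 0 R) : Set Edg) : ℕ) : ℝ) := by
  classical
  have h1 : ∑ j ∈ Finset.Icc 1 ρ, ind (TA j r F) =
      (((Finset.Icc 1 ρ).filter (fun j : ℤ => TA j r F)).card : ℝ) := by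
    rw [Finset.card_filter]
    push_cast
    apply Finset.sum_congr rfl
    intro k _
    unfold ind
    split_ifs <;> rfl
  rw [h1]
  have hco : (↑(F ∩ RE (-R) R 0 R) : Set Edg) = ↑F ∩ ↑(RE (-R) R 0 R) := by
    exact_mod_cast rfl
  unfold NC
  norm_cast
  set G : Set Edg := (↑(F ∩ RE (-R) R 0 R) : Set Edg) with hG
  have hne : ∀ j ∈ (Finset.Icc 1 ρ).filter (fun j : ℤ => TA j r F),
      ∀ j' ∈ (Finset.Icc 1 ρ).filter (fun j : ℤ => TA j r F), j < j' →
      ¬ Reach G (j, 0) (j', 0) := by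
    intro j hj j' hj' hlt
    rw [Finset.mem_filter, Finset.mem_Icc] at hj hj'
    rw [hco]
    exact apart hj.1.1 hlt (by omega) (by omega) hRr hj'.2
  apply Finset.card_le_card_of_injOn
    (fun j : ℤ => clu src tgt G ((j, 0) : Vtx))
  · intro j hj
    rw [Finset.mem_coe] at hj ⊢
    rw [mem_TC]
    rw [Finset.mem_filter, Finset.mem_Icc] at hj
    obtain ⟨v, hv1, hv2⟩ := exit (R := R) (by omega) (by omega) (by omega) hRr hj.2.1
    rw [← hco] at hv2
    refine ⟨(j, 0), ?_, ⟨v, hv1, hv2⟩, rfl⟩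
    rw [Finset.mem_product, Finset.mem_Icc, Finset.mem_singleton]
    exact ⟨hj.1, rfl⟩
  · intro j hj j' hj' heq
    rw [Finset.mem_coe] at hj hj'
    simp only at heq
    rcases lt_trichotomy j j' with h | h | h
    · exfalso
      apply hne j hj j' hj' h
      have : ((j', 0) : Vtx) ∈ clu src tgt G ((j, 0) : Vtx) := by
        rw [heq]; exact GR.refl _ _
      exact this
    · exact h
    · exfalso
      apply hne j' hj' j hj h
      have : ((j, 0) : Vtx) ∈ clu src tgt G ((j', 0) : Vtx) := by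
        rw [← heq]; exact GR.refl _ _
      exact this

theorem chooseL {C0 : ℝ} (hC0 : 0 < C0) :
    ∃ L : ℤ, 3 ≤ L ∧ C0 * ((1 : ℝ) / L) ^ ((1 : ℝ) / 3) ≤ 1 / 2 := by
  obtain ⟨N, hN⟩ := exists_nat_ge ((2 * C0) ^ 3)
  refine ⟨max 3 N, le_max_left _ _, ?_⟩
  have hL : (2 * C0) ^ 3 ≤ ((max 3 (N : ℤ) : ℤ) : ℝ) := by
    refine hN.trans ?_
    have : (N : ℤ) ≤ max 3 (N : ℤ) := le_max_right _ _
    exact_mod_cast this
  have hL0 : (0 : ℝ) < ((max 3 (N : ℤ) : ℤ) : ℝ) := lt_of_lt_of_le (by positivity) hL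
  have h1 : (1 : ℝ) / ((max 3 (N : ℤ) : ℤ) : ℝ) ≤ (1 / (2 * C0)) ^ 3 := by
    rw [one_div_pow]
    exact one_div_le_one_div_of_le (by positivity) hL
  have h2 : ((1 : ℝ) / ((max 3 (N : ℤ) : ℤ) : ℝ)) ^ ((1 : ℝ) / 3) ≤ 1 / (2 * C0) := by
    refine (Real.rpow_le_rpow (by positivity) h1 (by norm_num)).trans (le_of_eq ?_)
    rw [← Real.rpow_natCast, ← Real.rpow_mul (by positivity)]
    norm_num
  calc C0 * ((1 : ℝ) / ((max 3 (N : ℤ) : ℤ) : ℝ)) ^ ((1 : ℝ) / 3) ≤ C0 * (1 / (2 * C0)) :=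
        mul_le_mul_of_nonneg_left h2 hC0.le
    _ = 1 / 2 := by field_simp

end TB

/-- (TB) -/
theorem t_tb (hts : S_TS) : S_TB := by
  obtain ⟨C0, hC0, hHA⟩ := HA_upper
  obtain ⟨L, hL3, hL⟩ := TB.chooseL hC0
  have hLr : (3 : ℝ) ≤ L := by exact_mod_cast hL3
  refine ⟨64 * L, by positivity, ?_⟩
  intro k r hr S hS
  have hr0 : (0 : ℝ) < r := by exact_mod_cast (by omega : (0 : ℤ) < r)
  have hP0 : 0 ≤ P2 S (TA k r) := Pr_nonneg okhalf2 _ _
  have hP1 : P2 S (TA k r) ≤ 1 := Pr_le_one okhalf2 _ _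
  by_cases hr4 : r < 4 * L
  · refine hP1.trans ?_
    rw [le_div_iff₀ hr0, one_mul]
    have : (r : ℝ) < 4 * L := by exact_mod_cast hr4
    linarith
  · set ρ := r / (4 * L) with hρ
    have hL4 : 0 < 4 * L := by omega
    have hρ1 : 1 ≤ ρ := by
      rw [hρ, Int.le_ediv_iff_mul_le hL4]
      omega
    have hρ2 : ρ * (4 * L) ≤ r := Int.ediv_mul_le _ (by omega)
    have hρ3 : r < (ρ + 1) * (4 * L) := Int.lt_ediv_add_one_mul_self _ hL4
    have hLρ : 3 * ρ ≤ L * ρ := mul_le_mul_of_nonneg_right hL3 (by omega)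
    set R := L * ρ with hR
    have hRr : 4 * R ≤ r := by
      have : 4 * R = ρ * (4 * L) := by rw [hR]; ring
      omega
    set S' := RE (-r) (2 * r) 0 r with hS'
    have hQS : RE (-R) R 0 R ⊆ S' := RE_subset (by omega) (by omega) le_rfl (by omega)
    have hsum : ∑ j ∈ Finset.Icc 1 ρ, P2 S' (TA j r) ≤ 8 := by
      have e1 : ∑ j ∈ Finset.Icc 1 ρ, P2 S' (TA j r) =
          Ex (fun _ : Edg => (1/2 : ℝ)) S' (fun F => ∑ j ∈ Finset.Icc 1 ρ, ind (TA j r F)) := by
        rw [Ex_sum (fun _ : Edg => (1/2 : ℝ)) S' (Finset.Icc 1 ρ) (fun j F => ind (TA j r F))]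
        rfl
      rw [e1]
      have e2 : Ex (fun _ : Edg => (1/2 : ℝ)) S' (fun F => ∑ j ∈ Finset.Icc 1 ρ, ind (TA j r F)) ≤
          Ex (fun _ : Edg => (1/2 : ℝ)) S' (fun F => ((NC src tgt (Finset.Icc 1 ρ ×ˢ {(0 : ℤ)})
            {v | onH 0 0 R v} (↑(F ∩ RE (-R) R 0 R) : Set Edg) : ℕ) : ℝ)) := by
        apply Ex_mono okhalf2
        intro F _
        exact TB.count hρ1 (by omega) (by omega)
      have e3 : Ex (fun _ : Edg => (1/2 : ℝ)) S' (fun F => ((NC src tgt
            (Finset.Icc 1 ρ ×ˢ {(0 : ℤ)})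
            {v | onH 0 0 R v} (↑(F ∩ RE (-R) R 0 R) : Set Edg) : ℕ) : ℝ)) =
          Ex (fun _ : Edg => (1/2 : ℝ)) (RE (-R) R 0 R) (fun F => ((NC src tgt
            (Finset.Icc 1 ρ ×ˢ {(0 : ℤ)})
            {v | onH 0 0 R v} (↑(F ∩ RE (-R) R 0 R) : Set Edg) : ℕ) : ℝ)) := by
        apply Ex_local hQS
        intro F _
        rw [Finset.inter_assoc, Finset.inter_self]
      have e4 : Ex (fun _ : Edg => (1/2 : ℝ)) (RE (-R) R 0 R) (fun F => ((NC src tgt
            (Finset.Icc 1 ρ ×ˢ {(0 : ℤ)})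
            {v | onH 0 0 R v} (↑(F ∩ RE (-R) R 0 R) : Set Edg) : ℕ) : ℝ)) ≤
          Ex (fun _ : Edg => (1/2 : ℝ)) (RE (-R) R 0 R) (fun F => ((NC src tgt
            (Finset.Icc 1 ρ ×ˢ {(0 : ℤ)})
            {v | onH 0 0 R v} (↑F : Set Edg) : ℕ) : ℝ) ^ 2) := by
        apply Ex_mono okhalf2
        intro F hF
        rw [Finset.inter_eq_left.mpr hF]
        exact_mod_cast Nat.le_self_pow (by norm_num) _
      have e5 := NC_sq okhalf2 (RE (-R) R 0 R) src tgt (Finset.Icc 1 ρ ×ˢ {(0 : ℤ)})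
        {v | onH 0 0 R v} (lam := 1 / 2) (by norm_num) (by
          have k1 := hHA 0 0 ρ R hρ1 (by omega) (RE (-R) R 0 R)
            (RE_subset (by omega) (by omega) le_rfl (by omega))
          have k2 : C0 * ((ρ : ℝ) / R) ^ ((1 : ℝ) / 3) ≤ 1 / 2 := by
            have : (ρ : ℝ) / R = 1 / L := by
              have hρ0 : (ρ : ℝ) ≠ 0 := by
                have : (0 : ℤ) < ρ := by omega
                exact_mod_cast this.ne'
              rw [hR]
              push_cast
              field_simp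
            rw [this]
            exact hL
          refine le_trans (Pr_mono okhalf2 ?_) (k1.trans k2)
          rintro G hG ⟨x, hx, v, hv, hp⟩
          rw [Finset.mem_product, Finset.mem_Icc, Finset.mem_singleton] at hx
          refine ⟨x, v, ⟨⟨by omega, by omega⟩, by omega, by omega⟩, hv, ?_⟩
          refine Reach.mono ?_ (show Reach (↑G : Set Edg) x v from hp)
          intro e he
          refine ⟨he, ?_⟩
          have h4 : e ∈ RE (-R) R 0 R := hG (by exact_mod_cast he)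
          have h5 : RE (-R) R 0 R ⊆ RE (0 - R) (0 + R) 0 (0 + R) :=
            RE_subset (by omega) (by omega) le_rfl (by omega)
          exact_mod_cast h5 h4)
      have e6 : (2 : ℝ) / (1 - 1 / 2) ^ 2 = 8 := by norm_num
      rw [e6] at e5
      linarith [e2, e3, e4, e5]
    have heach : ∀ j ∈ Finset.Icc 1 ρ, P2 S' (TA j r) = P2 S (TA k r) := by
      intro j hj
      rw [Finset.mem_Icc] at hj
      exact hts j k r hr S' S (RE_subset (by omega) (by omega) le_rfl le_rfl) hS
    rw [Finset.sum_congr rfl heach, Finset.sum_const, nsmul_eq_mul] at hsum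
    have hcard : ((Finset.Icc 1 ρ).card : ℝ) = ρ := by
      rw [Int.card_Icc]
      have : (((ρ + 1 - 1).toNat : ℤ) : ℝ) = ((ρ : ℤ) : ℝ) := by
        congr 1
        omega
      exact_mod_cast this
    rw [hcard] at hsum
    rw [le_div_iff₀ hr0]
    have hρr : (1 : ℝ) ≤ ρ := by exact_mod_cast hρ1
    have hrρ : (r : ℝ) ≤ 8 * L * ρ := by
      have k1 : (r : ℝ) < (ρ + 1) * (4 * L) := by exact_mod_cast hρ3
      nlinarith
    calc P2 S (TA k r) * r ≤ P2 S (TA k r) * (8 * L * ρ) := mul_le_mul_of_nonneg_left hrρ hP0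
      _ = 8 * L * (ρ * P2 S (TA k r)) := by ring
      _ ≤ 8 * L * 8 := mul_le_mul_of_nonneg_left hsum (by positivity)
      _ = 64 * L := by ring

end H985LC
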