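import Pool.Agent.H985R6.LC.Aux278

/-! Task TF. -/

set_option autoImplicit false

namespace H985LC

open H974 Finset H731C

theorem t_tf : S_TF := by
  intro M N k w1 w2 w3 x1 y1 y2 F hk hkM hN hNM hx1 hy1 hy2 hTJ
  obtain ⟨⟨x, hx, hxx, hr⟩, y, hyl, hyu, hd⟩ := hTJ
  have hr' := AX.ext_box hr
  refine ⟨⟨x, k, ⟨hx, by omega⟩, ⟨by omega, le_rfl⟩, hr'.symm⟩, ?_⟩
  rintro ⟨v, u, ⟨hv1, hv2⟩, ⟨hu1, hu2⟩, hvu⟩
  exact no_half (u := u) (v := v) ⟨by omega, by omega⟩ (Or.inl (by omega)) hd hvu.symm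

end H985LC
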