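import Pool.Agent.H985R6.LC.Defs

set_option autoImplicit false

namespace H985LC

open H974 Finset H731C

namespace TS

theorem AR_loc {z t n : ℤ} {T F : Finset Edg} (hT : RE (z - n) (z + n) t (t + n) ⊆ T) :
    AR z t n (F ∩ T) ↔ AR z t n F := by
  have e : ((↑(F ∩ T) : Set Edg) ∩ ↑(RE (z - n) (z + n) t (t + n)))
      = (↑F : Set Edg) ∩ ↑(RE (z - n) (z + n) t (t + n)) := by
    ext x
    simp only [Set.mem_inter_iff, Finset.mem_coe, Finset.mem_inter]
    constructor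
    · rintro ⟨⟨h1, h2⟩, h3⟩; exact ⟨h1, h3⟩
    · rintro ⟨h1, h3⟩; exact ⟨⟨h1, hT h3⟩, h3⟩
  unfold AR
  rw [e]

theorem AR_trl {z t n s u : ℤ} {F : Finset Edg} (h : AR z t n F) :
    AR (z + s) (t + u) n ((trl s u).mp F) := by
  obtain ⟨v, h1, h2⟩ := h
  refine ⟨(trl s u).ψ v, ?_, ?_⟩
  · obtain ⟨v1, v2⟩ := v
    simp only [onH, trl_ψ] at *
    omega
  · have h3 := (trl s u).reach h2
    rw [LSym.image_inter, trl_RE, trl_ψ] at h3
    have e : RE (z - n + s) (z + n + s) (t + u) (t + n + u)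
        = RE (z + s - n) (z + s + n) (t + u) (t + u + n) := by
      congr 1 <;> ring
    rwa [e] at h3

theorem AR_trl_iff {z t n s u : ℤ} {F : Finset Edg} :
    AR (z + s) (t + u) n ((trl s u).mp F) ↔ AR z t n F := by
  constructor
  · intro h
    have h1 := AR_trl (s := -s) (u := -u) h
    rw [trl_trl] at h1
    have e1 : z + s + -s = z := by ring
    have e2 : t + u + -u = t := by ring
    rwa [e1, e2] at h1
  · exact AR_trl

theorem dmp_trl (s u : ℤ) (F : Finset Edg) : dmp ((trl s u).mp F) = (trl s u).mp (dmp F) := by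
  ext ⟨x, y, _ | _⟩
  · rw [mem_dmp, LSym.mem_mp, LSym.mem_mp, mem_dmp]
    simp only [dls_f, trl_φs]
    rw [show y + 1 - u = y - u + 1 by ring]
  · rw [mem_dmp, LSym.mem_mp, LSym.mem_mp, mem_dmp]
    simp only [dls_t, trl_φs]
    rw [show x + 1 - s = x - s + 1 by ring]

theorem TA_loc {k r : ℤ} {F : Finset Edg} :
    TA k r (F ∩ RE (k - 1 - r) (k + r) 0 r) ↔ TA k r F := by
  unfold TA
  have h1 : RE (k - r) (k + r) 0 (0 + r) ⊆ RE (k - 1 - r) (k + r) 0 r := by
    rintro ⟨x, y, _ | _⟩ hx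
    · rw [mem_RE_false] at *; omega
    · rw [mem_RE_true] at *; omega
  rw [AR_loc h1]
  have h2 : RE (k - 1 - r) (k + r) 0 r \ (F ∩ RE (k - 1 - r) (k + r) 0 r)
      = RE (k - 1 - r) (k + r) 0 r \ F := by
    ext e
    simp only [Finset.mem_sdiff, Finset.mem_inter]
    tauto
  rw [h2]

theorem TA_trl {k s r : ℤ} {F : Finset Edg} :
    TA (k + s) r ((trl s 0).mp F) ↔ TA k r F := by
  unfold TA
  have e0 : RE (k + s - 1 - r) (k + s + r) 0 r = (trl s 0).mp (RE (k - 1 - r) (k + r) 0 r) := by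
    rw [trl_RE]
    congr 1 <;> ring
  rw [e0, ← LSym.mp_sdiff, dmp_trl]
  have h1 := AR_trl_iff (z := k) (t := 0) (n := r) (s := s) (u := 0) (F := F)
  have h2 := AR_trl_iff (z := k - 1) (t := -1) (n := r) (s := s) (u := 0)
    (F := dmp (RE (k - 1 - r) (k + r) 0 r \ F))
  rw [add_zero] at h1 h2
  rw [show k - 1 + s = k + s - 1 by ring] at h2
  rw [h1, h2]

end TS

theorem t_ts : S_TS := by
  intro k k' r _ S S' hS hS'
  have h1 : ∀ (k : ℤ) (S : Finset Edg), RE (k - 1 - r) (k + r) 0 r ⊆ S →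
      P2 S (TA k r) = P2 (RE (k - 1 - r) (k + r) 0 r) (TA k r) := by
    intro k S hS
    rw [← P2_restrict hS (TA k r)]
    congr 1
    funext F
    exact propext TS.TA_loc.symm
  rw [h1 k S hS, h1 k' S' hS']
  have e0 : RE (k' - 1 - r) (k' + r) 0 r
      = (trl (k' - k) 0).mp (RE (k - 1 - r) (k + r) 0 r) := by
    rw [trl_RE]
    congr 1 <;> ring
  rw [e0]
  unfold P2
  rw [LSym.pr]
  congr 1
  funext F
  have h2 := TS.TA_trl (k := k) (s := k' - k) (r := r) (F := F)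
  rw [show k + (k' - k) = k' by ring] at h2
  exact propext h2.symm

end H985LC
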