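import Pool.Agent.H985R6.LC.Defs
import Pool.Agent.H731R3.Cardy.Circ

/-!
# Local Cardy, task TU: ring crossings (RSW)
-/

set_option autoImplicit false

namespace H985LC

open H974 Finset H731C

namespace TUaux

theorem hh_long (k : ℕ) {m : ℤ} (hm : 0 < m) :
    (1/2:ℝ)^(48 * (k + 1)) ≤ hh (1/2) ((8 + 6 * (k : ℤ)) * m) (2 * m) := by
  have h0 : (0:ℝ) ≤ 1/2 := by norm_num
  have h1 : (1/2:ℝ) ≤ 1 := by norm_num
  induction k with
  | zero =>
    have := hh_82 hm
    simp only [Nat.cast_zero, mul_zero, add_zero, zero_add, mul_one]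
    refine le_trans ?_ this
    exact pow_le_pow_of_le_one (by norm_num) (by norm_num) (by norm_num)
  | succ k ih =>
    have g := hh_glue h0 h1 (w1 := (8 + 6 * (k : ℤ)) * m) (w2 := 8 * m) (v := 2 * m) (h := 2 * m)
      (by omega) (by nlinarith [Int.natCast_nonneg k, mul_nonneg (Int.natCast_nonneg k) hm.le])
      (by omega) (by omega)
    have e : (8 + 6 * (k : ℤ)) * m + 8 * m - 2 * m = (8 + 6 * ((k + 1 : ℕ) : ℤ)) * m := by
      push_cast; ring
    rw [e] at g
    refine le_trans ?_ g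
    have a1 := hh_82 hm
    have a2 := hh_square (2 * m) (by omega)
    have p1 : (0:ℝ) < (1/2)^(48 * (k + 1)) := by positivity
    calc (1/2:ℝ)^(48 * (k + 1 + 1)) = (1/2:ℝ)^(48 * (k + 1)) * (1/2:ℝ)^47 * (1/2) := by
          rw [← pow_add, ← pow_succ]; congr 1
      _ ≤ _ := mul_le_mul (mul_le_mul ih a1 (by positivity) (p1.le.trans ih)) a2 (by norm_num)
          (mul_nonneg (p1.le.trans ih) (le_trans (by positivity) a1))

theorem hh_thin (n : ℕ) : (1/2:ℝ)^(2 * n + 1) ≤ hh (1/2) ((n : ℤ) + 1) 1 := by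
  have h0 : (0:ℝ) ≤ 1/2 := by norm_num
  have h1 : (1/2:ℝ) ≤ 1 := by norm_num
  induction n with
  | zero =>
    have := hh_square 1 one_pos
    simpa using this
  | succ n ih =>
    have g := hh_glue h0 h1 (w1 := (n : ℤ) + 1) (w2 := 2) (v := 1) (h := 1) one_pos (by omega)
      (by omega) one_pos
    have e : (n : ℤ) + 1 + 2 - 1 = ((n + 1 : ℕ) : ℤ) + 1 := by push_cast; ring
    rw [e] at g
    refine le_trans ?_ g
    have a1 : hh (1/2) 2 1 = 1/2 := hh_half 1 zero_le_one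
    have a2 := hh_square 1 one_pos
    rw [a1]
    calc (1/2:ℝ)^(2 * (n + 1) + 1) = (1/2:ℝ)^(2 * n + 1) * (1/2) * (1/2) := by
          rw [← pow_succ, ← pow_succ]; congr 1
      _ ≤ _ := mul_le_mul (mul_le_mul_of_nonneg_right ih (by norm_num)) a2 (by norm_num)
          (mul_nonneg (le_trans (by positivity) ih) (by norm_num))

theorem hh_gen (K : ℕ) {g w : ℤ} (hg : 1 ≤ g) (hw : 0 < w) (hwK : w ≤ K * g) :
    (1/2:ℝ)^(48 * (K + 1)) ≤ hh (1/2) w g := by
  rcases eq_or_lt_of_le hg with h | h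
  · subst h
    have h2 := hh_thin K
    have h3 : hh (1/2) ((K : ℤ) + 1) 1 ≤ hh (1/2) w 1 :=
      hh_mono (by norm_num) (by norm_num) hw (by omega) le_rfl
    refine le_trans ?_ (h2.trans h3)
    exact pow_le_pow_of_le_one (by norm_num) (by norm_num) (by omega)
  · have hm : 0 < g / 2 := by omega
    have h2 := hh_long K hm
    refine h2.trans (hh_mono (by norm_num) (by norm_num) hw ?_ (by omega))
    have h3 : g ≤ 3 * (g / 2) := by omega
    have hK : (0 : ℤ) ≤ K := Int.natCast_nonneg K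
    have h4 : (K : ℤ) * g ≤ K * (3 * (g / 2)) := mul_le_mul_of_nonneg_left h3 hK
    nlinarith [mul_nonneg hK hm.le]

end TUaux

open TUaux in
theorem t_tu : S_TU := by
  intro κ hκ
  obtain ⟨K, hK⟩ : ∃ K : ℕ, (K : ℤ) = 2 * (κ + 1) := ⟨(2 * (κ + 1)).toNat, by omega⟩
  refine ⟨(1/2:ℝ)^(48 * (K + 1)) * ((1/2:ℝ)^(48 * (K + 1)) * (1/2:ℝ)^(48 * (K + 1))),
    by positivity, ?_⟩
  intro t p q H g hg hpq hH hκg S hS
  set P : ℝ := (1/2:ℝ)^(48 * (K + 1)) with hP
  have hP0 : 0 ≤ P := by positivity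
  have sT' : LRE (p - g) (q + g) (t + H + 1) (t + H + g) ⊆
      VE (p - g) (q + g) t (t + H + g) \ RE p q t (t + H) := by
    rintro ⟨x, y, _ | _⟩ h
    · simp only [mem_sdiff, mem_VE_false, mem_LRE_false, mem_RE_false] at h ⊢; omega
    · simp only [mem_sdiff, mem_VE_true, mem_LRE_true, mem_RE_true] at h ⊢; omega
  have sR' : TBE (q + 1) (q + g) t (t + H + g) ⊆
      VE (p - g) (q + g) t (t + H + g) \ RE p q t (t + H) := by
    rintro ⟨x, y, _ | _⟩ h
    · simp only [mem_sdiff, mem_VE_false, mem_TBE_false, mem_RE_false] at h ⊢; omega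
    · simp only [mem_sdiff, mem_VE_true, mem_TBE_true, mem_RE_true] at h ⊢; omega
  have sL' : TBE (p - g) (p - 1) t (t + H + g) ⊆
      VE (p - g) (q + g) t (t + H + g) \ RE p q t (t + H) := by
    rintro ⟨x, y, _ | _⟩ h
    · simp only [mem_sdiff, mem_VE_false, mem_TBE_false, mem_RE_false] at h ⊢; omega
    · simp only [mem_sdiff, mem_VE_true, mem_TBE_true, mem_RE_true] at h ⊢; omega
  have sT := (sT'.trans sdiff_subset).trans hS
  have sR := (sR'.trans sdiff_subset).trans hS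
  have sL := (sL'.trans sdiff_subset).trans hS
  have e1 := pr_LRc (1/2) sT
  have e2 := pr_TBc (1/2) sR
  have e3 := pr_TBc (1/2) sL
  have hw1 : t + H + g - t ≤ K * (g - 1) := by
    rw [hK]; nlinarith
  have hw2 : q + g - (p - g) ≤ K * (g - 1) := by
    rw [hK]; nlinarith
  have k1 : P ≤ Pr (fun _ => (1/2 : ℝ)) S
      (LRc (p - g) (q + g) (t + H + 1) (t + H + g)) := by
    rw [e1]
    have d : t + H + g - (t + H + 1) = g - 1 := by ring
    rw [d]
    exact hh_gen K (by omega) (by omega) hw2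
  have k2 : P ≤ Pr (fun _ => (1/2 : ℝ)) S (TBc (q + 1) (q + g) t (t + H + g)) := by
    rw [e2]
    have d : q + g - (q + 1) = g - 1 := by ring
    rw [d]
    exact hh_gen K (by omega) (by omega) hw1
  have k3 : P ≤ Pr (fun _ => (1/2 : ℝ)) S (TBc (p - g) (p - 1) t (t + H + g)) := by
    rw [e3]
    have d : p - 1 - (p - g) = g - 1 := by ring
    rw [d]
    exact hh_gen K (by omega) (by omega) hw1
  have i2 := Pr_harris okhalf2 (TBc_incr S (q + 1) (q + g) t (t + H + g))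
    (TBc_incr S (p - g) (p - 1) t (t + H + g))
  have c2 : IncrE S (fun F => TBc (q + 1) (q + g) t (t + H + g) F ∧
      TBc (p - g) (p - 1) t (t + H + g) F) :=
    fun F G hFG _ hF => ⟨hF.1.mono hFG, hF.2.mono hFG⟩
  have i3 := Pr_harris okhalf2 (LRc_incr S (p - g) (q + g) (t + H + 1) (t + H + g)) c2
  have i4 : Pr (fun _ => (1/2 : ℝ)) S (fun F =>
      LRc (p - g) (q + g) (t + H + 1) (t + H + g) F ∧
        (TBc (q + 1) (q + g) t (t + H + g) F ∧ TBc (p - g) (p - 1) t (t + H + g) F)) ≤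
      Pr (fun _ => (1/2 : ℝ)) S (TU t p q H g) := by
    apply Pr_mono okhalf2
    rintro F _ ⟨⟨y, y', hy, hy', hT⟩, ⟨xr, xr', hr, hr', hR⟩, ⟨xl, xl', hl, hl', hL⟩⟩
    set G : Set Edg := (↑F : Set Edg) ∩
      ↑(VE (p - g) (q + g) t (t + H + g) \ RE p q t (t + H)) with hG
    have hT' : Reach (G ∩ ↑(RE (p - g) (q + g) (t + H + 1) (t + H + g))) (p - g, y)
        (q + g, y') := hT.mono (by
      rintro e ⟨h1, h2⟩
      exact ⟨⟨h1, Finset.mem_coe.mpr (sT' (Finset.mem_coe.mp h2))⟩,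
        Finset.mem_coe.mpr (LRE_subset_RE (Finset.mem_coe.mp h2))⟩)
    have hR' : Reach (G ∩ ↑(RE (q + 1) (q + g) t (t + H + g))) (xr, t) (xr', t + H + g) :=
      hR.mono (by
      rintro e ⟨h1, h2⟩
      exact ⟨⟨h1, Finset.mem_coe.mpr (sR' (Finset.mem_coe.mp h2))⟩,
        Finset.mem_coe.mpr (TBE_subset_RE (Finset.mem_coe.mp h2))⟩)
    have hL' : Reach (G ∩ ↑(RE (p - g) (p - 1) t (t + H + g))) (xl, t) (xl', t + H + g) :=
      hL.mono (by
      rintro e ⟨h1, h2⟩
      exact ⟨⟨h1, Finset.mem_coe.mpr (sL' (Finset.mem_coe.mp h2))⟩,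
        Finset.mem_coe.mpr (TBE_subset_RE (Finset.mem_coe.mp h2))⟩)
    have mTR : Reach (G ∩ ↑(RE (p - g) (q + g) t (t + H + g))) (p - g, y) (xr, t) :=
      cross_meet (by omega) (by omega) le_rfl (by omega) (by omega) le_rfl hT'
        (by simp only; omega) le_rfl hR' (by simp only; omega) le_rfl
    have mTL : Reach (G ∩ ↑(RE (p - g) (q + g) t (t + H + g))) (p - g, y) (xl, t) :=
      cross_meet le_rfl (by omega) (by omega) (by omega) (by omega) le_rfl hT' le_rfl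
        (by simp only; omega) hL' (by simp only; omega) le_rfl
    refine ⟨xr, xl, by omega, by omega, ?_⟩
    exact (mTR.symm.trans mTL).mono Set.inter_subset_left
  calc P * (P * P)
      ≤ Pr (fun _ => (1/2 : ℝ)) S (LRc (p - g) (q + g) (t + H + 1) (t + H + g)) *
        (Pr (fun _ => (1/2 : ℝ)) S (TBc (q + 1) (q + g) t (t + H + g)) *
          Pr (fun _ => (1/2 : ℝ)) S (TBc (p - g) (p - 1) t (t + H + g))) :=
        mul_le_mul k1 (mul_le_mul k2 k3 hP0 (hP0.trans k2)) (by positivity) (hP0.trans k1)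
    _ ≤ _ := mul_le_mul_of_nonneg_left i2 (hP0.trans k1)
    _ ≤ _ := i3
    _ ≤ _ := i4

end H985LC
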