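import Pool.Agent.H985R6.LC.Defs
import Pool.Agent.H731R3.Cardy.Compl

set_option autoImplicit false

namespace H985LC

open H974 Finset H731C

theorem U2_TA_loc (k r : ℤ) (F : Finset Edg) (h : TA k r F) :
    TA k r (F ∩ RE (k - 1 - r) (k + r) 0 r) := by
  obtain ⟨h1, h2⟩ := h
  constructor
  · obtain ⟨v, hv, hr⟩ := h1
    refine ⟨v, hv, hr.mono ?_⟩
    rintro e ⟨he1, he2⟩
    refine ⟨?_, he2⟩
    have he3 : e ∈ RE (k - r) (k + r) 0 (0 + r) := Finset.mem_coe.1 he2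
    have he4 : e ∈ RE (k - 1 - r) (k + r) 0 r :=
      RE_subset (by omega) le_rfl le_rfl (by omega) he3
    exact Finset.mem_coe.2 (Finset.mem_inter.2 ⟨Finset.mem_coe.1 he1, he4⟩)
  · have h3 : RE (k - 1 - r) (k + r) 0 r \ (F ∩ RE (k - 1 - r) (k + r) 0 r) =
        RE (k - 1 - r) (k + r) 0 r \ F := by
      ext e
      simp only [Finset.mem_sdiff, Finset.mem_inter]
      tauto
    rw [h3]
    exact h2

theorem U2_noCN : ∃ C : ℝ, 0 < C ∧ ∀ rho N : ℤ, 100 ≤ rho → 1 ≤ N → 4 * N ≤ rho →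
    P2 (RE (-rho) rho 0 rho) (fun F => ¬ CN (-rho) (-N) 0 rho (-rho) rho 0 rho F) ≤
      C * ((N : ℝ) / rho) ^ ((1 : ℝ) / 3) := by
  obtain ⟨C, hC, hH⟩ := HA_upper
  refine ⟨C * 2 ^ ((1 : ℝ) / 3), by positivity, fun rho N hrho hN hNr => ?_⟩
  obtain ⟨n, hn⟩ : ∃ n, n = rho - N - 2 := ⟨_, rfl⟩
  have hN0 : (0 : ℝ) < N := by exact_mod_cast (by omega : (0 : ℤ) < N)
  have hn0 : (0 : ℝ) < n := by exact_mod_cast (by omega : (0 : ℤ) < n)
  have hrho0 : (0 : ℝ) < rho := by exact_mod_cast (by omega : (0 : ℤ) < rho)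
  have hcb : (0 : ℤ) - -N = N := by ring
  have hstep : P2 (RE (-rho) rho 0 rho) (fun F => ¬ CN (-rho) (-N) 0 rho (-rho) rho 0 rho F) ≤
      P2 (dmp (RE (-rho) rho 0 rho)) (HA (-N) (-1) N n) := by
    rw [← P2_dual]
    apply Pr_mono okhalf2
    intro F hF h
    have h1 := dual_arm (a := -rho) (b := -N) (c := 0) (d := rho) (A := -rho) (B := rho)
      (D := rho) (n := n) (F := F) (by omega) (by omega) (by omega) (by omega) (by omega)
      (by omega) (by omega) (by omega) (by omega) h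
    rw [hcb] at h1
    exact h1
  have hstep2 : P2 (dmp (RE (-rho) rho 0 rho)) (HA (-N) (-1) N n) ≤
      P2 (dmp (RE (-rho) rho 0 rho) ∪ RE (-N - n) (-N + n) (-1) (-1 + n)) (HA (-N) (-1) N n) :=
    Pr_mono_set okhalf2 Finset.subset_union_left (HA_incr _ _ _ _ _)
  have hstep3 := hH (-N) (-1) N n (by omega) (by omega)
    (dmp (RE (-rho) rho 0 rho) ∪ RE (-N - n) (-N + n) (-1) (-1 + n)) Finset.subset_union_right
  refine hstep.trans (hstep2.trans (hstep3.trans ?_))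
  have h1 : (N : ℝ) / n ≤ 2 * ((N : ℝ) / rho) := by
    have h2 : (rho : ℝ) ≤ 2 * n := by exact_mod_cast (by omega : rho ≤ 2 * n)
    rw [mul_div_assoc', div_le_div_iff₀ hn0 hrho0]
    nlinarith
  calc C * ((N : ℝ) / n) ^ ((1 : ℝ) / 3) ≤ C * (2 * ((N : ℝ) / rho)) ^ ((1 : ℝ) / 3) :=
        mul_le_mul_of_nonneg_left (Real.rpow_le_rpow (by positivity) h1 (by norm_num)) hC.le
    _ = C * 2 ^ ((1 : ℝ) / 3) * ((N : ℝ) / rho) ^ ((1 : ℝ) / 3) := by
        rw [Real.mul_rpow (by norm_num) (by positivity)]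
        ring

/-- `t ≤ t^(1/3)` for `0 ≤ t ≤ 1` -/
theorem U2_rpow {t : ℝ} (h0 : 0 < t) (h1 : t ≤ 1) : t ≤ t ^ ((1 : ℝ) / 3) := by
  calc t = t ^ (1 : ℝ) := (Real.rpow_one t).symm
    _ ≤ t ^ ((1 : ℝ) / 3) := Real.rpow_le_rpow_of_exponent_ge h0 h1 (by norm_num)

theorem t_u2 (htb : S_TB) (hft : S_FT) : S_U2 := by
  obtain ⟨C1, hC1, hTB⟩ := htb
  obtain ⟨C2, hC2, hCN⟩ := U2_noCN
  have h4 : (0 : ℝ) < 4 ^ ((1 : ℝ) / 3) := by positivity
  refine ⟨40000 + 256 * C1 + 16 * C1 * (C2 * 4 ^ ((1 : ℝ) / 3)), by positivity, ?_⟩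
  intro k N M hk hN hNk hM
  have hk0 : (0 : ℝ) < k := by exact_mod_cast (by omega : (0 : ℤ) < k)
  have hN0 : (0 : ℝ) < N := by exact_mod_cast (by omega : (0 : ℤ) < N)
  have hN1 : (1 : ℝ) ≤ N := by exact_mod_cast hN
  obtain ⟨Z, hZ⟩ : ∃ Z : ℝ, Z = ((N : ℝ) / k) ^ ((1 : ℝ) / 3) := ⟨_, rfl⟩
  have hZ0 : 0 < Z := by rw [hZ]; positivity
  rw [← hZ]
  -- a general lower bound for `Z`
  have hZl : ∀ D : ℝ, 1 ≤ D → (k : ℝ) ≤ D * N → 1 / D ≤ Z := by
    intro D hD hkD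
    have h1 : 1 / D ≤ (N : ℝ) / k := by
      rw [div_le_div_iff₀ (by linarith) hk0]
      linarith
    have h2 : (1 / D : ℝ) ≤ (1 / D) ^ ((1 : ℝ) / 3) :=
      U2_rpow (by positivity) (by rw [div_le_one (by linarith)]; exact hD)
    rw [hZ]
    exact h2.trans (Real.rpow_le_rpow (by positivity) h1 (by norm_num))
  have hT2 : 0 ≤ 256 * C1 * (1 / k * Z) := by positivity
  have hT3 : 0 ≤ 16 * C1 * (C2 * 4 ^ ((1 : ℝ) / 3)) * (1 / k * Z) := by positivity
  have hT1 : 0 ≤ 40000 * (1 / k * Z) := by positivity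
  have hgoal : (40000 + 256 * C1 + 16 * C1 * (C2 * 4 ^ ((1 : ℝ) / 3))) / k * Z =
      40000 * (1 / k * Z) + 256 * C1 * (1 / k * Z) +
        16 * C1 * (C2 * 4 ^ ((1 : ℝ) / 3)) * (1 / k * Z) := by ring
  rw [hgoal]
  rcases lt_or_ge k 200 with hlt | hge
  · have h1 : P2 (BX M) (FH M N k) ≤ 1 := Pr_le_one okhalf2 _ _
    have hk200 : (k : ℝ) ≤ 200 := by exact_mod_cast (by omega : k ≤ 200)
    have h2 : 1 / 200 ≤ Z := hZl 200 (by norm_num) (by nlinarith)
    have h3 : (1 : ℝ) ≤ 40000 * (1 / k * Z) := by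
      have h5 : (1 : ℝ) / 200 ≤ 1 / k := by
        rw [div_le_div_iff₀ (by norm_num) hk0]
        linarith
      have h6 : (1 / 200 : ℝ) * (1 / 200) ≤ 1 / k * Z :=
        mul_le_mul h5 h2 (by norm_num) (by positivity)
      linarith
    linarith
  · obtain ⟨r, hr⟩ : ∃ r, r = k / 8 := ⟨_, rfl⟩
    obtain ⟨rho, hrho⟩ : ∃ rho, rho = k / 2 := ⟨_, rfl⟩
    have hr1 : 8 * r ≤ k := by omega
    have hr2 : k ≤ 16 * r := by omega
    have hr0 : (0 : ℝ) < r := by exact_mod_cast (by omega : (0 : ℤ) < r)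
    have hrk : C1 / r ≤ 16 * C1 * (1 / k) := by
      have : (k : ℝ) ≤ 16 * r := by exact_mod_cast hr2
      rw [div_le_iff₀ hr0]
      have h5 : 16 * C1 * (1 / k) * r = C1 * (16 * r / k) := by ring
      have h6 : 1 ≤ 16 * (r : ℝ) / k := by
        rw [le_div_iff₀ hk0]
        linarith
      rw [h5]
      nlinarith
    have hS1 : RE (k - 1 - r) (k + r) 0 r ⊆ BX M :=
      RE_subset (by omega) (by omega) le_rfl (by omega)
    rcases lt_or_ge (rho / 4) N with hbig | hsmall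
    · have h1 : P2 (BX M) (FH M N k) ≤ P2 (BX M) (TA k r) := by
        apply Pr_mono okhalf2
        intro F _ hF
        exact hft M N k r F hN (by omega) (by omega) (by omega) (by omega) hF
      have h2 := hTB k r (by omega) (BX M) hS1
      have h3 : (1 : ℝ) / 16 ≤ Z := hZl 16 (by norm_num) (by
        exact_mod_cast (by omega : k ≤ 16 * N))
      have h5 : 16 * C1 * (1 / k) ≤ 256 * C1 * (1 / k * Z) := by
        have : 0 < C1 * (1 / k) := by positivity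
        nlinarith
      linarith
    · have hrho1 : 4 * N ≤ rho := by omega
      have hS2 : RE (-rho) rho 0 rho ⊆ BX M :=
        RE_subset (by omega) (by omega) le_rfl (by omega)
      have hd : Disjoint (RE (k - 1 - r) (k + r) 0 r) (RE (-rho) rho 0 rho) := by
        rw [Finset.disjoint_left]
        intro e he1 he2
        have g1 := (RE_ends he1).1
        have g2 := (RE_ends he2).1
        simp only [inR] at g1 g2
        omega
      have h1 : P2 (BX M) (FH M N k) ≤ P2 (BX M) (fun F =>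
          TA k r (F ∩ RE (k - 1 - r) (k + r) 0 r) ∧
          ¬ CN (-rho) (-N) 0 rho (-rho) rho 0 rho (F ∩ RE (-rho) rho 0 rho)) := by
        apply Pr_mono okhalf2
        intro F _ hF
        refine ⟨U2_TA_loc k r F
          (hft M N k r F hN (by omega) (by omega) (by omega) (by omega) hF), fun hc => ?_⟩
        apply hF.2
        obtain ⟨x, y, hx, hy, hxy⟩ := hc
        refine ⟨x, y, ⟨by omega, hx.2⟩, ⟨hy.1, by omega⟩, hxy.mono ?_⟩
        rintro e ⟨he1, he2⟩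
        have he3 : e ∈ F := (Finset.mem_inter.1 (Finset.mem_coe.1 he1)).1
        exact ⟨Finset.mem_coe.2 he3, Finset.mem_coe.2 (hS2 (Finset.mem_coe.1 he2))⟩
      have hind := P2_indep hS1 hS2 hd (TA k r)
        (fun F => ¬ CN (-rho) (-N) 0 rho (-rho) rho 0 rho F)
      rw [hind] at h1
      have h2 := hTB k r (by omega) (RE (k - 1 - r) (k + r) 0 r) (Finset.Subset.refl _)
      have h3 := hCN rho N (by omega) hN hrho1
      have hrho0 : (0 : ℝ) < rho := by exact_mod_cast (by omega : (0 : ℤ) < rho)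
      have h5 : ((N : ℝ) / rho) ^ ((1 : ℝ) / 3) ≤ 4 ^ ((1 : ℝ) / 3) * Z := by
        rw [hZ, ← Real.mul_rpow (by norm_num) (by positivity)]
        apply Real.rpow_le_rpow (by positivity) _ (by norm_num)
        have : (k : ℝ) ≤ 4 * rho := by exact_mod_cast (by omega : k ≤ 4 * rho)
        rw [mul_div_assoc', div_le_div_iff₀ hrho0 hk0]
        nlinarith
      have h6 : P2 (RE (-rho) rho 0 rho)
          (fun F => ¬ CN (-rho) (-N) 0 rho (-rho) rho 0 rho F) ≤ C2 * (4 ^ ((1 : ℝ) / 3) * Z) :=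
        h3.trans (mul_le_mul_of_nonneg_left h5 hC2.le)
      have h7 : P2 (BX M) (FH M N k) ≤ (16 * C1 * (1 / k)) * (C2 * (4 ^ ((1 : ℝ) / 3) * Z)) :=
        h1.trans (mul_le_mul (h2.trans hrk) h6 (Pr_nonneg okhalf2 _ _) (by positivity))
      have h8 : (16 * C1 * (1 / k)) * (C2 * (4 ^ ((1 : ℝ) / 3) * Z)) =
          16 * C1 * (C2 * 4 ^ ((1 : ℝ) / 3)) * (1 / k * Z) := by ring
      rw [h8] at h7
      linarith

end H985LC
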