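import Pool.Agent.H985R6.LC.Defs

/-!
WB: both bounds in large boxes.
-/

set_option autoImplicit false

namespace H985LC

open H974 Finset H731C

namespace WBh

/-- cube root -/
noncomputable def cb (x : ℝ) : ℝ := x ^ ((1 : ℝ) / 3)

theorem cb_pos {x : ℝ} (hx : 0 < x) : 0 < cb x := Real.rpow_pos_of_pos hx _

theorem cb_cube {x : ℝ} (hx : 0 ≤ x) : cb x ^ 3 = x := by
  unfold cb
  rw [← Real.rpow_natCast, ← Real.rpow_mul hx]
  norm_num

theorem cb_sq {x : ℝ} (hx : 0 ≤ x) : x ^ ((2 : ℝ) / 3) = cb x ^ 2 := by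
  unfold cb
  rw [← Real.rpow_natCast, ← Real.rpow_mul hx]
  norm_num

theorem cb_mono {x y : ℝ} (hx : 0 ≤ x) (h : x ≤ y) : cb x ≤ cb y :=
  Real.rpow_le_rpow hx h (by norm_num)

theorem cb_mul {c x : ℝ} (hc : 1 ≤ c) (hx : 0 ≤ x) : cb (c * x) ≤ c * cb x := by
  unfold cb
  rw [Real.mul_rpow (by linarith) hx]
  apply mul_le_mul_of_nonneg_right _ (Real.rpow_nonneg hx _)
  calc c ^ ((1 : ℝ) / 3) ≤ c ^ (1 : ℝ) := Real.rpow_le_rpow_of_exponent_le hc (by norm_num)
    _ = c := Real.rpow_one c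

theorem W_eq (N k : ℤ) (hN : 1 ≤ N) (hk : 0 ≤ k) :
    W N k = cb N / (cb ((k : ℝ) + 1) ^ 2 * cb ((N : ℝ) + k) ^ 2) := by
  have hN' : (1 : ℝ) ≤ N := by exact_mod_cast hN
  have hk' : (0 : ℝ) ≤ k := by exact_mod_cast hk
  unfold W
  rw [cb_sq (by linarith), cb_sq (by linarith)]
  rfl

theorem term (c k n : ℝ) (hk : 0 < k) (hn : 0 < n) :
    c / k * (k / n) ^ ((1 : ℝ) / 3) = c / (cb k ^ 2 * cb n) := by
  have h1 : (k / n) ^ ((1 : ℝ) / 3) = cb k / cb n := Real.div_rpow hk.le hn.le _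
  have h2 := cb_cube hk.le
  have h3 := cb_pos hk
  have h4 := cb_pos hn
  rw [h1]
  nth_rewrite 1 [← h2]
  field_simp

theorem term2 (c k n : ℝ) (hk : 0 < k) (hn : 0 < n) :
    c / k * (n / k) ^ ((1 : ℝ) / 3) = c * cb n / cb k ^ 4 := by
  have h1 : (n / k) ^ ((1 : ℝ) / 3) = cb n / cb k := Real.div_rpow hn.le hk.le _
  have h2 := cb_cube hk.le
  have h3 := cb_pos hk
  rw [h1]
  nth_rewrite 1 [← h2]
  field_simp

theorem W_up1 (N k : ℤ) (hk : 1 ≤ k) (hN : 4 * k ≤ N) :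
    1 / (cb k ^ 2 * cb N) ≤ 16 * W N k := by
  have hk' : (1 : ℝ) ≤ k := by exact_mod_cast hk
  have hN' : (4 : ℝ) * k ≤ N := by exact_mod_cast hN
  rw [W_eq N k (by omega) (by omega)]
  have ha := cb_pos (show (0 : ℝ) < k by linarith)
  have hx := cb_pos (show (0 : ℝ) < N by linarith)
  have h1 : cb ((k : ℝ) + 1) ≤ 2 * cb k :=
    (cb_mono (by linarith) (by linarith)).trans (cb_mul (by norm_num) (by linarith))
  have h2 : cb ((N : ℝ) + k) ≤ 2 * cb N :=
    (cb_mono (by linarith) (by linarith)).trans (cb_mul (by norm_num) (by linarith))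
  have p1 := cb_pos (show (0 : ℝ) < (k : ℝ) + 1 by linarith)
  have p2 := cb_pos (show (0 : ℝ) < (N : ℝ) + k by linarith)
  have h3 : cb ((k : ℝ) + 1) ^ 2 * cb ((N : ℝ) + k) ^ 2 ≤ (2 * cb k) ^ 2 * (2 * cb N) ^ 2 :=
    mul_le_mul (pow_le_pow_left₀ p1.le h1 2) (pow_le_pow_left₀ p2.le h2 2) (by positivity)
      (by positivity)
  rw [mul_div_assoc', div_le_div_iff₀ (by positivity) (by positivity)]
  calc 1 * (cb ((k : ℝ) + 1) ^ 2 * cb ((N : ℝ) + k) ^ 2) ≤ (2 * cb k) ^ 2 * (2 * cb N) ^ 2 := by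
        rw [one_mul]; exact h3
    _ = 16 * cb N * (cb k ^ 2 * cb N) := by ring

theorem W_up2 (N k : ℤ) (hk : 1 ≤ k) (hN1 : 1 ≤ N) (hN : N ≤ 4 * k) :
    cb N / cb k ^ 4 ≤ 100 * W N k := by
  have hk' : (1 : ℝ) ≤ k := by exact_mod_cast hk
  have hN1' : (1 : ℝ) ≤ N := by exact_mod_cast hN1
  have hN' : (N : ℝ) ≤ 4 * k := by exact_mod_cast hN
  rw [W_eq N k (by omega) (by omega)]
  have ha := cb_pos (show (0 : ℝ) < k by linarith)
  have hx := cb_pos (show (0 : ℝ) < N by linarith)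
  have h1 : cb ((k : ℝ) + 1) ≤ 2 * cb k :=
    (cb_mono (by linarith) (by linarith)).trans (cb_mul (by norm_num) (by linarith))
  have h2 : cb ((N : ℝ) + k) ≤ 5 * cb k :=
    (cb_mono (by linarith) (by linarith)).trans (cb_mul (by norm_num) (by linarith))
  have p1 := cb_pos (show (0 : ℝ) < (k : ℝ) + 1 by linarith)
  have p2 := cb_pos (show (0 : ℝ) < (N : ℝ) + k by linarith)
  have h3 : cb ((k : ℝ) + 1) ^ 2 * cb ((N : ℝ) + k) ^ 2 ≤ (2 * cb k) ^ 2 * (5 * cb k) ^ 2 :=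
    mul_le_mul (pow_le_pow_left₀ p1.le h1 2) (pow_le_pow_left₀ p2.le h2 2) (by positivity)
      (by positivity)
  rw [mul_div_assoc', div_le_div_iff₀ (by positivity) (by positivity)]
  calc cb N * (cb ((k : ℝ) + 1) ^ 2 * cb ((N : ℝ) + k) ^ 2) ≤
        cb N * ((2 * cb k) ^ 2 * (5 * cb k) ^ 2) := mul_le_mul_of_nonneg_left h3 hx.le
    _ = 100 * cb N * cb k ^ 4 := by ring

theorem W_lo1 (N k : ℤ) (hk : 1 ≤ k) (hN1 : 1 ≤ N) :
    W N k ≤ 1 / (cb k ^ 2 * cb N) := by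
  have hk' : (1 : ℝ) ≤ k := by exact_mod_cast hk
  have hN1' : (1 : ℝ) ≤ N := by exact_mod_cast hN1
  rw [W_eq N k (by omega) (by omega)]
  have ha := cb_pos (show (0 : ℝ) < k by linarith)
  have hx := cb_pos (show (0 : ℝ) < N by linarith)
  have h1 : cb k ≤ cb ((k : ℝ) + 1) := cb_mono (by linarith) (by linarith)
  have h2 : cb N ≤ cb ((N : ℝ) + k) := cb_mono (by linarith) (by linarith)
  have p1 := cb_pos (show (0 : ℝ) < (k : ℝ) + 1 by linarith)
  have p2 := cb_pos (show (0 : ℝ) < (N : ℝ) + k by linarith)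
  have h3 : cb k ^ 2 * cb N ^ 2 ≤ cb ((k : ℝ) + 1) ^ 2 * cb ((N : ℝ) + k) ^ 2 :=
    mul_le_mul (pow_le_pow_left₀ ha.le h1 2) (pow_le_pow_left₀ hx.le h2 2) (by positivity)
      (by positivity)
  rw [div_le_div_iff₀ (by positivity) (by positivity)]
  calc cb N * (cb k ^ 2 * cb N) = cb k ^ 2 * cb N ^ 2 := by ring
    _ ≤ 1 * (cb ((k : ℝ) + 1) ^ 2 * cb ((N : ℝ) + k) ^ 2) := by rw [one_mul]; exact h3

theorem W_lo2 (N k : ℤ) (hk : 1 ≤ k) (hN1 : 1 ≤ N) :
    W N k ≤ cb N / cb k ^ 4 := by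
  have hk' : (1 : ℝ) ≤ k := by exact_mod_cast hk
  have hN1' : (1 : ℝ) ≤ N := by exact_mod_cast hN1
  rw [W_eq N k (by omega) (by omega)]
  have ha := cb_pos (show (0 : ℝ) < k by linarith)
  have hx := cb_pos (show (0 : ℝ) < N by linarith)
  have h1 : cb k ≤ cb ((k : ℝ) + 1) := cb_mono (by linarith) (by linarith)
  have h2 : cb k ≤ cb ((N : ℝ) + k) := cb_mono (by linarith) (by linarith)
  have p1 := cb_pos (show (0 : ℝ) < (k : ℝ) + 1 by linarith)
  have p2 := cb_pos (show (0 : ℝ) < (N : ℝ) + k by linarith)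
  have h3 : cb k ^ 2 * cb k ^ 2 ≤ cb ((k : ℝ) + 1) ^ 2 * cb ((N : ℝ) + k) ^ 2 :=
    mul_le_mul (pow_le_pow_left₀ ha.le h1 2) (pow_le_pow_left₀ ha.le h2 2) (by positivity)
      (by positivity)
  apply div_le_div_of_nonneg_left hx.le (by positivity)
  calc cb k ^ 4 = cb k ^ 2 * cb k ^ 2 := by ring
    _ ≤ _ := h3

theorem W_one (N k : ℤ) (hk : 0 ≤ k) (hN1 : 1 ≤ N) : W N k ≤ 1 := by
  have hk' : (0 : ℝ) ≤ k := by exact_mod_cast hk
  have hN1' : (1 : ℝ) ≤ N := by exact_mod_cast hN1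
  rw [W_eq N k (by omega) (by omega)]
  have hx := cb_pos (show (0 : ℝ) < N by linarith)
  have o : cb 1 = 1 := Real.one_rpow _
  have h0 : 1 ≤ cb N := by
    have := cb_mono (show (0 : ℝ) ≤ 1 by norm_num) hN1'
    rwa [o] at this
  have h1 : 1 ≤ cb ((k : ℝ) + 1) := by
    have := cb_mono (show (0 : ℝ) ≤ 1 by norm_num) (show (1 : ℝ) ≤ k + 1 by linarith)
    rwa [o] at this
  have h2 : cb N ≤ cb ((N : ℝ) + k) := cb_mono (by linarith) (by linarith)
  have p1 := cb_pos (show (0 : ℝ) < (k : ℝ) + 1 by linarith)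
  have p2 := cb_pos (show (0 : ℝ) < (N : ℝ) + k by linarith)
  have h3 : 1 * cb N ^ 2 ≤ cb ((k : ℝ) + 1) ^ 2 * cb ((N : ℝ) + k) ^ 2 :=
    mul_le_mul (one_le_pow₀ h1) (pow_le_pow_left₀ hx.le h2 2) (by positivity)
      (by positivity)
  rw [div_le_one (by positivity)]
  nlinarith

theorem W_zero (N : ℤ) (hN : 1 ≤ N) : W N 0 = ((1 : ℝ) / N) ^ ((1 : ℝ) / 3) := by
  have hN1' : (1 : ℝ) ≤ N := by exact_mod_cast hN
  rw [W_eq N 0 hN le_rfl]
  have hx := cb_pos (show (0 : ℝ) < N by linarith)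
  have h1 : ((1 : ℝ) / N) ^ ((1 : ℝ) / 3) = 1 / cb N := by
    rw [Real.div_rpow (by norm_num) (by linarith), Real.one_rpow]
    rfl
  have o : cb 1 = 1 := Real.one_rpow _
  rw [h1]
  push_cast
  rw [zero_add, add_zero, o]
  field_simp

end WBh

open WBh

theorem t_wb (hla : S_LA) (hlb : S_LB) (hls : S_LS) (hl0 : S_L0) (hu1 : S_U1) (hu2 : S_U2) :
    S_WB := by
  obtain ⟨cA, hcA, hA⟩ := hla
  obtain ⟨cB, k0, hcB, hk0, hB⟩ := hlb
  obtain ⟨c0, C0, hc0, hC0, h0⟩ := hl0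
  obtain ⟨C1, hC1, h1⟩ := hu1
  obtain ⟨C2, hC2, h2⟩ := hu2
  set cS : ℝ := (1 / 2 : ℝ) ^ (4 * (33 * k0 + 4).toNat) with hcSd
  have hcS : 0 < cS := by positivity
  set c : ℝ := min (min cA cB) (min cS c0) with hc
  have hcpos : 0 < c := lt_min (lt_min hcA hcB) (lt_min hcS hc0)
  have lA : c ≤ cA := (min_le_left _ _).trans (min_le_left _ _)
  have lB : c ≤ cB := (min_le_left _ _).trans (min_le_right _ _)
  have lS : c ≤ cS := (min_le_right _ _).trans (min_le_left _ _)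
  have l0 : c ≤ c0 := (min_le_right _ _).trans (min_le_right _ _)
  refine ⟨c, 16 * C1 + 100 * C2 + C0, hcpos, by positivity, ?_⟩
  intro N k hN hk
  have hW0 : 0 ≤ W N k := by
    have hN' : (1 : ℝ) ≤ N := by exact_mod_cast hN
    have hk' : (0 : ℝ) ≤ k := by exact_mod_cast hk
    unfold W
    positivity
  rcases hk.lt_or_eq with hk1 | hk1
  · have hk1' : 1 ≤ k := hk1
    have hkr : (0 : ℝ) < k := by exact_mod_cast hk1
    have hNr : (0 : ℝ) < N := by exact_mod_cast (show (0 : ℤ) < N by omega)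
    refine ⟨10000 * (N + k + 2), fun M hM => ⟨?_, ?_⟩⟩
    · by_cases hc1 : 32 * k ≤ N
      · have h := hA k N M hk1' hc1 (by omega)
        rw [term cA k N hkr hNr] at h
        refine le_trans ?_ h
        calc c * W N k ≤ cA * W N k := mul_le_mul_of_nonneg_right lA hW0
          _ ≤ cA * (1 / (cb k ^ 2 * cb N)) :=
              mul_le_mul_of_nonneg_left (W_lo1 N k hk1' hN) hcA.le
          _ = cA / (cb k ^ 2 * cb N) := by ring
      · by_cases hc2 : k0 ≤ k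
        · have h := hB k N M hc2 hN (by omega) (by omega)
          rw [term2 cB k N hkr hNr] at h
          refine le_trans ?_ h
          calc c * W N k ≤ cB * W N k := mul_le_mul_of_nonneg_right lB hW0
            _ ≤ cB * (cb N / cb k ^ 4) :=
                mul_le_mul_of_nonneg_left (W_lo2 N k hk1' hN) hcB.le
            _ = cB * cb N / cb k ^ 4 := by ring
        · have h := hls k N M hk hN (by omega)
          refine le_trans ?_ h
          calc c * W N k ≤ cS * W N k := mul_le_mul_of_nonneg_right lS hW0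
            _ ≤ cS * 1 := mul_le_mul_of_nonneg_left (W_one N k hk hN) hcS.le
            _ = cS := mul_one _
            _ ≤ (1 / 2 : ℝ) ^ (4 * (N + k + 4).toNat) := by
                apply pow_le_pow_of_le_one (by norm_num) (by norm_num)
                omega
    · by_cases hc1 : 4 * k ≤ N
      · have h := h1 k N M hk1' hc1 (by omega)
        rw [term C1 k N hkr hNr] at h
        refine h.trans ?_
        have e1 := mul_le_mul_of_nonneg_left (W_up1 N k hk1' hc1) hC1.le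
        have e2 : C1 / (cb k ^ 2 * cb N) = C1 * (1 / (cb k ^ 2 * cb N)) := by ring
        rw [e2]
        have e3 : 0 ≤ C2 * W N k := by positivity
        have e4 : 0 ≤ C0 * W N k := by positivity
        nlinarith
      · have h := h2 k N M hk1' hN (by omega) (by omega)
        rw [term2 C2 k N hkr hNr] at h
        refine h.trans ?_
        have e1 := mul_le_mul_of_nonneg_left (W_up2 N k hk1' hN (by omega)) hC2.le
        have e2 : C2 * cb N / cb k ^ 4 = C2 * (cb N / cb k ^ 4) := by ring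
        rw [e2]
        have e3 : 0 ≤ C1 * W N k := by positivity
        have e4 : 0 ≤ C0 * W N k := by positivity
        nlinarith
  · subst hk1
    obtain ⟨M0, hM0⟩ := h0 N hN
    refine ⟨M0, fun M hM => ?_⟩
    obtain ⟨ha, hb⟩ := hM0 M hM
    rw [← W_zero N hN] at ha hb
    refine ⟨?_, ?_⟩
    · exact (mul_le_mul_of_nonneg_right l0 hW0).trans ha
    · refine hb.trans ?_
      have e3 : 0 ≤ C1 * W N 0 := by positivity
      have e4 : 0 ≤ C2 * W N 0 := by positivity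
      nlinarith

end H985LC
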