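import Pool.Agent.H985R6.LC.TBL
import Pool.Agent.H985R6.LC.TCB
import Pool.Agent.H985R6.LC.TCF
import Pool.Agent.H985R6.LC.TCR
import Pool.Agent.H985R6.LC.TCY
import Pool.Agent.H985R6.LC.TDET
import Pool.Agent.H985R6.LC.TDETB
import Pool.Agent.H985R6.LC.TDL
import Pool.Agent.H985R6.LC.TDR
import Pool.Agent.H985R6.LC.TDT
import Pool.Agent.H985R6.LC.TEN
import Pool.Agent.H985R6.LC.TFD
import Pool.Agent.H985R6.LC.TFT
import Pool.Agent.H985R6.LC.TGL
import Pool.Agent.H985R6.LC.THO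
import Pool.Agent.H985R6.LC.TKY
import Pool.Agent.H985R6.LC.TL0
import Pool.Agent.H985R6.LC.TLA
import Pool.Agent.H985R6.LC.TLB
import Pool.Agent.H985R6.LC.TLM
import Pool.Agent.H985R6.LC.TLS
import Pool.Agent.H985R6.LC.TMA
import Pool.Agent.H985R6.LC.TMB
import Pool.Agent.H985R6.LC.TMC
import Pool.Agent.H985R6.LC.TSH
import Pool.Agent.H985R6.LC.TTB
import Pool.Agent.H985R6.LC.TTF
import Pool.Agent.H985R6.LC.TTS
import Pool.Agent.H985R6.LC.TTU
import Pool.Agent.H985R6.LC.TU1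
import Pool.Agent.H985R6.LC.TU2
import Pool.Agent.H985R6.LC.TWB
import Pool.Agent.H985R6.LC.Fin

set_option autoImplicit false

namespace H985LC

theorem all_wb : S_WB := by
  have hdet : S_DET := t_det t_cr t_dl
  have hdetb : S_DETB := t_detb t_cr t_dl
  have hdt : S_DT := t_dt t_tu
  have hcb : S_CB := t_cb t_sh t_en
  have hma : S_MA := t_ma t_cr hdet t_tu hdt t_dr
  have hmb : S_MB := t_mb t_cr hdet t_tu hdt t_dr
  have hmc : S_MC := t_mc hdetb t_tu hdt t_dr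
  have hla : S_LA := t_la hma hcb t_tf
  have hlb : S_LB := t_lb hmb hmc t_bl t_ky t_cf hcb t_tf t_gl t_en
  have htb : S_TB := t_tb t_ts
  have hft : S_FT := t_ft t_dl
  have hu1 : S_U1 := t_u1 htb hft t_ho
  have hu2 : S_U2 := t_u2 htb hft
  exact t_wb hla hlb t_ls t_l0 hu1 hu2

end H985LC
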