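import Pool.Agent.H985R6.LC.Defs
import Pool.Agent.H731R3.Cardy.NoHalf

/-! Common lemmas for the tasks TF, GL, DET, DETB. -/

set_option autoImplicit false

namespace H985LC.AX

open H974 Finset H731C

theorem ext_box {A B D : ℤ} {F : Finset Edg} {W : Finset Edg} {u v : Vtx}
    (h : Reach ((↑F : Set Edg) ∩ ↑(RE A B 0 D \ W)) u v) :
    Reach ((↑F : Set Edg) ∩ ↑(RE A B 0 D)) u v :=
  h.mono (Set.inter_subset_inter_right _ (by exact_mod_cast Finset.sdiff_subset))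

/-- a path which starts in a half-box leaves it through its boundary or stays inside -/
theorem exit_or_in {A B D R : ℤ} {F : Set Edg} {u v : Vtx} (hu : inR (-R) R 0 R u)
    (h : Reach (F ∩ ↑(RE A B 0 D)) u v) :
    (∃ w, onH 0 0 R w ∧ Reach (F ∩ ↑(RE (-R) R 0 R)) u w) ∨
      (Reach (F ∩ ↑(RE (-R) R 0 R)) u v ∧ (-R < v.1 ∧ v.1 < R) ∧ (0 ≤ v.2 ∧ v.2 < R)) := by
  by_cases hex : ∃ w, onH 0 0 R w ∧ Reach (F ∩ ↑(RE (-R) R 0 R)) u w
  · exact Or.inl hex
  right
  have hno : ∀ w, Reach (F ∩ ↑(RE (-R) R 0 R)) u w → ¬ onH 0 0 R w := fun w hw hh =>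
    hex ⟨w, hh, hw⟩
  induction h with
  | refl =>
    have h0 := hno u (Reach.refl _ _)
    obtain ⟨h1, h2⟩ := hu
    unfold onH at h0
    exact ⟨Reach.refl _ _, by omega, by omega⟩
  | @tail w w' _ hs ih =>
    obtain ⟨hr, h1, h2⟩ := ih
    obtain ⟨⟨x0, y0, bo⟩, ⟨heF, heR⟩, hcase⟩ := hs
    have heR' : ((x0, y0, bo) : Edg) ∈ RE A B 0 D := heR
    have hmem : ((x0, y0, bo) : Edg) ∈ RE (-R) R 0 R := by
      cases bo
      · simp only [src_mk, tgt_false] at hcase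
        rw [mem_RE_false] at heR' ⊢
        rcases hcase with ⟨h3, h4⟩ | ⟨h3, h4⟩
        · rw [← h3] at h1 h2; simp only at h1 h2; omega
        · rw [← h4] at h1 h2; simp only at h1 h2; omega
      · simp only [src_mk, tgt_true] at hcase
        rw [mem_RE_true] at heR' ⊢
        rcases hcase with ⟨h3, h4⟩ | ⟨h3, h4⟩
        · rw [← h3] at h1 h2; simp only at h1 h2; omega
        · rw [← h4] at h1 h2; simp only at h1 h2; omega
    have hadj : Adj (F ∩ ↑(RE (-R) R 0 R)) w w' := ⟨_, ⟨heF, hmem⟩, hcase⟩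
    have hr' := hr.trans hadj.reach
    have h0 := hno w' hr'
    have hin : inR (-R) R 0 R w' := by
      have he := RE_ends hmem
      rcases hcase with ⟨h3, h4⟩ | ⟨h3, h4⟩
      · rw [← h4]; exact he.2
      · rw [← h3]; exact he.1
    obtain ⟨h5, h6⟩ := hin
    unfold onH at h0
    exact ⟨hr', by omega, by omega⟩

/-- no arm from the inner half-box: the connected component of a far point avoids it -/
theorem avoid {A B D w w' : ℤ} {F : Finset Edg} (hw : w ≤ w') (h0 : ¬ HA 0 0 w w' F)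
    {x : ℤ} (hx : x ≤ -w') {z : Vtx} (hz : Reach ((↑F : Set Edg) ∩ ↑(RE A B 0 D)) z (x, 0)) :
    ¬ inR (-w) w 0 w z := by
  intro hin
  have hin' : inR (-w') w' 0 w' z := by
    obtain ⟨h1, h2⟩ := hin
    exact ⟨by omega, by omega⟩
  rcases exit_or_in hin' hz with ⟨v, hv, hr⟩ | ⟨_, h1, _⟩
  · apply h0
    refine ⟨z, v, ?_, hv, ?_⟩
    · simpa using hin
    · simpa using hr
  · simp only at h1; omega

theorem avoid_path {A B D w : ℤ} {F : Set Edg} {u v : Vtx}
    (h : Reach (F ∩ ↑(RE A B 0 D)) u v)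
    (hav : ∀ z, Reach (F ∩ ↑(RE A B 0 D)) u z → ¬ inR (-w) w 0 w z) :
    Reach (F ∩ ↑(RE A B 0 D \ RE (-w) w 0 w)) u v := by
  induction h with
  | refl => exact Reach.refl _ _
  | @tail z z' hz hs ih =>
    obtain ⟨e, ⟨heF, heR⟩, hcase⟩ := hs
    have heR' : e ∈ RE A B 0 D := heR
    have hno : e ∉ RE (-w) w 0 w := by
      intro he
      have hends := RE_ends he
      rcases hcase with ⟨h3, h4⟩ | ⟨h3, h4⟩
      · exact hav z hz (by rw [← h3]; exact hends.1)
      · exact hav z hz (by rw [← h4]; exact hends.2)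
    have hadj : Adj (F ∩ ↑(RE A B 0 D \ RE (-w) w 0 w)) z z' :=
      ⟨e, ⟨heF, by rw [Finset.coe_sdiff]; exact ⟨heR, hno⟩⟩, hcase⟩
    exact ih.trans hadj.reach

/-- a nontrivial path needs `0 ≤ D` -/
theorem D_nonneg {A B D : ℤ} {F : Set Edg} {u v : Vtx} (huv : u ≠ v)
    (h : Reach (F ∩ ↑(RE A B 0 D)) u v) : 0 ≤ D := by
  rcases Relation.ReflTransGen.cases_tail h with h1 | ⟨z, _, ⟨e, ⟨_, heR⟩, _⟩⟩
  · exact absurd h1.symm huv
  · have he := (RE_ends (Finset.mem_coe.1 heR)).1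
    obtain ⟨_, h2⟩ := he
    omega

end H985LC.AX
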