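import Pool.Agent.H731R3.Cardy.Defs

/-!
Local form of Cardy's formula in the half-plane, up to constants: definitions and the statements
`S_XX` of the tasks.  Everything lives in boxes `[A, B] × [0, D]` of the upper half-plane;
the face `(p, q)` of the dual lattice is the unit square `[p, p+1] × [q, q+1]`.
-/

set_option autoImplicit false

namespace H985LC

open H974 Finset H731C

/-- The box `[-M, M] × [0, M]`. -/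
noncomputable abbrev BX (M : ℤ) : Finset Edg := RE (-M) M 0 M

/-- `(k, 0)` is joined to `[-M, -N] × {0}`, but no point of `[0, k-1] × {0}` is. -/
def FH (M N k : ℤ) (F : Finset Edg) : Prop :=
  CN (-M) (-N) 0 k (-M) M 0 M F ∧ ¬ CN (-M) (-N) 0 (k - 1) (-M) M 0 M F

/-- The event of the shift argument at `j`: an open path from `(j, 0)` to some `(x, 0)`, `x ≤ x1`,
in the box `[A, B] × [0, D]`, which uses no edge of `[w1, w2] × [0, w3]`, and a closed dual path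
from the face left of `j` to some bottom face `(y, -1)` with `y1 ≤ y ≤ y2`. -/
def TJ (A B D w1 w2 w3 x1 y1 y2 j : ℤ) (F : Finset Edg) : Prop :=
  (∃ x, A ≤ x ∧ x ≤ x1 ∧
    Reach ((↑F : Set Edg) ∩ ↑(RE A B 0 D \ RE w1 w2 0 w3)) (j, 0) (x, 0)) ∧
  (∃ y, y1 ≤ y ∧ y ≤ y2 ∧ DReach ((↑F : Set Edg)ᶜ ∩ ↑(RE A B 0 D)) (y, -1) (j - 1, -1))

/-- Half-plane two-arm event at `(k, 0)` (open) and at the face left of it (dual), radius `r`. -/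
def TA (k r : ℤ) (F : Finset Edg) : Prop :=
  AR k 0 r F ∧ AR (k - 1) (-1) r (dmp (RE (k - 1 - r) (k + r) 0 r \ F))

/-- Crossing of the ring of thickness `g` around `[p, q] × [t, t + H]`, from the right bottom
piece `(q, q + g]` to the left bottom piece `[p - g, p)`. -/
def TU (t p q H g : ℤ) (F : Finset Edg) : Prop :=
  ∃ j x, (q < j ∧ j ≤ q + g) ∧ (p - g ≤ x ∧ x < p) ∧
    Reach ((↑F : Set Edg) ∩ ↑(VE (p - g) (q + g) t (t + H + g) \ RE p q t (t + H))) (j, t) (x, t)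

/-- The conjectured size. -/
noncomputable def W (N k : ℤ) : ℝ :=
  (N : ℝ) ^ ((1 : ℝ) / 3) / (((k : ℝ) + 1) ^ ((2 : ℝ) / 3) * ((N : ℝ) + k) ^ ((2 : ℝ) / 3))

/-! ## Planarity -/

/-- (CR) crossing paths share a vertex. -/
def S_CR : Prop := ∀ (A B t D a b c d : ℤ) (G1 G2 : Set Edg), a < b → b < c → c < d →
    Reach (G1 ∩ ↑(RE A B t D)) (a, t) (c, t) → Reach (G2 ∩ ↑(RE A B t D)) (b, t) (d, t) →
    ∃ w : Vtx, Reach (G1 ∩ ↑(RE A B t D)) (a, t) w ∧ Reach (G2 ∩ ↑(RE A B t D)) (b, t) w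

/-- (DL) duality: a closed dual path from the face left of `j`. -/
def S_DL : Prop := ∀ (A B D f s j v0 : ℤ) (F : Finset Edg), A ≤ f → f < s → s ≤ j → j ≤ B →
    0 ≤ D → A ≤ v0 → v0 ≤ f → Reach ((↑F : Set Edg) ∩ ↑(RE A B 0 D)) (j, 0) (v0, 0) →
    (∀ u v : ℤ, s ≤ u → u ≤ j - 1 → A ≤ v → v ≤ f →
      ¬ Reach ((↑F : Set Edg) ∩ ↑(RE A B 0 D)) (u, 0) (v, 0)) →
    ∃ y, f ≤ y ∧ y ≤ s - 1 ∧ DReach ((↑F : Set Edg)ᶜ ∩ ↑(RE A B 0 D)) (y, -1) (j - 1, -1)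

/-- (DET) -/
def S_DET : Prop := ∀ (A B D x1 f x y0 z0 j' : ℤ) (F : Finset Edg), A ≤ x → x ≤ x1 → x ≤ f →
    f ≤ y0 → y0 < z0 → z0 < j' → j' ≤ B → 0 ≤ D →
    Reach ((↑F : Set Edg) ∩ ↑(RE A B 0 D)) (f, 0) (x, 0) →
    Reach ((↑F : Set Edg) ∩ ↑(RE A B 0 D)) (f, 0) (j', 0) →
    DReach ((↑F : Set Edg)ᶜ ∩ ↑(RE A B 0 D)) (y0, -1) (z0, -1) →
    ∃ j, z0 < j ∧ j ≤ j' ∧ TJ A B D 1 0 0 x1 f y0 j F

/-- (DETB) -/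
def S_DETB : Prop := ∀ (A B D w w' a b z1 z2 j' x' : ℤ) (F : Finset Edg), A ≤ x' → x' ≤ a →
    a ≤ -w' → 0 ≤ w → w ≤ w' → a < b → b < z1 → z1 < z2 → z2 < j' → j' ≤ B →
    RE (-w') w' 0 w' ⊆ RE A B 0 D →
    Reach ((↑F : Set Edg) ∩ ↑(RE A B 0 D)) (j', 0) (x', 0) →
    DReach ((↑F : Set Edg)ᶜ ∩ ↑(RE A B 0 D)) (a, -1) (z1, -1) →
    DReach ((↑F : Set Edg)ᶜ ∩ ↑(RE A B 0 D)) (b, -1) (z2, -1) →
    ¬ HA 0 0 w w' F →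
    ∃ j, z2 < j ∧ j ≤ j' ∧ TJ A B D (-w) w w a b b j F

/-- (TF) the event of the shift argument implies the event. -/
def S_TF : Prop := ∀ (M N k w1 w2 w3 x1 y1 y2 : ℤ) (F : Finset Edg), 1 ≤ k → k ≤ M → 1 ≤ N →
    N ≤ M → x1 ≤ -N → -N ≤ y1 → y2 ≤ -1 → TJ (-M) M M w1 w2 w3 x1 y1 y2 k F → FH M N k F

/-- (GL) gluing at a small interval. -/
def S_GL : Prop := ∀ (M N k w m R x1 y1 y2 : ℤ) (F : Finset Edg), 1 ≤ k → k ≤ M → 1 ≤ N →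
    N ≤ R → x1 ≤ -N → -m ≤ y1 → y2 ≤ m - 1 → 1 ≤ m → m ≤ R → R < k → R ≤ w →
    TJ (-M) M M (-w) w w x1 y1 y2 k F → ¬ HA 0 0 m R F →
    ¬ CN (-R) (-N) 0 R (-R) R 0 R F → FH M N k F

/-! ## Shifts -/

/-- (SH) translation invariance. -/
def S_SH : Prop := ∀ A B D w1 w2 w3 x1 y1 y2 j s : ℤ,
    P2 (RE (A + s) (B + s) 0 D)
      (TJ (A + s) (B + s) D (w1 + s) (w2 + s) w3 (x1 + s) (y1 + s) (y2 + s) (j + s)) =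
    P2 (RE A B 0 D) (TJ A B D w1 w2 w3 x1 y1 y2 j)

/-- (TS) translation invariance of the two-arm event. -/
def S_TS : Prop := ∀ (k k' r : ℤ), 1 ≤ r → ∀ S S' : Finset Edg,
    RE (k - 1 - r) (k + r) 0 r ⊆ S → RE (k' - 1 - r) (k' + r) 0 r ⊆ S' →
    P2 S (TA k r) = P2 S' (TA k' r)

/-- (EN) enlarging the box. -/
def S_EN : Prop := ∀ A B D w1 w2 w3 x1 y1 y2 j A' B' D' w1' w2' w3' x1' y1' y2' : ℤ,
    A' ≤ A → B ≤ B' → D ≤ D' → RE w1' w2' 0 w3' ⊆ RE w1 w2 0 w3 → x1 ≤ x1' → y1' ≤ y1 →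
    y2 ≤ y2' →
    P2 (RE A B 0 D) (TJ A B D w1 w2 w3 x1 y1 y2 j) ≤
      P2 (RE A' B' 0 D') (TJ A' B' D' w1' w2' w3' x1' y1' y2' j)

/-- (CB) the shift argument: `P(TJ at k) ≥ P(TJ for some j in the window) / (size)`. -/
def S_CB : Prop := ∀ (M σ w1 w2 w3 x1 y1 y2 w1' w2' x1' y1' y2' j1 j2 k : ℤ), j1 ≤ j2 → 0 ≤ σ →
    (∀ j, j1 ≤ j → j ≤ j2 → |k - j| ≤ σ ∧ RE w1' w2' 0 w3 ⊆ RE (w1 + (k - j)) (w2 + (k - j)) 0 w3 ∧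
      x1 + (k - j) ≤ x1' ∧ y1' ≤ y1 + (k - j) ∧ y2 + (k - j) ≤ y2') →
    P2 (BX (M - σ)) (fun F => ∃ j, j1 ≤ j ∧ j ≤ j2 ∧
      TJ (-(M - σ)) (M - σ) (M - σ) w1 w2 w3 x1 y1 y2 j F) ≤
    ((j2 - j1 + 1 : ℤ) : ℝ) * P2 (BX M) (TJ (-M) M M w1' w2' w3 x1' y1' y2' k)

/-! ## Rings -/

/-- (TU) ring crossings have probability bounded below. -/
def S_TU : Prop := ∀ κ : ℤ, 1 ≤ κ → ∃ c : ℝ, 0 < c ∧ ∀ t p q H g : ℤ, 2 ≤ g → p ≤ q → 0 ≤ H →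
    q - p + H + g ≤ κ * g → ∀ S : Finset Edg, VE (p - g) (q + g) t (t + H + g) ⊆ S →
    c ≤ P2 S (TU t p q H g)

/-- (DT) dual ring crossings: probability, and the dual path. -/
def S_DT : Prop := ∀ κ : ℤ, 1 ≤ κ → ∃ c : ℝ, 0 < c ∧ ∀ A B D p q H g : ℤ, 2 ≤ g → p ≤ q → 0 ≤ H →
    q - p + H + g ≤ κ * g → A ≤ p - g → q + g + 1 ≤ B → H + g ≤ D →
    c ≤ P2 (RE A B 0 D) (fun F => TU (-1) p q H g (dmp (RE (p - g) (q + g + 1) 0 (H + g) \ F)))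

/-- (DR) the dual path of a dual ring crossing. -/
def S_DR : Prop := ∀ (A B D p q H g : ℤ) (F : Finset Edg), 1 ≤ g → p ≤ q → 0 ≤ H → A ≤ p - g →
    q + g + 1 ≤ B → H + g ≤ D →
    TU (-1) p q H g (dmp (RE (p - g) (q + g + 1) 0 (H + g) \ F)) →
    ∃ y z, (p - g ≤ y ∧ y < p) ∧ (q < z ∧ z ≤ q + g) ∧
      DReach ((↑F : Set Edg)ᶜ ∩ ↑(RE A B 0 D)) (y, -1) (z, -1)

/-! ## Macroscopic events -/

/-- (MA) window event, `N` large compared with `k`. -/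
def S_MA : Prop := ∃ c : ℝ, 0 < c ∧ ∀ k N M : ℤ, 1 ≤ k → 32 * k ≤ N → 100 * N ≤ M →
    c * ((k : ℝ) / N) ^ ((1 : ℝ) / 3) ≤
      P2 (BX M) (fun F => ∃ j, k + 2 ≤ j ∧ j ≤ 8 * k ∧
        TJ (-M) M M 1 0 0 (-N) (-(16 * k)) (-k - 1) j F)

/-- (MB) window event, `N` and `k` comparable. -/
def S_MB : Prop := ∀ K0 : ℤ, 64 ≤ K0 → ∃ c : ℝ, 0 < c ∧ ∀ h k N M : ℤ, 8 ≤ h → K0 * h ≤ k →
    k ≤ 2 * K0 * h → 6 * h ≤ N → N ≤ 32 * k → 100 * (N + k) ≤ M →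
    c ≤ P2 (BX M) (fun F => ∃ j, k - h ≤ j ∧ j ≤ k + h ∧
        TJ (-M) M M 1 0 0 (-N - h) (-N + h) (-h - 1) j F)

/-- (MC) window event, with a path which avoids a half-box around the origin. -/
def S_MC : Prop := ∀ L : ℤ, 8 ≤ L → (∀ w : ℤ, 1 ≤ w → ∀ S : Finset Edg,
      RE (-(L * w)) (L * w) 0 (L * w) ⊆ S → P2 S (HA 0 0 w (L * w)) ≤ 1 / 2) →
    ∃ K0 : ℤ, 64 * L ^ 2 ≤ K0 ∧ ∃ c : ℝ, 0 < c ∧ ∀ h k M : ℤ, 8 ≤ h → K0 * h ≤ k →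
    k ≤ 2 * K0 * h → 100 * k ≤ M →
    c ≤ P2 (BX M) (fun F => ∃ j, k - h ≤ j ∧ j ≤ k + h ∧
        TJ (-M) M M (-((2 * L + 1) * h)) ((2 * L + 1) * h) ((2 * L + 1) * h)
          (-(8 * h)) (-h) (h - 1) j F)

/-! ## Lower bounds -/

/-- (BL) blocking: for some `L`, half-annuli of ratio `L` are crossed with probability `≤ 1/2`. -/
def S_BL : Prop := ∃ L : ℤ, 8 ≤ L ∧ ∀ w : ℤ, 1 ≤ w → ∀ S : Finset Edg,
      RE (-(L * w)) (L * w) 0 (L * w) ⊆ S → P2 S (HA 0 0 w (L * w)) ≤ 1 / 2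

/-- (KY) the local decreasing events. -/
def S_KY : Prop := ∀ L : ℤ, 8 ≤ L → (∀ w : ℤ, 1 ≤ w → ∀ S : Finset Edg,
      RE (-(L * w)) (L * w) 0 (L * w) ⊆ S → P2 S (HA 0 0 w (L * w)) ≤ 1 / 2) →
    ∃ c : ℝ, 0 < c ∧ ∀ m N : ℤ, 1 ≤ m → 1 ≤ N → N ≤ 3 * m →
      c * ((N : ℝ) / m) ^ ((1 : ℝ) / 3) ≤ P2 (BX (L * m)) (fun F => ¬ HA 0 0 m (L * m) F ∧
        ¬ CN (-(L * m)) (-N) 0 (L * m) (-(L * m)) (L * m) 0 (L * m) F)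

/-- (CF) conditional Harris inequality. -/
def S_CF : Prop := ∀ (S T : Finset Edg) (O X Y : Finset Edg → Prop), T ⊆ S →
    IncrE S (fun F => ¬ X F) → IncrE T (fun F => ¬ Y F) →
    P2 S (fun F => O (F \ T) ∧ X F) * P2 T Y ≤ P2 S (fun F => (O (F \ T) ∧ X F) ∧ Y (F ∩ T))

/-- (LA) lower bound, `N ≥ 32 k`. -/
def S_LA : Prop := ∃ c : ℝ, 0 < c ∧ ∀ k N M : ℤ, 1 ≤ k → 32 * k ≤ N → 200 * N ≤ M →
    c / k * ((k : ℝ) / N) ^ ((1 : ℝ) / 3) ≤ P2 (BX M) (FH M N k)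

/-- (LB) lower bound, `N ≤ 32 k`, `k` large. -/
def S_LB : Prop := ∃ (c : ℝ) (k0 : ℤ), 0 < c ∧ 1 ≤ k0 ∧ ∀ k N M : ℤ, k0 ≤ k → 1 ≤ N →
    N ≤ 32 * k → 10000 * k ≤ M →
    c / k * ((N : ℝ) / k) ^ ((1 : ℝ) / 3) ≤ P2 (BX M) (FH M N k)

/-- (LS) lower bound, small boxes. -/
def S_LS : Prop := ∀ k N M : ℤ, 0 ≤ k → 1 ≤ N → N + k + 2 ≤ M →
    (1 / 2 : ℝ) ^ (4 * (N + k + 4).toNat) ≤ P2 (BX M) (FH M N k)

/-- (L0) both bounds for `k = 0`. -/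
def S_L0 : Prop := ∃ c C : ℝ, 0 < c ∧ 0 < C ∧ ∀ N : ℤ, 1 ≤ N → ∃ M0 : ℤ, ∀ M : ℤ, M0 ≤ M →
    c * ((1 : ℝ) / N) ^ ((1 : ℝ) / 3) ≤ P2 (BX M) (FH M N 0) ∧
    P2 (BX M) (FH M N 0) ≤ C * ((1 : ℝ) / N) ^ ((1 : ℝ) / 3)

/-! ## Upper bounds -/

/-- (TB) the half-plane two-arm bound. -/
def S_TB : Prop := ∃ C : ℝ, 0 < C ∧ ∀ k r : ℤ, 1 ≤ r → ∀ S : Finset Edg,
    RE (k - 1 - r) (k + r) 0 r ⊆ S → P2 S (TA k r) ≤ C / r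

/-- (FT) the event implies the two-arm event. -/
def S_FT : Prop := ∀ (M N k r : ℤ) (F : Finset Edg), 1 ≤ N → 1 ≤ r → r ≤ k → 2 * k + 1 ≤ M →
    N ≤ M → FH M N k F → TA k r F

/-- (HO) the arm event only looks at edges outside the inner half-box. -/
def S_HO : Prop := ∀ (m n : ℤ) (F : Finset Edg), 0 ≤ m → m ≤ n →
    HA 0 0 m n F → HA 0 0 m n (F \ RE (-m) m 0 m)

/-- (U1) upper bound, `4 k ≤ N`. -/
def S_U1 : Prop := ∃ C : ℝ, 0 < C ∧ ∀ k N M : ℤ, 1 ≤ k → 4 * k ≤ N → N + 1 ≤ M →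
    P2 (BX M) (FH M N k) ≤ C / k * ((k : ℝ) / N) ^ ((1 : ℝ) / 3)

/-- (U2) upper bound, `N ≤ 4 k`. -/
def S_U2 : Prop := ∃ C : ℝ, 0 < C ∧ ∀ k N M : ℤ, 1 ≤ k → 1 ≤ N → N ≤ 4 * k → 8 * k + 1 ≤ M →
    P2 (BX M) (FH M N k) ≤ C / k * ((N : ℝ) / k) ^ ((1 : ℝ) / 3)

/-! ## Assembly -/

/-- (WB) both bounds in large boxes. -/
def S_WB : Prop := ∃ c C : ℝ, 0 < c ∧ 0 < C ∧ ∀ N k : ℤ, 1 ≤ N → 0 ≤ k →
    ∃ M0 : ℤ, ∀ M : ℤ, M0 ≤ M → c * W N k ≤ P2 (BX M) (FH M N k) ∧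
      P2 (BX M) (FH M N k) ≤ C * W N k

/-- (FD) the event as a difference. -/
def S_FD : Prop := ∀ M N k : ℤ, 0 ≤ k → P2 (BX M) (FH M N k) =
    P2 (BX M) (CN (-M) (-N) 0 k (-M) M 0 M) - P2 (BX M) (CN (-M) (-N) 0 (k - 1) (-M) M 0 M)

end H985LC
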