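import Pool.Agent.H985R6.LC.Defs
import Pool.Agent.H731R3.Cardy.Final

/-!
Local form of Cardy's formula: the analytic statement.
-/

set_option autoImplicit false

namespace H985LC

open MeasureTheory

/-- (CY) increments of the incomplete Beta function. -/
def S_CY : Prop := ∃ c C : ℝ, 0 < c ∧ 0 < C ∧ ∀ N k : ℤ, 1 ≤ N → 0 ≤ k →
    c * W N k ≤ ∫ u in ((k : ℝ) / ((N : ℝ) + k))..(((k : ℝ) + 1) / ((N : ℝ) + k + 1)),
      u ^ (-(2/3) : ℝ) * (1 - u) ^ (-(2/3) : ℝ) ∧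
    (∫ u in ((k : ℝ) / ((N : ℝ) + k))..(((k : ℝ) + 1) / ((N : ℝ) + k + 1)),
      u ^ (-(2/3) : ℝ) * (1 - u) ^ (-(2/3) : ℝ)) ≤ C * W N k

/-- (LM) infinite-volume limit. -/
def S_LM : Prop := ∀ b c d : ℤ, Filter.Tendsto
    (fun M : ℕ => H731C.P2 (BX (M : ℤ))
      (H731C.CN (-(M : ℤ)) b c d (-(M : ℤ)) (M : ℤ) 0 (M : ℤ))) Filter.atTop
    (nhds (H731C.crossProb (Set.Iic b) (Set.Icc c d)))

end H985LC
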