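import Pool.Agent.H985R6.LC.Defs
import Pool.Agent.H731R3.Cardy.HalfBox

/-! (BL): half-annuli of a large ratio are crossed with probability at most one half. -/

set_option autoImplicit false

namespace H985LC

open H974 Finset H731C

theorem t_bl : S_BL := by
  obtain ⟨C, hC, hH⟩ := HA_upper
  obtain ⟨L, hL⟩ := exists_int_gt (max 8 (8 * C ^ 3))
  have hL8 : (8 : ℝ) < L := lt_of_le_of_lt (le_max_left _ _) hL
  have hLC : 8 * C ^ 3 < (L : ℝ) := lt_of_le_of_lt (le_max_right _ _) hL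
  have hL8' : (8 : ℤ) ≤ L := by
    have : ((8 : ℤ) : ℝ) < L := by exact_mod_cast hL8
    exact le_of_lt (by exact_mod_cast this)
  refine ⟨L, hL8', ?_⟩
  intro w hw S hS
  have hw0 : (0 : ℝ) < w := by exact_mod_cast (by omega : (0 : ℤ) < w)
  have hL0 : (0 : ℝ) < L := by linarith
  have hwL : w ≤ L * w := by nlinarith
  have h1 := hH 0 0 w (L * w) hw hwL S (by simpa using hS)
  refine h1.trans ?_
  have e1 : ((w : ℝ) / ((L * w : ℤ) : ℝ)) = 1 / L := by
    push_cast
    field_simp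
  rw [e1]
  have h2 : (1 / (L : ℝ)) ≤ (1 / (2 * C)) ^ 3 := by
    have : (1 / (2 * C)) ^ 3 = 1 / (8 * C ^ 3) := by
      field_simp
      norm_num
    rw [this]
    exact one_div_le_one_div_of_le (by positivity) hLC.le
  have h3 : (1 / (L : ℝ)) ^ ((1 : ℝ) / 3) ≤ 1 / (2 * C) := by
    have h4 : (1 / (L : ℝ)) ^ ((1 : ℝ) / 3) ≤ ((1 / (2 * C)) ^ 3) ^ ((1 : ℝ) / 3) :=
      Real.rpow_le_rpow (by positivity) h2 (by norm_num)
    refine h4.trans (le_of_eq ?_)
    rw [← Real.rpow_natCast, ← Real.rpow_mul (by positivity)]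
    norm_num
  calc C * (1 / (L : ℝ)) ^ ((1 : ℝ) / 3) ≤ C * (1 / (2 * C)) :=
        mul_le_mul_of_nonneg_left h3 hC.le
    _ = 1 / 2 := by field_simp

end H985LC
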