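import Pool.Agent.H985R6.LC.Defs
import Pool.Agent.H731R3.Cardy.HalfBox

/-!
Task HO: last exit from the inner half-box.
-/

set_option autoImplicit false

namespace H985LC

open H974 Finset H731C

theorem t_ho : S_HO := by
  rintro m n F _ _ ⟨u, v, hu, hv, hr⟩
  have h0 : ((0 : ℤ) - m) = -m := by ring
  have h1 : ((0 : ℤ) + m) = m := by ring
  obtain ⟨w, hw, hrw⟩ := H731C.TC.last_exit (inR (0 - m) (0 + m) 0 (0 + m)) hr hu
  refine ⟨w, v, hw, hv, hrw.mono ?_⟩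
  rintro e ⟨⟨h2, h3⟩, h4⟩
  refine ⟨?_, h3⟩
  rw [mem_coe, mem_sdiff]
  refine ⟨h2, fun h5 => h4 ?_⟩
  rw [Set.mem_ofPred_eq]
  rw [h0, h1]
  exact RE_ends h5

end H985LC
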