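import Pool.Agent.H985R6.LC.Defs
import Pool.Agent.H731R3.Cardy.HalfBox
import Pool.Agent.H731R3.Cardy.Upper

/-!
Task U1: upper bound, `4 k ≤ N`.
-/

set_option autoImplicit false

namespace H985LC

open H974 Finset H731C

namespace U1

/-- the two-arm event looks only at the edges of `[-1, 2k] × [0, k]` -/
theorem TA_local {k : ℤ} (hk : 1 ≤ k) {F : Finset Edg} (h : TA k k F) :
    TA k k (F ∩ RE (-(2 * k)) (2 * k) 0 (2 * k)) := by
  obtain ⟨⟨v, hv, hr⟩, h2⟩ := h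
  refine ⟨⟨v, hv, ?_⟩, ?_⟩
  · refine Reach.mono ?_ hr
    rintro e ⟨h3, h4⟩
    refine ⟨?_, h4⟩
    rw [Finset.coe_inter]
    refine ⟨h3, ?_⟩
    rw [Finset.mem_coe] at h4 ⊢
    exact RE_subset (by omega) (by omega) (by omega) (by omega) h4
  · have e : RE (k - 1 - k) (k + k) 0 k \ (F ∩ RE (-(2 * k)) (2 * k) 0 (2 * k)) =
        RE (k - 1 - k) (k + k) 0 k \ F := by
      ext x
      rw [Finset.mem_sdiff, Finset.mem_sdiff, Finset.mem_inter]
      constructor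
      · rintro ⟨h3, h4⟩
        refine ⟨h3, fun h5 => h4 ⟨h5, ?_⟩⟩
        exact RE_subset (by omega) (by omega) (by omega) (by omega) h3
      · rintro ⟨h3, h4⟩
        exact ⟨h3, fun h5 => h4 h5.1⟩
    rw [e]
    exact h2

end U1

open U1

theorem t_u1 (htb : S_TB) (hft : S_FT) (hho : S_HO) : S_U1 := by
  obtain ⟨C1, hC1, hTB⟩ := htb
  obtain ⟨C2, hC2, hHA⟩ := HA_upper
  refine ⟨2 * C1 * C2, by positivity, ?_⟩
  intro k N M hk hN hM
  have hk0 : (0 : ℝ) < k := by exact_mod_cast (by omega : (0 : ℤ) < k)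
  have hN0 : (0 : ℝ) < N := by exact_mod_cast (by omega : (0 : ℤ) < N)
  have hS0 : RE (-(2 * k)) (2 * k) 0 (2 * k) ⊆ RE (-M) M 0 M :=
    RE_subset (by omega) (by omega) (by omega) (by omega)
  have hT0 : RE (0 - N) (0 + N) 0 (0 + N) \ RE (-(2 * k)) (2 * k) 0 (2 * k) ⊆ RE (-M) M 0 M :=
    Finset.sdiff_subset.trans (RE_subset (by omega) (by omega) (by omega) (by omega))
  have hdis : Disjoint (RE (-(2 * k)) (2 * k) 0 (2 * k))
      (RE (0 - N) (0 + N) 0 (0 + N) \ RE (-(2 * k)) (2 * k) 0 (2 * k)) := Finset.disjoint_sdiff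
  have step1 : P2 (BX M) (FH M N k) ≤
      P2 (RE (-M) M 0 M) (fun F => TA k k (F ∩ RE (-(2 * k)) (2 * k) 0 (2 * k)) ∧
        HA 0 0 (2 * k) N
          (F ∩ (RE (0 - N) (0 + N) 0 (0 + N) \ RE (-(2 * k)) (2 * k) 0 (2 * k)))) := by
    apply Pr_mono okhalf2
    intro F _ hF
    refine ⟨TA_local hk (hft M N k k F (by omega) hk le_rfl (by omega) (by omega) hF), ?_⟩
    obtain ⟨⟨x, y, hx, hy, h⟩, -⟩ := hF
    have h1 := F_arm (z := 0) (t := 0) (m := 2 * k) (n := N) (u := (y, 0)) (v := (x, 0))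
      (by omega) (by omega) (by omega) (by omega)
      ⟨⟨by dsimp only; omega, by dsimp only; omega⟩, by dsimp only; omega,
        by dsimp only; omega⟩
      (Or.inl (by dsimp only; omega)) h.symm
    have h2 := hho (2 * k) N _ (by omega) (by omega) h1
    rw [← Finset.inter_sdiff_assoc]
    exact h2
  have step2 : P2 (RE (-M) M 0 M) (fun F => TA k k (F ∩ RE (-(2 * k)) (2 * k) 0 (2 * k)) ∧
        HA 0 0 (2 * k) N
          (F ∩ (RE (0 - N) (0 + N) 0 (0 + N) \ RE (-(2 * k)) (2 * k) 0 (2 * k)))) =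
      P2 (RE (-(2 * k)) (2 * k) 0 (2 * k)) (TA k k) *
        P2 (RE (0 - N) (0 + N) 0 (0 + N) \ RE (-(2 * k)) (2 * k) 0 (2 * k))
          (HA 0 0 (2 * k) N) := P2_indep hS0 hT0 hdis _ _
  have step3 : P2 (RE (-(2 * k)) (2 * k) 0 (2 * k)) (TA k k) ≤ C1 / k :=
    hTB k k hk _ (RE_subset (by omega) (by omega) (by omega) (by omega))
  have step4 : P2 (RE (0 - N) (0 + N) 0 (0 + N) \ RE (-(2 * k)) (2 * k) 0 (2 * k))
      (HA 0 0 (2 * k) N) ≤ C2 * (2 * ((k : ℝ) / N) ^ ((1 : ℝ) / 3)) := by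
    calc P2 (RE (0 - N) (0 + N) 0 (0 + N) \ RE (-(2 * k)) (2 * k) 0 (2 * k))
          (HA 0 0 (2 * k) N)
        ≤ P2 (RE (0 - N) (0 + N) 0 (0 + N)) (HA 0 0 (2 * k) N) :=
          Pr_mono_set okhalf2 Finset.sdiff_subset (HA_incr _ _ _ _ _)
      _ ≤ C2 * (((2 * k : ℤ) : ℝ) / N) ^ ((1 : ℝ) / 3) :=
          hHA 0 0 (2 * k) N (by omega) (by omega) _ (subset_refl _)
      _ ≤ C2 * (2 * ((k : ℝ) / N) ^ ((1 : ℝ) / 3)) := by
          refine mul_le_mul_of_nonneg_left ?_ hC2.le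
          have := F_cube_le (x := (k : ℝ) / N) (K := 2) (by positivity) (by norm_num)
          push_cast
          rw [mul_div_assoc]
          exact this
  calc P2 (BX M) (FH M N k) ≤ _ := step1
    _ = _ := step2
    _ ≤ (C1 / k) * (C2 * (2 * ((k : ℝ) / N) ^ ((1 : ℝ) / 3))) :=
        mul_le_mul step3 step4 (Pr_nonneg okhalf2 _ _) (by positivity)
    _ = 2 * C1 * C2 / k * ((k : ℝ) / N) ^ ((1 : ℝ) / 3) := by ring

end H985LC
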